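import Pool.Agent.Work.MP_3f690c_an.Defs2

/-!
# Necessity: the completion property from size 2 to size 3 implies thinness
-/

open scoped ComplexOrder InnerProductSpace

namespace Pool.Agent.Work.MP_3f690c_an

universe u v

namespace Necess

section fc

noncomputable def mf (s : ℝ) : ℝ := max s (1 / 2)

noncomputable def psi (s : ℝ) : ℝ := s / (mf s ^ 2 * Real.sqrt (mf s))

noncomputable def ff (s : ℝ) : ℝ := max (2 * s - 1) 0

lemma mf_pos (s : ℝ) : 0 < mf s := lt_of_lt_of_le (by norm_num) (le_max_right _ _)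

lemma mf_cont : Continuous mf := by
  unfold mf; fun_prop

lemma psi_cont : Continuous psi := by
  unfold psi
  have h1 : Continuous fun s => mf s ^ 2 * Real.sqrt (mf s) :=
    (mf_cont.pow 2).mul (Real.continuous_sqrt.comp mf_cont)
  refine continuous_id.div h1 fun s => ?_
  have := mf_pos s
  positivity

lemma ff_cont : Continuous ff := by
  unfold ff; fun_prop

lemma psi_zero : psi 0 = 0 := by simp [psi]

lemma ff_zero : ff 0 = 0 := by simp [ff]

lemma key_sq (s : ℝ) : s * psi s * (s * (s * psi s)) = (s / mf s) ^ 5 := by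
  unfold psi
  have h := mf_pos s
  have h2 : Real.sqrt (mf s) * Real.sqrt (mf s) = mf s := Real.mul_self_sqrt h.le
  have h3 : Real.sqrt (mf s) ≠ 0 := (Real.sqrt_pos.2 h).ne'
  field_simp
  rw [pow_two (Real.sqrt (mf s)), h2]

lemma key_f (s : ℝ) : (s / mf s) ^ 5 * ff s = ff s := by
  by_cases hs : 1 / 2 ≤ s
  · have : mf s = s := max_eq_left hs
    rw [this, div_self (by linarith), one_pow, one_mul]
  · have : ff s = 0 := max_eq_right (by push Not at hs; linarith)
    rw [this, mul_zero]

lemma key_le {s : ℝ} (hs : 0 ≤ s) : |(s / mf s) ^ 5| ≤ 1 := by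
  rw [abs_of_nonneg (by have := mf_pos s; positivity)]
  refine pow_le_one₀ (by have := mf_pos s; positivity) ?_
  rw [div_le_one (mf_pos s)]
  exact le_max_left _ _

variable {A : Type u} [NonUnitalCStarAlgebra A] [PartialOrder A] [StarOrderedRing A]

theorem fc_step (w : A) (hw : ‖w‖ = 1) : ∃ p q f : A, star p = p ∧ p = q * (star w * w) ∧
    p = (star w * w) * q ∧ ‖w * p‖ ≤ 1 ∧ w * p * (p * (star w * (w * f))) = w * f ∧
    w * f ≠ 0 := by
  set x : A := star w * w with hx
  have hx0 : 0 ≤ x := star_mul_self_nonneg w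
  have hxs : IsSelfAdjoint x := .of_nonneg hx0
  have hxn : ‖x‖ = 1 := by rw [hx, CStarRing.norm_star_mul_self, hw, one_mul]
  have hid : cfcₙ (fun s : ℝ => s) x = x := cfcₙ_id' ℝ x
  have hpsi : ContinuousOn psi (quasispectrum ℝ x) := psi_cont.continuousOn
  have hff : ContinuousOn ff (quasispectrum ℝ x) := ff_cont.continuousOn
  have hphi : ContinuousOn (fun s => s * psi s) (quasispectrum ℝ x) :=
    (continuous_id.mul psi_cont).continuousOn
  have hp1 : cfcₙ (fun s : ℝ => s * psi s) x = x * cfcₙ psi x := by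
    rw [cfcₙ_mul (fun s : ℝ => s) psi x (hg := hpsi) (hg0 := psi_zero), hid]
  have hp2 : cfcₙ (fun s : ℝ => s * psi s) x = cfcₙ psi x * x := by
    have : (fun s : ℝ => s * psi s) = fun s => psi s * s := by ext s; ring
    rw [this, cfcₙ_mul psi (fun s : ℝ => s) x (hf := hpsi) (hf0 := psi_zero), hid]
  have hp3 : cfcₙ (fun s : ℝ => s * psi s) x * (x * cfcₙ (fun s : ℝ => s * psi s) x) =
      cfcₙ (fun s : ℝ => s * psi s * (s * (s * psi s))) x := by
    rw [cfcₙ_mul (fun s : ℝ => s * psi s) (fun s => s * (s * psi s)) x (hf := hphi)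
      (hf0 := by simp) (hg := (continuous_id.mul (continuous_id.mul psi_cont)).continuousOn)
      (hg0 := by simp), cfcₙ_mul (fun s : ℝ => s) (fun s => s * psi s) x (hg := hphi)
      (hg0 := by simp), hid]
  have hps : star (cfcₙ (fun s : ℝ => s * psi s) x) = cfcₙ (fun s : ℝ => s * psi s) x :=
    (cfcₙ_predicate (fun s : ℝ => s * psi s) x : IsSelfAdjoint _)
  refine ⟨cfcₙ (fun s : ℝ => s * psi s) x, cfcₙ psi x, cfcₙ ff x, hps, hp2, hp1, ?_, ?_, ?_⟩
  · have h1 : ‖w * cfcₙ (fun s : ℝ => s * psi s) x‖ * ‖w * cfcₙ (fun s : ℝ => s * psi s) x‖ ≤ 1 := by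
      rw [← CStarRing.norm_star_mul_self, star_mul, hps, mul_assoc, ← mul_assoc (star w), ← hx, hp3]
      refine norm_cfcₙ_le fun s hs => ?_
      rw [key_sq, Real.norm_eq_abs]
      exact key_le (quasispectrum_nonneg_of_nonneg x hx0 s hs)
    nlinarith [norm_nonneg (w * cfcₙ (fun s : ℝ => s * psi s) x)]
  · have h2 : cfcₙ (fun s : ℝ => s * psi s) x * (cfcₙ (fun s : ℝ => s * psi s) x *
        (star w * (w * cfcₙ ff x))) = cfcₙ ff x := by
      rw [← mul_assoc (star w), ← hx]
      have h4 : cfcₙ (fun s : ℝ => s * psi s) x * (x * cfcₙ ff x) =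
          cfcₙ (fun s : ℝ => s * psi s * (s * ff s)) x := by
        rw [cfcₙ_mul (fun s : ℝ => s * psi s) (fun s => s * ff s) x (hf := hphi)
          (hf0 := by simp) (hg := (continuous_id.mul ff_cont).continuousOn)
          (hg0 := by simp), cfcₙ_mul (fun s : ℝ => s) ff x (hg := hff) (hg0 := ff_zero), hid]
      rw [h4, ← cfcₙ_mul (fun s : ℝ => s * psi s) (fun s => s * psi s * (s * ff s)) x (hf := hphi)
        (hf0 := by simp) (hg := ((continuous_id.mul psi_cont).mul
          (continuous_id.mul ff_cont)).continuousOn) (hg0 := by simp)]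
      congr 1
      ext s
      rw [show s * psi s * (s * psi s * (s * ff s)) = (s * psi s * (s * (s * psi s))) * ff s by ring,
        key_sq, key_f]
    rw [mul_assoc, h2]
  · intro h0
    have h5 : cfcₙ (fun s : ℝ => ff s * (s * ff s)) x = cfcₙ (fun _ : ℝ => (0 : ℝ)) x := by
      rw [cfcₙ_mul ff (fun s => s * ff s) x (hf := hff)
          (hf0 := ff_zero) (hg := (continuous_id.mul ff_cont).continuousOn)
          (hg0 := by simp), cfcₙ_mul (fun s : ℝ => s) ff x (hg := hff) (hg0 := ff_zero), hid,
          cfcₙ_const_zero, hx, mul_assoc, h0, mul_zero, mul_zero]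
    have h6 := eqOn_of_cfcₙ_eq_cfcₙ h5 hxs
      (ff_cont.mul (continuous_id.mul ff_cont)).continuousOn (by simp [ff_zero])
      continuousOn_const rfl
    obtain ⟨s, hs, hs1⟩ := (NonUnitalIsometricContinuousFunctionalCalculus.isGreatest_norm_quasispectrum (𝕜 := ℝ) x hxs).1
    have hs0 := quasispectrum_nonneg_of_nonneg x hx0 s hs
    simp only [Real.norm_eq_abs, abs_of_nonneg hs0, hxn] at hs1
    have h7 := h6 hs
    rw [hs1] at h7
    norm_num [ff] at h7

end fc

section sys

variable {A : Type u} [NonUnitalCStarAlgebra A] [PartialOrder A] [StarOrderedRing A]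

/-- The normalised system. -/
structure Sys (e : A) (w z : ℕ → A) : Prop where
  es : star e = e
  ew : ∀ n, e * w n = w n
  we : ∀ n, w n * e = 0
  sw : ∀ m n, m ≠ n → star (w m) * w n = 0
  ws : ∀ m n, m ≠ n → w m * star (w n) = 0
  nw : ∀ n, ‖w n‖ ≤ 1
  nz : ∀ n, z n ≠ 0
  zz : ∀ n, w n * (star (w n) * z n) = z n

theorem exists_sys (e : A) (w : ℕ → A) (he : 0 ≤ e) (h1 : ∀ n, e * w n = w n ∧ w n * e = 0)
    (h2 : ∀ m n, m ≠ n → star (w m) * w n = 0 ∧ w m * star (w n) = 0) (h3 : ∀ n, w n ≠ 0) :
    ∃ w' z : ℕ → A, Sys e w' z := by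
  have hu : ∀ n, ‖(‖w n‖⁻¹ : ℝ) • w n‖ = 1 := fun n => by
    rw [norm_smul, norm_inv, norm_norm, inv_mul_cancel₀ (norm_ne_zero_iff.2 (h3 n))]
  choose p q f hps hp1 hp2 hpn hpz hz using fun n => fc_step _ (hu n)
  set v : ℕ → A := fun n => (‖w n‖⁻¹ : ℝ) • w n with hv
  have e1 : ∀ n, e * v n = v n := fun n => by simp only [hv, mul_smul_comm, (h1 n).1]
  have e2 : ∀ n, v n * e = 0 := fun n => by simp only [hv, smul_mul_assoc, (h1 n).2, smul_zero]
  have e3 : ∀ m n, m ≠ n → star (v m) * v n = 0 := fun m n h => by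
    simp only [hv, star_smul, smul_mul_assoc, mul_smul_comm, (h2 m n h).1, smul_zero]
  have e4 : ∀ m n, m ≠ n → v m * star (v n) = 0 := fun m n h => by
    simp only [hv, star_smul, smul_mul_assoc, mul_smul_comm, (h2 m n h).2, smul_zero]
  refine ⟨fun n => v n * p n, fun n => v n * f n, ⟨?_, ?_, ?_, ?_, ?_, hpn, hz, ?_⟩⟩
  · exact IsSelfAdjoint.of_nonneg he
  · intro n
    rw [← mul_assoc, e1]
  · intro n
    show v n * p n * e = 0
    rw [hp1 n, mul_assoc, mul_assoc, mul_assoc]
    have : v n * e = 0 := e2 n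
    rw [this, mul_zero, mul_zero, mul_zero]
  · intro m n h
    show star (v m * p m) * (v n * p n) = 0
    rw [star_mul, mul_assoc, ← mul_assoc (star (v m)), e3 m n h, zero_mul, mul_zero]
  · intro m n h
    show v m * p m * star (v n * p n) = 0
    have h5 : p m * p n = 0 := by
      have e5 : v m * star (v n) = 0 := e4 m n h
      have a1 : p m = q m * (star (v m) * v m) := hp1 m
      have a2 : p n = star (v n) * v n * q n := hp2 n
      rw [a1, a2]
      rw [show q m * (star (v m) * v m) * (star (v n) * v n * q n) =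
        q m * (star (v m) * ((v m * star (v n)) * (v n * q n))) by simp only [mul_assoc], e5,
        zero_mul, mul_zero, mul_zero]
    rw [star_mul, hps, mul_assoc, ← mul_assoc (p m), h5, zero_mul, mul_zero]
  · intro n
    show v n * p n * (star (v n * p n) * (v n * f n)) = v n * f n
    rw [star_mul, hps, mul_assoc (p n)]
    exact hpz n

variable {e : A} {w z : ℕ → A}

set_option linter.unusedSectionVars false

lemma Sys.ww (S : Sys e w z) (m n : ℕ) : w m * w n = 0 := by
  rw [← S.ew n, ← mul_assoc, S.we, zero_mul]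

lemma Sys.ss (S : Sys e w z) (m n : ℕ) : star (w m) * star (w n) = 0 := by
  rw [← star_mul, S.ww, star_zero]

lemma Sys.ez (S : Sys e w z) (n : ℕ) : e * z n = z n := by
  rw [← S.zz n, ← mul_assoc, S.ew]

lemma Sys.wz (S : Sys e w z) (m n : ℕ) : w m * z n = 0 := by
  rw [← S.zz n, ← mul_assoc, S.ww, zero_mul]

lemma Sys.sz (S : Sys e w z) {m n : ℕ} (h : m ≠ n) : star (w m) * z n = 0 := by
  rw [← S.zz n, ← mul_assoc, S.sw m n h, zero_mul]

lemma Sys.es' (S : Sys e w z) (n : ℕ) : e * star (w n) = 0 := by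
  have := congrArg star (S.we n)
  rwa [star_mul, S.es, star_zero] at this

lemma Sys.se (S : Sys e w z) (n : ℕ) : star (w n) * e = star (w n) := by
  have := congrArg star (S.ew n)
  rwa [star_mul, S.es] at this

lemma nonneg_fac {a : A} (ha : 0 ≤ a) : ∃ b, a = star b * b :=
  CStarAlgebra.nonneg_iff_eq_star_mul_self.1 ha

/-- positivity helper: real scalar multiples at most one. -/
lemma smul_le_self {a : A} (ha : 0 ≤ a) {c : ℝ} (hc : c ≤ 1) : c • a ≤ a := by
  rw [← sub_nonneg]
  obtain ⟨b, rfl⟩ := CStarAlgebra.nonneg_iff_eq_star_mul_self.1 ha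
  have h1 : star b * b - c • (star b * b) =
      star (Real.sqrt (1 - c) • b) * (Real.sqrt (1 - c) • b) := by
    rw [star_smul, smul_mul_smul_comm, star_trivial (Real.sqrt (1 - c)),
      Real.mul_self_sqrt (by linarith), sub_smul, one_smul]
  rw [h1]
  exact star_mul_self_nonneg _

lemma norm_add_le_one {a b : A} (h1 : star a * b = 0) (h2 : a * star b = 0) (ha : ‖a‖ ≤ 1)
    (hb : ‖b‖ ≤ 1) : ‖a + b‖ ≤ 1 := by
  have h1' : star b * a = 0 := by
    have := congrArg star h1
    rwa [star_mul, star_star, star_zero] at this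
  have h2' : b * star a = 0 := by
    have := congrArg star h2
    rwa [star_mul, star_star, star_zero] at this
  have hP : star (a + b) * (a + b) = star a * a + star b * b := by
    rw [star_add, add_mul, mul_add, mul_add, h1, h1']
    simp
  have hsq : ∀ x : A, ‖x‖ ≤ 1 → (star x * x) * (star x * x) ≤ star x * x := by
    intro x hx
    have h3 : star x * (x * star x) * x ≤ ‖x * star x‖ • (star x * x) :=
      CStarAlgebra.star_left_conjugate_le_norm_smul (IsSelfAdjoint.mul_star_self x)
    have h4 : ‖x * star x‖ ≤ 1 := by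
      rw [CStarRing.norm_self_mul_star]
      nlinarith [norm_nonneg x]
    calc (star x * x) * (star x * x) = star x * (x * star x) * x := by simp only [mul_assoc]
      _ ≤ ‖x * star x‖ • (star x * x) := h3
      _ ≤ star x * x := smul_le_self (star_mul_self_nonneg x) h4
  have hP2 : (star a * a + star b * b) * (star a * a + star b * b) ≤
      star a * a + star b * b := by
    have h5 : (star a * a + star b * b) * (star a * a + star b * b) =
        (star a * a) * (star a * a) + (star b * b) * (star b * b) := by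
      rw [add_mul, mul_add, mul_add]
      have h6 : star a * a * (star b * b) = 0 := by
        rw [mul_assoc, ← mul_assoc a, h2, zero_mul, mul_zero]
      have h7 : star b * b * (star a * a) = 0 := by
        rw [mul_assoc, ← mul_assoc b, h2', zero_mul, mul_zero]
      rw [h6, h7]
      simp
    rw [h5]
    exact add_le_add (hsq a ha) (hsq b hb)
  set P := star a * a + star b * b with hPdef
  have hPs : star P = P := by
    rw [hPdef, star_add, star_mul, star_mul, star_star, star_star]
  have hP0 : 0 ≤ P * P := by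
    have := star_mul_self_nonneg P
    rwa [hPs] at this
  have h8 : ‖P‖ * ‖P‖ ≤ ‖P‖ := by
    have h9 := CStarAlgebra.norm_le_norm_of_nonneg_of_le hP0 hP2
    have h10 : ‖star P * P‖ = ‖P‖ * ‖P‖ := CStarRing.norm_star_mul_self
    rw [hPs] at h10
    rwa [h10] at h9
  have h11 : ‖P‖ ≤ 1 := by
    by_contra hcon
    push Not at hcon
    nlinarith
  have h12 : ‖a + b‖ * ‖a + b‖ ≤ 1 := by
    rw [← CStarRing.norm_star_mul_self, hP]
    exact h11
  nlinarith [norm_nonneg (a + b)]

lemma toep_two_nonneg (h k : A) (hh : star h = h) (hk : ‖k‖ ≤ 1) (a : ℤ → A) (h0 : a 0 = h * h)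
    (h1 : a 1 = h * k * h) (h2 : a (-1) = h * star k * h) : 0 ≤ toep a 2 := by
  have hd : 0 ≤ h * h - h * k * (star k * h) := by
    rw [sub_nonneg]
    have h3 : star h * (k * star k) * h ≤ ‖k * star k‖ • (star h * h) :=
      CStarAlgebra.star_left_conjugate_le_norm_smul (IsSelfAdjoint.mul_star_self k)
    have h4 : ‖k * star k‖ ≤ 1 := by
      rw [CStarRing.norm_self_mul_star]
      nlinarith [norm_nonneg k]
    have h5 := h3.trans (smul_le_self (star_mul_self_nonneg h) h4)
    rw [hh] at h5
    calc h * k * (star k * h) = h * (k * star k) * h := by simp only [mul_assoc]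
      _ ≤ h * h := h5
  obtain ⟨s, hs⟩ := CStarAlgebra.nonneg_iff_eq_star_mul_self.1 hd
  let C : CStarMatrix (Fin 2) (Fin 2) A := CStarMatrix.ofMatrix !![h, star k * h; 0, 0]
  let D : CStarMatrix (Fin 2) (Fin 2) A := CStarMatrix.ofMatrix !![0, 0; 0, s]
  have hCD : toep a 2 = star C * C + star D * D := by
    ext i j
    rw [CStarMatrix.add_apply, CStarMatrix.mul_apply, CStarMatrix.mul_apply, Fin.sum_univ_two,
      Fin.sum_univ_two]
    simp only [CStarMatrix.star_apply]
    fin_cases i <;> fin_cases j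
    · simp [toep, C, D, hh, h0]
    · simp [toep, C, D, hh, h2, mul_assoc]
    · simp [toep, C, D, hh, h1]
    · simp only [toep, C, D, CStarMatrix.ofMatrix_apply]
      simp [hh, h0, ← hs]
  rw [hCD]
  exact add_nonneg (star_mul_self_nonneg C) (star_mul_self_nonneg D)

lemma kernel3 (Y : CStarMatrix (Fin 3) (Fin 3) A) (hY : 0 ≤ Y) (ζ : Fin 3 → A) (h0 : ζ 0 = 0)
    (h1 : ∑ j, Y 1 j * ζ j = 0) (h2 : ∑ j, Y 2 j * ζ j = 0) : ∑ j, Y 0 j * ζ j = 0 := by
  obtain ⟨B, rfl⟩ := nonneg_fac hY
  set Z : CStarMatrix (Fin 3) (Fin 3) A :=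
    CStarMatrix.ofMatrix (Matrix.of fun i j => if j = 0 then ζ i else 0) with hZ
  have hZij : ∀ i j, Z i j = if j = 0 then ζ i else 0 := fun i j => rfl
  have hYZ : ∀ i j, (star B * B * Z) i j = if j = 0 then ∑ l, (star B * B) i l * ζ l else 0 := by
    intro i j
    rw [CStarMatrix.mul_apply]
    simp only [hZij]
    by_cases hj : j = 0
    · simp [hj]
    · simp [hj]
  have hZYZ : star Z * (star B * B * Z) = 0 := by
    ext i j
    rw [CStarMatrix.mul_apply, CStarMatrix.zero_apply]
    simp only [CStarMatrix.star_apply, hYZ, hZij]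
    refine Finset.sum_eq_zero fun l _ => ?_
    by_cases hi : i = 0
    · by_cases hj : j = 0
      · simp only [hi, hj, if_true]
        fin_cases l
        · simp [h0]
        · have : ∑ l, (star B * B) 1 l * ζ l = 0 := h1
          simp only [Fin.mk_one]
          rw [this, mul_zero]
        · have : ∑ l, (star B * B) 2 l * ζ l = 0 := h2
          simp only [Fin.reduceFinMk]
          rw [this, mul_zero]
      · simp [hj]
    · simp [hi]
  have hBZ : B * Z = 0 := by
    rw [← CStarRing.star_mul_self_eq_zero_iff, star_mul]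
    calc star Z * star B * (B * Z) = star Z * (star B * B * Z) := by simp only [mul_assoc]
      _ = 0 := hZYZ
  have h3 : (star B * B * Z) 0 0 = 0 := by
    rw [mul_assoc, hBZ, mul_zero, CStarMatrix.zero_apply]
  rw [hYZ] at h3
  simpa using h3

/-- The finite sums. -/
noncomputable def hM (e : A) (w : ℕ → A) (M : ℕ) : A :=
  e + ∑ n ∈ Finset.range M, ((1 / 2 : ℝ) ^ n) • (star (w n) * w n)

noncomputable def kM (w : ℕ → A) (θ : ℕ → ℝ) (M : ℕ) : A :=
  ∑ n ∈ Finset.range M, (w n + θ n • star (w n))

noncomputable def cn (w : ℕ → A) (θ : ℕ → ℝ) (n : ℕ) : A :=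
  ((1 / 2 : ℝ) ^ n) • (w n * (star (w n) * w n) + θ n • (star (w n) * w n * star (w n)))

lemma hM_star (S : Sys e w z) (M : ℕ) : star (hM e w M) = hM e w M := by
  simp only [hM, star_add, S.es, star_sum, star_smul, star_mul, star_star, star_trivial]

lemma w_hM (S : Sys e w z) {M n : ℕ} (hn : n < M) :
    w n * hM e w M = ((1 / 2 : ℝ) ^ n) • (w n * (star (w n) * w n)) := by
  rw [hM, mul_add, S.we, zero_add, Finset.mul_sum, Finset.sum_eq_single n]
  · rw [mul_smul_comm]
  · intro m _ hm
    rw [mul_smul_comm, ← mul_assoc, S.ws n m (Ne.symm hm), zero_mul, smul_zero]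
  · intro h
    exact absurd (Finset.mem_range.2 hn) h

lemma hM_w (S : Sys e w z) (M n : ℕ) : hM e w M * w n = w n := by
  rw [hM, add_mul, S.ew, Finset.sum_mul, Finset.sum_eq_zero, add_zero]
  intro m _
  rw [smul_mul_assoc, mul_assoc, S.ww, mul_zero, smul_zero]

lemma hM_s (S : Sys e w z) {M n : ℕ} (hn : n < M) :
    hM e w M * star (w n) = ((1 / 2 : ℝ) ^ n) • (star (w n) * w n * star (w n)) := by
  have h := congrArg star (w_hM S hn)
  rw [star_mul, hM_star S] at h
  rw [h, star_smul, star_mul, star_mul, star_star, star_trivial]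

lemma s_hM (S : Sys e w z) (M n : ℕ) : star (w n) * hM e w M = star (w n) := by
  have h := congrArg star (hM_w S M n)
  rwa [star_mul, hM_star S] at h

lemma hkh (S : Sys e w z) (θ : ℕ → ℝ) (M : ℕ) :
    hM e w M * kM w θ M * hM e w M = ∑ n ∈ Finset.range M, cn w θ n := by
  rw [kM, Finset.mul_sum, Finset.sum_mul]
  refine Finset.sum_congr rfl fun n hn => ?_
  have hn' := Finset.mem_range.1 hn
  rw [mul_add, mul_smul_comm, hM_w S, hM_s S hn', add_mul, w_hM S hn', smul_mul_assoc,
    smul_mul_assoc, mul_assoc (star (w n) * w n), s_hM S, cn, smul_add, smul_comm]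

lemma norm_kM (S : Sys e w z) (θ : ℕ → ℝ) (hθ : ∀ n, |θ n| = 1) (M : ℕ) : ‖kM w θ M‖ ≤ 1 := by
  induction M with
  | zero => simp [kM]
  | succ M ih =>
    have h1 : kM w θ (M + 1) = kM w θ M + (w M + θ M • star (w M)) := by
      rw [kM, Finset.sum_range_succ, ← kM]
    rw [h1]
    refine norm_add_le_one ?_ ?_ ih ?_
    · rw [kM, star_sum, Finset.sum_mul]
      refine Finset.sum_eq_zero fun n hn => ?_
      have hne : n ≠ M := (Finset.mem_range.1 hn).ne
      simp only [star_add, star_smul, star_star, add_mul, mul_add, smul_mul_assoc, mul_smul_comm,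
        S.sw n M hne, S.ws n M hne, S.ww, S.ss, smul_zero, add_zero]
    · rw [kM, Finset.sum_mul]
      refine Finset.sum_eq_zero fun n hn => ?_
      have hne : n ≠ M := (Finset.mem_range.1 hn).ne
      simp only [star_add, star_smul, star_star, add_mul, mul_add, smul_mul_assoc, mul_smul_comm,
        S.sw n M hne, S.ws n M hne, S.ww, S.ss, smul_zero, add_zero]
    · refine norm_add_le_one ?_ ?_ (S.nw M) ?_
      · rw [mul_smul_comm, S.ss, smul_zero]
      · rw [star_smul, star_star, mul_smul_comm, S.ww, smul_zero]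
      · rw [norm_smul, Real.norm_eq_abs, hθ, one_mul, norm_star]
        exact S.nw M

lemma norm_g (S : Sys e w z) (n : ℕ) : ‖star (w n) * w n‖ ≤ 1 := by
  rw [CStarRing.norm_star_mul_self]
  have := S.nw n
  nlinarith [norm_nonneg (w n)]

lemma summable_g (S : Sys e w z) :
    Summable fun n => ((1 / 2 : ℝ) ^ n) • (star (w n) * w n) := by
  refine Summable.of_norm_bounded (g := fun n => (1 / 2 : ℝ) ^ n) summable_geometric_two ?_
  intro n
  rw [norm_smul, norm_pow]
  have h1 : ‖(1 / 2 : ℝ)‖ = 1 / 2 := by norm_num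
  rw [h1]
  have h2 := norm_g S n
  have h3 : (0 : ℝ) ≤ (1 / 2) ^ n := by positivity
  nlinarith

lemma summable_c (S : Sys e w z) (θ : ℕ → ℝ) (hθ : ∀ n, |θ n| = 1) : Summable (cn w θ) := by
  refine Summable.of_norm_bounded (g := fun n => 2 * (1 / 2 : ℝ) ^ n)
    (summable_geometric_two.mul_left 2) ?_
  intro n
  rw [cn, norm_smul, norm_pow]
  have h1 : ‖(1 / 2 : ℝ)‖ = 1 / 2 := by norm_num
  rw [h1]
  have h2 := norm_g S n
  have h3 : (0 : ℝ) ≤ (1 / 2) ^ n := by positivity
  have h4 : ‖w n * (star (w n) * w n)‖ ≤ 1 := by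
    refine (norm_mul_le _ _).trans ?_
    have := S.nw n
    nlinarith [norm_nonneg (w n), norm_nonneg (star (w n) * w n)]
  have h5 : ‖θ n • (star (w n) * w n * star (w n))‖ ≤ 1 := by
    rw [norm_smul, Real.norm_eq_abs, hθ, one_mul]
    refine (norm_mul_le _ _).trans ?_
    have := S.nw n
    rw [norm_star]
    nlinarith [norm_nonneg (w n), norm_nonneg (star (w n) * w n)]
  have h6 := norm_add_le (w n * (star (w n) * w n)) (θ n • (star (w n) * w n * star (w n)))
  nlinarith

theorem multiplier (S : Sys e w z) (h2 : StepProp A 2) (θ : ℕ → ℝ) (hθ : ∀ n, |θ n| = 1) :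
    ∃ y : A, ∀ n, y * z n = θ n • z n := by
  have hθ2 : ∀ n, θ n * θ n = 1 := fun n => by rw [← abs_mul_abs_self, hθ, one_mul]
  set b : A := ∑' n, ((1 / 2 : ℝ) ^ n) • (star (w n) * w n) with hb
  set h : A := e + b with hh
  set c : A := ∑' n, cn w θ n with hc
  have tb := (summable_g S).hasSum.tendsto_sum_nat
  have tc := (summable_c S θ hθ).hasSum.tendsto_sum_nat
  have th : Filter.Tendsto (fun M => hM e w M) Filter.atTop (nhds h) := tb.const_add e
  let a : ℤ → A := fun l => if l = 0 then h * h else if l = 1 then c else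
    if l = -1 then star c else 0
  let aM : ℕ → ℤ → A := fun M l => if l = 0 then hM e w M * hM e w M else
    if l = 1 then hM e w M * kM w θ M * hM e w M else
    if l = -1 then hM e w M * star (kM w θ M) * hM e w M else 0
  have ha0 : a 0 = h * h := by simp [a]
  have ha1 : a 1 = c := by simp [a]
  have ha2 : a (-1) = star c := by simp [a]
  have hpos : 0 ≤ toep a 2 := by
    have hM0 : ∀ M, 0 ≤ toep (aM M) 2 := fun M =>
      toep_two_nonneg (hM e w M) (kM w θ M) (hM_star S M) (norm_kM S θ hθ M) (aM M)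
        (by simp [aM]) (by simp [aM]) (by simp [aM])
    have hlim : ∀ l : ℤ, Filter.Tendsto (fun M => aM M l) Filter.atTop (nhds (a l)) := by
      intro l
      by_cases h0 : l = 0
      · simp only [aM, a, h0, if_true]
        exact th.mul th
      · by_cases h1 : l = 1
        · subst h1
          simp only [aM, a]
          simp only [one_ne_zero, if_false, if_true]
          simp only [hkh S]
          exact tc
        · by_cases h3 : l = -1
          · subst h3
            simp only [aM, a]
            simp only [h0, h1, if_false, if_true]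
            have : ∀ M, hM e w M * star (kM w θ M) * hM e w M =
                star (∑ n ∈ Finset.range M, cn w θ n) := by
              intro M
              rw [← hkh S, star_mul, star_mul, hM_star S, mul_assoc]
            simp only [this]
            exact tc.star
          · simp only [aM, a, h0, h1, h3, if_false]
            exact tendsto_const_nhds
    have hlim2 : Filter.Tendsto (fun M => toep (aM M) 2) Filter.atTop (nhds (toep a 2)) := by
      refine tendsto_pi_nhds.2 fun i => tendsto_pi_nhds.2 fun j => ?_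
      exact hlim _
    exact ge_of_tendsto' hlim2 hM0
  obtain ⟨y, hy, hY⟩ := h2 a hpos
  have hy0 : y 0 = h * h := by rw [hy 0 (by norm_num), ha0]
  have hy1 : y 1 = c := by rw [hy 1 (by norm_num), ha1]
  have hy2 : y (-1) = star c := by rw [hy (-1) (by norm_num), ha2]
  refine ⟨y (-2), fun n => ?_⟩
  -- relations for `z n` and `r = star (w n) * z n`
  set r : A := star (w n) * z n with hr
  have hbz : b * z n = 0 := by
    rw [hb, ← (summable_g S).tsum_mul_right]
    have : ∀ m, ((1 / 2 : ℝ) ^ m) • (star (w m) * w m) * z n = 0 := fun m => by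
      rw [smul_mul_assoc, mul_assoc, S.wz, mul_zero, smul_zero]
    simp only [this, tsum_zero]
  have hhz : h * z n = z n := by rw [hh, add_mul, hbz, S.ez, add_zero]
  have her : e * r = 0 := by rw [hr, ← mul_assoc, S.es', zero_mul]
  have hgr : ∀ m, m ≠ n → w m * r = 0 := fun m hm => by
    rw [hr, ← mul_assoc, S.ws m n hm, zero_mul]
  have hwr : w n * r = z n := S.zz n
  have hsr : ∀ m, star (w m) * r = 0 := fun m => by rw [hr, ← mul_assoc, S.ss, zero_mul]
  have hbr : b * r = ((1 / 2 : ℝ) ^ n) • r := by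
    rw [hb, ← (summable_g S).tsum_mul_right, tsum_eq_single n]
    · rw [smul_mul_assoc, mul_assoc, hwr]
    · intro m hm
      rw [smul_mul_assoc, mul_assoc, hgr m hm, mul_zero, smul_zero]
  have hhr : h * r = ((1 / 2 : ℝ) ^ n) • r := by rw [hh, add_mul, her, hbr, zero_add]
  have hcr : c * r = ((1 / 2 : ℝ) ^ n) • z n := by
    rw [hc, ← (summable_c S θ hθ).tsum_mul_right, tsum_eq_single n]
    · rw [cn, smul_mul_assoc, add_mul, smul_mul_assoc, mul_assoc (star (w n) * w n), hsr, mul_zero,
        smul_zero, add_zero, mul_assoc, mul_assoc, hwr]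
      rw [← hr, hwr]
    · intro m hm
      rw [cn, smul_mul_assoc, add_mul, smul_mul_assoc, mul_assoc (star (w m) * w m), hsr, mul_zero,
        smul_zero, add_zero, mul_assoc, mul_assoc, hgr m hm, mul_zero, mul_zero, smul_zero]
  have hcs : star c = ∑' m, star (cn w θ m) := by rw [hc, tsum_star]
  have hss : Summable fun m => star (cn w θ m) := (summable_c S θ hθ).star
  have hstar : ∀ m, star (cn w θ m) = ((1 / 2 : ℝ) ^ m) • (star (w m) * w m * star (w m) +
      θ m • (w m * (star (w m) * w m))) := fun m => by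
    simp only [cn, star_smul, star_add, star_mul, star_star, star_trivial, mul_assoc]
  have hstx : ∀ m (x : A), star (cn w θ m) * x = ((1 / 2 : ℝ) ^ m) •
      (star (w m) * (w m * (star (w m) * x)) + θ m • (w m * (star (w m) * (w m * x)))) := by
    intro m x
    rw [hstar, smul_mul_assoc, add_mul, smul_mul_assoc]
    simp only [mul_assoc]
  have hcz : star c * z n = ((1 / 2 : ℝ) ^ n) • r := by
    rw [hcs, ← hss.tsum_mul_right, tsum_eq_single n]
    · rw [hstx, S.wz, mul_zero, mul_zero, smul_zero, add_zero, ← hr, hwr]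
    · intro m hm
      rw [hstx, S.wz, mul_zero, mul_zero, smul_zero, add_zero, S.sz hm, mul_zero, mul_zero,
        smul_zero]
  have hcr2 : star c * r = ((1 / 2 : ℝ) ^ n) • (θ n • z n) := by
    rw [hcs, ← hss.tsum_mul_right, tsum_eq_single n]
    · rw [hstx, hwr, hsr, mul_zero, mul_zero, zero_add, ← hr, hwr]
    · intro m hm
      rw [hstx, hgr m hm, hsr]
      simp only [mul_zero, smul_zero, add_zero]
  have key := kernel3 (toep y 3) hY ![0, -((2 : ℝ) ^ n • r), z n] rfl ?_ ?_
  · rw [Fin.sum_univ_three] at key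
    have e0 : (toep y 3) 0 1 = y (-1) := by simp [toep]
    have e1 : (toep y 3) 0 2 = y (-2) := by simp [toep]
    simp only [Matrix.cons_val_zero, Matrix.cons_val_one, Matrix.cons_val_two, Matrix.head_cons,
      Matrix.tail_cons, mul_zero, zero_add, e0, e1, hy2] at key
    rw [mul_neg, mul_smul_comm, hcr2, smul_smul, ← mul_pow] at key
    norm_num at key
    rw [neg_add_eq_zero] at key
    exact key.symm
  · rw [Fin.sum_univ_three]
    have e0 : (toep y 3) 1 1 = y 0 := by simp [toep]
    have e1 : (toep y 3) 1 2 = y (-1) := by simp [toep]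
    simp only [Matrix.cons_val_zero, Matrix.cons_val_one, Matrix.cons_val_two, Matrix.head_cons,
      Matrix.tail_cons, mul_zero, zero_add, e0, e1, hy2, hy0]
    rw [mul_neg, mul_smul_comm, mul_assoc, hhr, mul_smul_comm, hhr, hcz, smul_smul, ← mul_pow]
    norm_num
  · rw [Fin.sum_univ_three]
    have e0 : (toep y 3) 2 1 = y 1 := by simp [toep]
    have e1 : (toep y 3) 2 2 = y 0 := by simp [toep]
    simp only [Matrix.cons_val_zero, Matrix.cons_val_one, Matrix.cons_val_two, Matrix.head_cons,
      Matrix.tail_cons, mul_zero, zero_add, e0, e1, hy1, hy0]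
    rw [mul_neg, mul_smul_comm, mul_assoc, hhz, hhz, hcr, smul_smul, ← mul_pow]
    norm_num

end sys

end Necess

theorem thin_of_step {A : Type u} [NonUnitalCStarAlgebra A] [PartialOrder A] [StarOrderedRing A]
    (hS : ∃ S : Set A, Dense S ∧ Cardinal.mk S < Cardinal.continuum) (h2 : StepProp A 2) :
    Thin A := by
  intro e w he h1 h3
  by_contra hcon
  push Not at hcon
  obtain ⟨w', z, S⟩ := Necess.exists_sys e w he h1 h3 hcon
  let sg : (ℕ → Bool) → ℕ → ℝ := fun θ n => if θ n then 1 else -1
  have hsg : ∀ θ n, |sg θ n| = 1 := fun θ n => by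
    by_cases h : θ n <;> simp [sg, h]
  choose y hy using fun θ => Necess.multiplier S h2 (sg θ) (hsg θ)
  obtain ⟨T, hT, hcard⟩ := hS
  choose t htT ht using fun θ => hT.exists_dist_lt (y θ) (zero_lt_one)
  have hinj : Function.Injective (fun θ : ℕ → Bool => (⟨t θ, htT θ⟩ : T)) := by
    intro θ θ' hθ
    by_contra hne
    obtain ⟨n, hn⟩ := Function.ne_iff.1 hne
    have e1 : t θ = t θ' := congrArg Subtype.val hθ
    have e2 : dist (y θ) (y θ') < 2 := by
      have a1 := ht θ
      have a2 := ht θ'
      have a3 := dist_triangle_right (y θ) (y θ') (t θ)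
      rw [e1] at a3 a1
      linarith
    have e3 : (y θ - y θ') * z n = (sg θ n - sg θ' n) • z n := by
      rw [sub_mul, hy, hy, sub_smul]
    have e4 : |sg θ n - sg θ' n| = 2 := by
      cases h5 : θ n <;> cases h6 : θ' n <;> simp_all [sg] <;> norm_num
    have e5 : ‖(y θ - y θ') * z n‖ = 2 * ‖z n‖ := by
      rw [e3, norm_smul, Real.norm_eq_abs, e4]
    have e6 := norm_mul_le (y θ - y θ') (z n)
    rw [e5, ← dist_eq_norm] at e6
    have e7 : 0 < ‖z n‖ := norm_pos_iff.2 (S.nz n)
    nlinarith
  have h4 := Cardinal.lift_mk_le_lift_mk_of_injective hinj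
  have h5 : Cardinal.mk (ℕ → Bool) = Cardinal.continuum := by simp
  rw [h5] at h4
  have h6 : Cardinal.lift.{0, u} (Cardinal.mk T) = Cardinal.mk T := Cardinal.lift_id' _
  rw [Cardinal.lift_continuum] at h4
  have h7 : Cardinal.lift.{0, u} (Cardinal.mk T) < Cardinal.continuum := by
    rw [Cardinal.lift_uzero]; exact hcard
  exact absurd h4 (not_le.2 h7)

end Pool.Agent.Work.MP_3f690c_an
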