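import Pool.Agent.Work.MP_3f690c_an.Defs2

/-!
# The part of a thin C*-algebra without minimal projections is central
-/

open scoped ComplexOrder InnerProductSpace

namespace Pool.Agent.Work.MP_3f690c_an

universe u v

namespace Ctr

section
variable {A : Type u} [NonUnitalCStarAlgebra A] [PartialOrder A] [StarOrderedRing A]

/-- the ideal of elements killed by all minimal projections -/
def InJ (a : A) : Prop := ∀ q : A, IsMinProj q → ∀ x, a * x * q = 0

omit [PartialOrder A] [StarOrderedRing A] in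
lemma InJ.mul_left {a : A} (ha : InJ a) (y : A) : InJ (y * a) := by
  intro q hq x
  rw [mul_assoc y a x, mul_assoc, ha q hq x, mul_zero]

omit [PartialOrder A] [StarOrderedRing A] in
lemma InJ.mul_right {a : A} (ha : InJ a) (y : A) : InJ (a * y) := by
  intro q hq x
  rw [mul_assoc a y x, ha q hq (y * x)]

omit [PartialOrder A] [StarOrderedRing A] in
lemma InJ.sub {a b : A} (ha : InJ a) (hb : InJ b) : InJ (a - b) := by
  intro q hq x
  rw [sub_mul, sub_mul, ha q hq x, hb q hq x, sub_zero]

omit [PartialOrder A] [StarOrderedRing A] in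
lemma InJ.star {a : A} (ha : InJ a) : InJ (star a) := by
  intro q hq x
  rw [← CStarRing.star_mul_self_eq_zero_iff]
  have h1 : Star.star (Star.star a * x * q) * (Star.star a * x * q) =
      Star.star q * Star.star x * (a * (Star.star a * x) * q) := by
    simp only [star_mul, star_star, mul_assoc]
  rw [h1, ha q hq, mul_zero]

/-- the cut-off functions -/
noncomputable def fs (d : ℝ) (s : ℕ) (t : ℝ) : ℝ := min 1 (max 0 (t / d - s))

lemma fs_zero (d : ℝ) (s : ℕ) : fs d s 0 = 0 := by
  unfold fs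
  have : max 0 (0 / d - (s : ℝ)) = 0 := by
    apply max_eq_left
    simp
  rw [this]; simp

lemma fs_cont (d : ℝ) (s : ℕ) : Continuous (fs d s) := by
  unfold fs; fun_prop

lemma fs_nonneg (d : ℝ) (s : ℕ) (t : ℝ) : 0 ≤ fs d s t := by
  unfold fs; positivity

lemma fs_le_one (d : ℝ) (s : ℕ) (t : ℝ) : fs d s t ≤ 1 := min_le_left _ _

lemma fs_mul (d : ℝ) {s m : ℕ} (h : s + 1 ≤ m) (t : ℝ) : fs d s t * fs d m t = fs d m t := by
  by_cases ht : t / d - m ≤ 0
  · have : fs d m t = 0 := by
      unfold fs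
      rw [max_eq_left ht]; simp
    rw [this, mul_zero]
  · have : fs d s t = 1 := by
      unfold fs
      have h1 : (s : ℝ) + 1 ≤ m := by exact_mod_cast h
      have h2 : 1 ≤ t / d - s := by
        push Not at ht
        linarith
      rw [max_eq_right (by linarith), min_eq_left h2]
    rw [this, one_mul]

lemma fs_sum {d : ℝ} (hd : 0 < d) (N : ℕ) {t : ℝ} (h0 : 0 ≤ t) (h1 : t ≤ N * d) :
    d * ∑ s ∈ Finset.range N, fs d s t = t := by
  have key : ∀ n : ℕ, ∑ s ∈ Finset.range n, fs d s t = min (n : ℝ) (t / d) := by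
    intro n
    have htd : 0 ≤ t / d := by positivity
    induction n with
    | zero => simp [htd]
    | succ n ih =>
      rw [Finset.sum_range_succ, ih]
      unfold fs
      push_cast
      rcases le_total (t / d) n with h | h
      · rw [min_eq_right h, max_eq_left (by linarith), min_eq_right (by norm_num),
          min_eq_right (by linarith)]
        ring
      · rw [min_eq_left h, max_eq_right (by linarith)]
        rcases le_total (t / d) (n + 1) with h2 | h2
        · rw [min_eq_right (by linarith), min_eq_right h2]; ring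
        · rw [min_eq_left (by linarith), min_eq_left h2]
  rw [key, min_eq_right]
  · field_simp
  · rw [div_le_iff₀ hd]; exact h1

noncomputable def kk (c : A) (d : ℝ) (s : ℕ) : A := cfcₙ (fs d s) c

lemma kk_mul (c : A) (d : ℝ) {s m : ℕ} (h : s + 1 ≤ m) : kk c d s * kk c d m = kk c d m := by
  unfold kk
  rw [← cfcₙ_mul (fs d s) (fs d m) c (fs_cont d s).continuousOn (fs_zero d s)
    (fs_cont d m).continuousOn (fs_zero d m)]
  congr 1
  ext t
  exact fs_mul d h t

lemma kk_comm (c : A) (d : ℝ) (s m : ℕ) : kk c d s * kk c d m = kk c d m * kk c d s :=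
  cfcₙ_commute_cfcₙ _ _ _

lemma kk_mul' (c : A) (d : ℝ) {s m : ℕ} (h : s + 1 ≤ m) : kk c d m * kk c d s = kk c d m := by
  rw [kk_comm, kk_mul c d h]

lemma kk_nonneg (c : A) (d : ℝ) (s : ℕ) : 0 ≤ kk c d s :=
  cfcₙ_nonneg fun t _ => fs_nonneg d s t

lemma kk_star (c : A) (d : ℝ) (s : ℕ) : star (kk c d s) = kk c d s :=
  (IsSelfAdjoint.of_nonneg (kk_nonneg c d s)).star_eq

lemma kk_norm (c : A) (d : ℝ) (s : ℕ) : ‖kk c d s‖ ≤ 1 := by
  unfold kk
  refine norm_cfcₙ_le fun t _ => ?_
  rw [Real.norm_of_nonneg (fs_nonneg d s t)]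
  exact fs_le_one d s t

lemma kk_sum {c : A} (hc : 0 ≤ c) {d : ℝ} (hd : 0 < d) {N : ℕ} (hN : ‖c‖ ≤ N * d) :
    (d : ℝ) • ∑ s ∈ Finset.range N, kk c d s = c := by
  have hsa : IsSelfAdjoint c := .of_nonneg hc
  unfold kk
  rw [← cfcₙ_sum (fun s => fs d s) c (Finset.range N) (fun s _ => (fs_cont d s).continuousOn)
    (fun s _ => fs_zero d s)]
  have hcont : ContinuousOn (∑ s ∈ Finset.range N, fs d s) (quasispectrum ℝ c) := by
    apply Continuous.continuousOn
    have : (∑ s ∈ Finset.range N, fs d s) = fun t => ∑ s ∈ Finset.range N, fs d s t := by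
      ext t; simp
    rw [this]
    exact continuous_finsetSum _ fun s _ => fs_cont d s
  rw [← cfcₙ_smul d (∑ s ∈ Finset.range N, fs d s) c hcont (by simp [fs_zero])]
  conv_rhs => rw [← cfcₙ_id ℝ c]
  apply cfcₙ_congr
  intro t ht
  have h0 : 0 ≤ t := quasispectrum_nonneg_of_nonneg c hc t ht
  have h1 : t ≤ ‖c‖ := by
    have := norm_apply_le_norm_cfcₙ (id : ℝ → ℝ) c ht
    rw [cfcₙ_id ℝ c, id, Real.norm_of_nonneg h0] at this
    exact this
  simp only [smul_eq_mul, Finset.sum_apply, id]
  exact fs_sum hd N h0 (h1.trans hN)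

/-- the norm of a sum of pairwise orthogonal elements -/
lemma norm_sum_orth {ι : Type} (S : Finset ι) (u : ι → A) {m : ℝ} (hm : 0 ≤ m)
    (h1 : ∀ i ∈ S, ∀ j ∈ S, i ≠ j → star (u i) * u j = 0)
    (h2 : ∀ i ∈ S, ∀ j ∈ S, i ≠ j → u i * star (u j) = 0)
    (hn : ∀ i ∈ S, ‖u i‖ ≤ m) : ‖∑ i ∈ S, u i‖ ≤ m := by
  classical
  set U := ∑ i ∈ S, u i with hU
  have hP : star U * U = ∑ i ∈ S, star (u i) * u i := by
    rw [hU, star_sum, Finset.sum_mul_sum]
    refine Finset.sum_congr rfl fun i hi => ?_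
    rw [Finset.sum_eq_single_of_mem i hi]
    intro j hj hji
    exact h1 i hi j hj hji.symm
  have hP2 : (star U * U) * (star U * U) = ∑ i ∈ S, star (u i) * (u i * star (u i)) * u i := by
    rw [hP, Finset.sum_mul_sum]
    refine Finset.sum_congr rfl fun i hi => ?_
    rw [Finset.sum_eq_single_of_mem i hi]
    · simp only [mul_assoc]
    · intro j hj hji
      have := h2 i hi j hj hji.symm
      calc star (u i) * u i * (star (u j) * u j) = star (u i) * (u i * star (u j)) * u j := by
            simp only [mul_assoc]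
        _ = 0 := by rw [this]; simp
  have hle : (star U * U) * (star U * U) ≤ (m ^ 2) • (star U * U) := by
    rw [hP2, hP, Finset.smul_sum]
    refine Finset.sum_le_sum fun i hi => ?_
    refine (CStarAlgebra.star_left_conjugate_le_norm_smul (IsSelfAdjoint.mul_star_self (u i))).trans ?_
    refine smul_le_smul_of_nonneg_right ?_ (star_mul_self_nonneg _)
    rw [CStarRing.norm_self_mul_star, ← sq]
    have := hn i hi
    gcongr
  have hPsa : IsSelfAdjoint (star U * U) := IsSelfAdjoint.star_mul_self U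
  have h0 : 0 ≤ (star U * U) * (star U * U) := by
    have : star (star U * U) * (star U * U) = (star U * U) * (star U * U) := by
      rw [hPsa.star_eq]
    rw [← this]
    exact star_mul_self_nonneg _
  have h3 := CStarAlgebra.norm_le_norm_of_nonneg_of_le h0 hle
  have h4 : ‖(star U * U) * (star U * U)‖ = ‖U‖ ^ 4 := by
    have : (star U * U) * (star U * U) = star (star U * U) * (star U * U) := by
      rw [hPsa.star_eq]
    rw [this, CStarRing.norm_star_mul_self, CStarRing.norm_star_mul_self]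
    ring
  rw [h4, norm_smul, CStarRing.norm_star_mul_self, Real.norm_of_nonneg (by positivity)] at h3
  by_contra hc
  push Not at hc
  have hU0 : 0 < ‖U‖ := lt_of_le_of_lt hm hc
  have : m ^ 2 < ‖U‖ ^ 2 := by gcongr
  nlinarith [mul_pos hU0 hU0]

/-! ### the commutator -/

variable (hT : ∀ e x : A, 0 ≤ e → e * x = x → x * e = 0 → x ≠ 0 → ∃ q : A, IsMinProj q ∧ x * q ≠ 0)

include hT in
lemma eq_zero {e x : A} (hx : InJ x) (he : 0 ≤ e) (h1 : e * x = x) (h2 : x * e = 0) : x = 0 := by
  by_contra h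
  obtain ⟨q, hq, hxq⟩ := hT e x he h1 h2 h
  apply hxq
  have := hx q hq q
  rwa [mul_assoc, hq.idem] at this

include hT in
lemma keyI {a : A} (ha : InJ a) (c : A) (d : ℝ) {s m : ℕ} (h : s + 2 ≤ m) :
    kk c d m * a = kk c d m * a * kk c d s := by
  have hx : InJ (kk c d m * a - kk c d m * a * kk c d s) :=
    (ha.mul_left _).sub ((ha.mul_left _).mul_right _)
  have h0 := eq_zero hT hx (kk_nonneg c d (s + 1)) (by
    rw [mul_sub, ← mul_assoc, ← mul_assoc, ← mul_assoc, kk_mul c d (by omega)]) (by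
    rw [sub_mul, mul_assoc _ (kk c d s), kk_mul c d (le_refl _), sub_self])
  exact sub_eq_zero.mp h0

include hT in
lemma keyII {a : A} (ha : InJ a) (c : A) (d : ℝ) {s m : ℕ} (h : s + 2 ≤ m) :
    a * kk c d m = kk c d s * a * kk c d m := by
  have h1 := keyI hT ha.star c d h
  have h2 := congrArg star h1
  simpa only [star_mul, star_star, kk_star, mul_assoc] using h2

/-- the pieces of the commutator -/
noncomputable def uu (a c : A) (d : ℝ) (s : ℕ) : A :=
  a * kk c d s - kk c d s * a * kk c d s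

include hT in
lemma uu_right {a : A} (ha : InJ a) (c : A) (d : ℝ) {s m : ℕ} (h : s + 2 ≤ m) :
    uu a c d s * kk c d m = 0 := by
  unfold uu
  rw [sub_mul, mul_assoc a, kk_mul c d (by omega), mul_assoc (kk c d s * a), kk_mul c d (by omega),
    ← keyII hT ha c d h, sub_self]

lemma uu_right' (a c : A) (d : ℝ) {s m : ℕ} (h : m + 1 ≤ s) :
    uu a c d s * kk c d m = uu a c d s := by
  unfold uu
  rw [sub_mul, mul_assoc a, kk_mul' c d h, mul_assoc (kk c d s * a), kk_mul' c d h]

lemma uu_left (a c : A) (d : ℝ) {s m : ℕ} (h : s + 1 ≤ m) :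
    kk c d m * uu a c d s = 0 := by
  unfold uu
  rw [mul_sub, ← mul_assoc, ← mul_assoc, ← mul_assoc, kk_mul' c d h, sub_self]

include hT in
lemma uu_left' {a : A} (ha : InJ a) (c : A) (d : ℝ) {s m : ℕ} (h : m + 2 ≤ s) :
    kk c d m * uu a c d s = uu a c d s := by
  unfold uu
  rw [mul_sub, ← mul_assoc, ← mul_assoc, ← mul_assoc, kk_mul c d (by omega), ← keyII hT ha c d h]

include hT in
lemma uu_orth1 {a : A} (ha : InJ a) (c : A) (d : ℝ) {s m : ℕ} (h : s + 3 ≤ m) :
    star (uu a c d s) * uu a c d m = 0 := by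
  rw [← uu_left' hT ha c d (s := m) (m := m - 2) (by omega), ← mul_assoc]
  have : star (uu a c d s) * kk c d (m - 2) = 0 := by
    have h1 := uu_left a c d (s := s) (m := m - 2) (by omega)
    have h2 := congrArg star h1
    rwa [star_mul, kk_star, star_zero] at h2
  rw [this, zero_mul]

include hT in
lemma uu_orth2 {a : A} (ha : InJ a) (c : A) (d : ℝ) {s m : ℕ} (h : s + 3 ≤ m) :
    uu a c d s * star (uu a c d m) = 0 := by
  rw [← uu_right' a c d (s := m) (m := m - 1) (by omega), star_mul, kk_star, ← mul_assoc,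
    uu_right hT ha c d (by omega), zero_mul]

lemma uu_norm (a c : A) (d : ℝ) (s : ℕ) : ‖uu a c d s‖ ≤ 2 * ‖a‖ := by
  unfold uu
  have h1 := kk_norm c d s
  have h2 : ‖a * kk c d s‖ ≤ ‖a‖ * 1 := (norm_mul_le _ _).trans (by gcongr)
  have h3 : ‖kk c d s * a * kk c d s‖ ≤ 1 * ‖a‖ * 1 :=
    (norm_mul_le _ _).trans (mul_le_mul ((norm_mul_le _ _).trans (by gcongr)) h1 (norm_nonneg _)
      (by positivity))
  refine (norm_sub_le _ _).trans ?_
  linarith

include hT in
lemma uu_sum {a : A} (ha : InJ a) (c : A) (d : ℝ) (N : ℕ) :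
    ‖∑ s ∈ Finset.range N, uu a c d s‖ ≤ 6 * ‖a‖ := by
  have h0 : ∑ s ∈ Finset.range N, uu a c d s =
      ∑ r ∈ Finset.range 3, ∑ s ∈ (Finset.range N).filter (fun s => s % 3 = r), uu a c d s := by
    rw [Finset.sum_fiberwise_of_maps_to]
    intro s _
    rw [Finset.mem_range]
    exact Nat.mod_lt _ (by norm_num)
  rw [h0]
  have h1 : ∀ r ∈ Finset.range 3,
      ‖∑ s ∈ (Finset.range N).filter (fun s => s % 3 = r), uu a c d s‖ ≤ 2 * ‖a‖ := by
    intro r _
    refine norm_sum_orth _ _ (by positivity) ?_ ?_ fun s _ => uu_norm a c d s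
    · intro i hi j hj hij
      rw [Finset.mem_filter] at hi hj
      rcases lt_or_gt_of_ne hij with h | h
      · exact uu_orth1 hT ha c d (by omega)
      · have := uu_orth1 hT ha c d (s := j) (m := i) (by omega)
        have h2 := congrArg star this
        rwa [star_mul, star_star, star_zero] at h2
    · intro i hi j hj hij
      rw [Finset.mem_filter] at hi hj
      rcases lt_or_gt_of_ne hij with h | h
      · exact uu_orth2 hT ha c d (by omega)
      · have := uu_orth2 hT ha c d (s := j) (m := i) (by omega)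
        have h2 := congrArg star this
        rwa [star_mul, star_star, star_zero] at h2
  refine (norm_sum_le_of_le _ h1).trans ?_
  simp
  linarith

include hT in
lemma comm_nonneg {a : A} (ha : InJ a) {c : A} (hc : 0 ≤ c) : a * c = c * a := by
  rw [← sub_eq_zero, ← norm_le_zero_iff]
  refine le_of_forall_pos_le_add fun ε hε => ?_
  rw [zero_add]
  have hd : 0 < ε / (12 * (‖a‖ + 1)) := by positivity
  set d := ε / (12 * (‖a‖ + 1)) with hdef
  obtain ⟨N, hN⟩ := exists_nat_ge (‖c‖ / d)
  have hN' : ‖c‖ ≤ N * d := (div_le_iff₀ hd).mp hN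
  have hs := kk_sum hc hd hN'
  have h1 : a * c - c * a = d • (∑ s ∈ Finset.range N, uu a c d s -
      star (∑ s ∈ Finset.range N, uu (star a) c d s)) := by
    conv_lhs => rw [← hs]
    rw [mul_smul_comm, smul_mul_assoc, ← smul_sub, Finset.mul_sum, Finset.sum_mul, star_sum,
      ← Finset.sum_sub_distrib, ← Finset.sum_sub_distrib]
    congr 1
    refine Finset.sum_congr rfl fun s _ => ?_
    unfold uu
    simp only [star_sub, star_mul, star_star, kk_star, mul_assoc]
    abel
  rw [h1, norm_smul, Real.norm_of_nonneg hd.le]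
  have h2 := uu_sum hT ha c d N
  have h3 := uu_sum hT ha.star c d N
  rw [norm_star] at h3
  have h4 : ‖∑ s ∈ Finset.range N, uu a c d s - star (∑ s ∈ Finset.range N, uu (star a) c d s)‖ ≤
      12 * ‖a‖ := by
    refine (norm_sub_le _ _).trans ?_
    rw [norm_star]
    linarith
  calc d * _ ≤ d * (12 * ‖a‖) := by gcongr
    _ ≤ d * (12 * (‖a‖ + 1)) := by gcongr; linarith
    _ = ε := by rw [hdef]; field_simp

end

end Ctr

theorem center_of_thin {A : Type u} [NonUnitalCStarAlgebra A] [PartialOrder A] [StarOrderedRing A]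
    (hT : ∀ e x : A, 0 ≤ e → e * x = x → x * e = 0 → x ≠ 0 → ∃ q : A, IsMinProj q ∧ x * q ≠ 0)
    {a : A} (ha : ∀ q : A, IsMinProj q → ∀ x, a * x * q = 0) (b : A) : a * b = b * a := by
  have hb : b ∈ Submodule.span ℂ {a : A | 0 ≤ a} := by
    rw [CStarAlgebra.span_nonneg]; trivial
  induction hb using Submodule.span_induction with
  | mem x hx => exact Ctr.comm_nonneg hT ha hx
  | zero => simp
  | add x y _ _ hx hy => rw [mul_add, add_mul, hx, hy]
  | smul z x _ hx => rw [mul_smul_comm, smul_mul_assoc, hx]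

end Pool.Agent.Work.MP_3f690c_an
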