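import Pool.Agent.Work.MP_3f690c_an.Defs2

/-!
# Characters from central elements (helper81)
-/

open scoped ComplexOrder InnerProductSpace

namespace Pool.Agent.Work.MP_3f690c_an

universe u v

theorem ch_closed {A : Type u} [NonUnitalCStarAlgebra A] :
    IsClosed ((NonUnitalStarSubalgebra.center ℂ A : NonUnitalStarSubalgebra ℂ A) : Set A) := by
  have : ((NonUnitalStarSubalgebra.center ℂ A : NonUnitalStarSubalgebra ℂ A) : Set A) =
      ⋂ z : A, {x | z * x = x * z} := by
    ext x
    rw [SetLike.mem_coe, NonUnitalStarSubalgebra.mem_center_iff, Set.mem_iInter]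
    rfl
  rw [this]
  apply isClosed_iInter
  intro z
  exact isClosed_eq (continuous_const_mul z) (continuous_mul_const z)

/-- characters of commutative algebras -/
theorem ch_comm {N : Type u} [NonUnitalCommCStarAlgebra N] {c : N} (hc : c ≠ 0) :
    ∃ ψ : N →⋆ₙₐ[ℂ] ℂ, ψ c ≠ 0 := by
  have h1 : (WeakDual.gelfandTransform ℂ (Unitization ℂ N)) (c : Unitization ℂ N) ≠ 0 := by
    intro h
    have h2 := (gelfandTransform_isometry (Unitization ℂ N)).injective
    have h3 : (c : Unitization ℂ N) = 0 := h2 (by rw [h, map_zero])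
    apply hc
    exact Unitization.inr_injective h3
  obtain ⟨φ, hφ⟩ : ∃ φ : WeakDual.characterSpace ℂ (Unitization ℂ N),
      φ (c : Unitization ℂ N) ≠ 0 := by
    by_contra hcon
    push Not at hcon
    apply h1
    ext φ
    exact hcon φ
  refine ⟨
    { toFun := fun x => φ (x : Unitization ℂ N)
      map_smul' := ?_
      map_zero' := ?_
      map_add' := ?_
      map_mul' := ?_
      map_star' := ?_ }, hφ⟩
  · intro r x
    change φ ((r • x : N) : Unitization ℂ N) = r • φ (x : Unitization ℂ N)
    rw [Unitization.inr_smul, map_smul]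
  · change φ ((0 : N) : Unitization ℂ N) = 0
    rw [Unitization.inr_zero, map_zero]
  · intro x y
    change φ ((x + y : N) : Unitization ℂ N) = φ (x : Unitization ℂ N) + φ (y : Unitization ℂ N)
    rw [Unitization.inr_add, map_add]
  · intro x y
    change φ ((x * y : N) : Unitization ℂ N) = φ (x : Unitization ℂ N) * φ (y : Unitization ℂ N)
    rw [Unitization.inr_mul, map_mul]
  · intro x
    change φ ((star x : N) : Unitization ℂ N) = star (φ (x : Unitization ℂ N))
    rw [Unitization.inr_star, map_star]

theorem exists_char {A : Type u} [NonUnitalCStarAlgebra A] [PartialOrder A] [StarOrderedRing A]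
    {a : A} (ha0 : a ≠ 0) (hc : ∀ x y z : A, x * a * y * z = z * (x * a * y)) :
    ∃ χ : A →⋆ₙₐ[ℂ] ℂ, χ a ≠ 0 := by
  obtain ⟨b, hb⟩ : ∃ b, b = star a * a := ⟨_, rfl⟩
  obtain ⟨c, hcdef⟩ : ∃ c, c = b * b := ⟨_, rfl⟩
  have hbsa : star b = b := by rw [hb, star_mul, star_star]
  have hcsa : star c = c := by rw [hcdef, star_mul, hbsa]
  have hb0 : b ≠ 0 := by
    intro h
    rw [hb, CStarRing.star_mul_self_eq_zero_iff] at h
    exact ha0 h
  have hc0 : c ≠ 0 := by
    intro h
    have : star b * b = 0 := by rw [hbsa, ← hcdef, h]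
    rw [CStarRing.star_mul_self_eq_zero_iff] at this
    exact hb0 this
  have hcent : ∀ x z, z * (x * c) = (x * c) * z := by
    intro x z
    have h1 := hc (x * star a) (star a * a) z
    have h2 : x * star a * a * (star a * a) = x * c := by
      rw [hcdef, hb]
      simp only [mul_assoc]
    rw [h2] at h1
    exact h1.symm
  have hcent0 : ∀ z, z * c = c * z := by
    intro z
    have h1 := hc (star a) (star a * a) z
    have h2 : star a * a * (star a * a) = c := by
      rw [hcdef, hb]
    rw [h2] at h1
    exact h1.symm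
  haveI hcl := ch_closed (A := A)
  letI : NonUnitalCommCStarAlgebra (NonUnitalStarSubalgebra.center ℂ A) := { }
  have hmem : ∀ x, x * c ∈ NonUnitalStarSubalgebra.center ℂ A := by
    intro x
    rw [NonUnitalStarSubalgebra.mem_center_iff]
    exact hcent x
  have hmem0 : c ∈ NonUnitalStarSubalgebra.center ℂ A := by
    rw [NonUnitalStarSubalgebra.mem_center_iff]
    exact hcent0
  let e : A → NonUnitalStarSubalgebra.center ℂ A := fun x => ⟨x * c, hmem x⟩
  let c' : NonUnitalStarSubalgebra.center ℂ A := ⟨c, hmem0⟩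
  have hc'0 : c' ≠ 0 := fun h => hc0 (congrArg Subtype.val h)
  obtain ⟨ψ, hψ⟩ := ch_comm hc'0
  have he_mul : ∀ x y, e x * e y = e (x * y) * c' := by
    intro x y
    apply Subtype.ext
    change x * c * (y * c) = x * y * c * c
    rw [mul_assoc, ← mul_assoc c y c, ← hcent0 y]
    simp only [mul_assoc]
  have he_star : ∀ x, e (star x) = star (e x) := by
    intro x
    apply Subtype.ext
    change star x * c = star (x * c)
    rw [star_mul, hcsa, hcent0]
  have hc'star : star c' = c' := Subtype.ext hcsa
  refine ⟨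
    { toFun := fun x => ψ (e x) / ψ c'
      map_smul' := ?_
      map_zero' := ?_
      map_add' := ?_
      map_mul' := ?_
      map_star' := ?_ }, ?_⟩
  · intro r x
    have h1 : e (r • x) = r • e x := Subtype.ext (smul_mul_assoc r x c)
    change ψ (e (r • x)) / ψ c' = r • (ψ (e x) / ψ c')
    rw [h1, map_smul, smul_eq_mul, smul_eq_mul, mul_div_assoc]
  · have h1 : e 0 = 0 := Subtype.ext (zero_mul c)
    change ψ (e 0) / ψ c' = 0
    rw [h1, map_zero, zero_div]
  · intro x y
    have h1 : e (x + y) = e x + e y := Subtype.ext (add_mul x y c)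
    change ψ (e (x + y)) / ψ c' = ψ (e x) / ψ c' + ψ (e y) / ψ c'
    rw [h1, map_add, add_div]
  · intro x y
    change ψ (e (x * y)) / ψ c' = ψ (e x) / ψ c' * (ψ (e y) / ψ c')
    have h1 := congrArg ψ (he_mul x y)
    rw [map_mul, map_mul] at h1
    rw [div_mul_div_comm, h1]
    field_simp
  · intro x
    change ψ (e (star x)) / ψ c' = star (ψ (e x) / ψ c')
    have h1 : star (ψ c') = ψ c' := by rw [← map_star, hc'star]
    rw [he_star, map_star, star_div₀, h1]
  · change ψ (e a) / ψ c' ≠ 0
    rw [div_ne_zero_iff]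
    refine ⟨?_, hψ⟩
    intro h0
    have h1 : star (e a) * e a = e b * c' := by
      rw [← he_star, he_mul, hb]
    have h2 : ψ (e b) * ψ c' = 0 := by
      rw [← map_mul, ← h1, map_mul, h0, mul_zero]
    have h3 : ψ (e b) = 0 := by
      rcases mul_eq_zero.mp h2 with h | h
      · exact h
      · exact absurd h hψ
    have h4 : e b * e b = c' * c' * c' := by
      rw [he_mul]
      apply Subtype.ext
      change b * b * c * c = c * c * c
      rw [← hcdef]
    have h5 : ψ c' * ψ c' * ψ c' = 0 := by
      rw [← map_mul, ← map_mul, ← h4, map_mul, h3, mul_zero]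
    rcases mul_eq_zero.mp h5 with h | h
    · rcases mul_eq_zero.mp h with h | h
      · exact hψ h
      · exact hψ h
    · exact hψ h

end Pool.Agent.Work.MP_3f690c_an
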