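import Pool.Agent.Work.MP_3f690c_an.Defs2

/-!
# Self-adjoint operators: scalar plus compact, and a grid of spectral gaps
-/

open scoped ComplexOrder InnerProductSpace

namespace Pool.Agent.Work.MP_3f690c_an

universe u v

section
variable {H : Type u} [NormedAddCommGroup H] [InnerProductSpace ℂ H] [CompleteSpace H]

theorem isCompactOperator_of_finrange (T : H →L[ℂ] H)
    (h : FiniteDimensional ℂ (LinearMap.range T.toLinearMap)) : IsCompactOperator T := by
  let V : Submodule ℂ H := LinearMap.range T.toLinearMap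
  have : FiniteDimensional ℂ V := h
  have : ProperSpace V := FiniteDimensional.proper ℂ V
  let S : H →L[ℂ] V := T.codRestrict V (fun x => ⟨x, rfl⟩)
  have h1 : IsCompactOperator S :=
    isCompactOperator_of_locallyCompactSpace_dom S
  have h2 := h1.clm_comp V.subtypeL
  exact h2

theorem finrange_mul_left (S T : H →L[ℂ] H)
    (h : FiniteDimensional ℂ (LinearMap.range S.toLinearMap)) :
    FiniteDimensional ℂ (LinearMap.range (S * T).toLinearMap) := by
  have := h
  have hle : LinearMap.range (S * T).toLinearMap ≤ LinearMap.range S.toLinearMap := by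
    rintro _ ⟨x, rfl⟩
    exact ⟨T x, rfl⟩
  exact Submodule.finiteDimensional_of_le hle

theorem spec_le (B : H →L[ℂ] H) {s : ℝ} (hs : s ∈ spectrum ℝ B) : |s| ≤ ‖B‖ := by
  have h1 := spectrum.norm_le_norm_mul_of_mem hs
  rcases subsingleton_or_nontrivial H with h | h
  · exfalso
    have : Subsingleton (H →L[ℂ] H) := ⟨fun a b => by ext x; exact Subsingleton.elim _ _⟩
    rw [spectrum.of_subsingleton] at hs
    exact hs
  · haveI : NormOneClass (H →L[ℂ] H) := inferInstance
    exact spectrum.norm_le_norm_of_mem hs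

theorem exists_scalar_compact (B : H →L[ℂ] H) (hB : IsSelfAdjoint B)
    (h : ∀ α β : ℝ, α < β →
      FiniteDimensional ℂ (LinearMap.range (cfc (fun s : ℝ => max (s - β) 0) B).toLinearMap) ∨
      FiniteDimensional ℂ (LinearMap.range (cfc (fun s : ℝ => max (α - s) 0) B).toLinearMap)) :
    ∃ z : ℂ, IsCompactOperator (B - z • (1 : H →L[ℂ] H)) := by
  set E : Set ℝ := {β | FiniteDimensional ℂ
    (LinearMap.range (cfc (fun s : ℝ => max (s - β) 0) B).toLinearMap)} with hE
  have hmem : ∀ β, β ∈ E ↔ FiniteDimensional ℂ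
    (LinearMap.range (cfc (fun s : ℝ => max (s - β) 0) B).toLinearMap) := fun β => Iff.rfl
  -- nonempty
  have hne : ‖B‖ ∈ E := by
    rw [hmem]
    have h0 : cfc (fun s : ℝ => max (s - ‖B‖) 0) B = 0 := by
      rw [← cfc_zero ℝ B]
      apply cfc_congr
      intro s hs
      have := (abs_le.1 (spec_le B hs)).2
      simp only [Pi.zero_apply]
      exact max_eq_right (by linarith)
    rw [h0]
    have : LinearMap.range (0 : H →L[ℂ] H).toLinearMap = ⊥ := by
      rw [ContinuousLinearMap.toLinearMap_zero, LinearMap.range_zero]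
    rw [this]
    infer_instance
  -- up-set
  have hup : ∀ β β', β ≤ β' → β ∈ E → β' ∈ E := by
    intro β β' hle hβ
    rcases hle.eq_or_lt with rfl | hlt
    · exact hβ
    rw [hmem] at hβ ⊢
    have h1 : cfc (fun s : ℝ => max (s - β') 0) B =
        cfc (fun s : ℝ => max (s - β) 0) B *
          cfc (fun s : ℝ => max (s - β') 0 / max (s - β) (β' - β)) B := by
      have hc : ContinuousOn (fun s : ℝ => max (s - β') 0 / max (s - β) (β' - β))
          (spectrum ℝ B) := by
        refine ContinuousOn.div (by fun_prop) (by fun_prop) fun s _ => ?_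
        have := le_max_right (s - β) (β' - β)
        linarith
      rw [← cfc_mul (fun s : ℝ => max (s - β) 0) _ B (by fun_prop) hc]
      apply cfc_congr
      intro s _
      simp only
      rcases le_total s β' with h2 | h2
      · rw [max_eq_right (by linarith : s - β' ≤ 0)]; simp
      · rw [max_eq_left (by linarith : 0 ≤ s - β'), max_eq_left (by linarith : 0 ≤ s - β),
          max_eq_left (by linarith : β' - β ≤ s - β)]
        have : s - β ≠ 0 := by linarith
        field_simp
    rw [h1]
    exact finrange_mul_left _ _ hβ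
  by_cases hbdd : BddBelow E
  · -- the essential point
    set z := sInf E with hz
    refine ⟨(z : ℂ), ?_⟩
    have hcl : (B - (z : ℂ) • (1 : H →L[ℂ] H)) ∈
        closure {f : H →L[ℂ] H | IsCompactOperator f} := by
      rw [Metric.mem_closure_iff]
      intro ε hε
      set δ := ε / 4 with hδ
      have hδ0 : 0 < δ := by positivity
      have h1 : z + δ ∈ E := by
        obtain ⟨β, hβ, hβz⟩ := exists_lt_of_csInf_lt ⟨_, hne⟩ (by linarith : sInf E < z + δ)
        exact hup β _ hβz.le hβ
      have h2 : z - δ ∉ E := fun h3 => by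
        have := csInf_le hbdd h3
        linarith
      have h3 : FiniteDimensional ℂ
          (LinearMap.range (cfc (fun s : ℝ => max (z - 2 * δ - s) 0) B).toLinearMap) := by
        rcases h (z - 2 * δ) (z - δ) (by linarith) with h4 | h4
        · exact absurd h4 h2
        · exact h4
      refine ⟨cfc (fun s : ℝ => max (s - (z + δ)) 0) B - cfc (fun s : ℝ => max (z - 2 * δ - s) 0) B,
        (isCompactOperator_of_finrange _ h1).sub (isCompactOperator_of_finrange _ h3), ?_⟩
      rw [dist_eq_norm]
      have e1 : B - (z : ℂ) • (1 : H →L[ℂ] H) -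
          (cfc (fun s : ℝ => max (s - (z + δ)) 0) B - cfc (fun s : ℝ => max (z - 2 * δ - s) 0) B) =
          cfc (fun s : ℝ => s - z - (max (s - (z + δ)) 0 - max (z - 2 * δ - s) 0)) B := by
        rw [cfc_sub (fun s : ℝ => s - z) (fun s : ℝ => max (s - (z + δ)) 0 - max (z - 2 * δ - s) 0) B
          (by fun_prop) (by fun_prop),
          cfc_sub (fun s : ℝ => max (s - (z + δ)) 0) (fun s : ℝ => max (z - 2 * δ - s) 0) B
          (by fun_prop) (by fun_prop), cfc_sub (fun s : ℝ => s) (fun _ : ℝ => z) B
          (by fun_prop) (by fun_prop), cfc_id' ℝ B, cfc_const z B, Algebra.algebraMap_eq_smul_one,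
          ← Complex.coe_smul]
      rw [e1]
      refine lt_of_le_of_lt (norm_cfc_le (c := 2 * δ) (by positivity) fun s _ => ?_)
        (by rw [hδ]; linarith)
      rw [Real.norm_eq_abs, abs_le]
      rcases le_total s (z + δ) with h4 | h4
      · rw [max_eq_right (by linarith : s - (z + δ) ≤ 0)]
        rcases le_total (z - 2 * δ) s with h5 | h5
        · rw [max_eq_right (by linarith : z - 2 * δ - s ≤ 0)]
          constructor <;> linarith
        · rw [max_eq_left (by linarith : 0 ≤ z - 2 * δ - s)]
          constructor <;> linarith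
      · rw [max_eq_left (by linarith : 0 ≤ s - (z + δ)),
          max_eq_right (by linarith : z - 2 * δ - s ≤ 0)]
        constructor <;> linarith
    have hclosed : IsClosed {f : H →L[ℂ] H | IsCompactOperator f} :=
      isClosed_setOfPred_isCompactOperator
    rw [hclosed.closure_eq] at hcl
    exact hcl
  · -- finite dimensional space
    rw [not_bddBelow_iff] at hbdd
    obtain ⟨β, hβ, hβlt⟩ := hbdd (-‖B‖ - 1)
    rw [hmem] at hβ
    have h1 : (1 : H →L[ℂ] H) = cfc (fun s : ℝ => max (s - β) 0) B *
        cfc (fun s : ℝ => 1 / max (s - β) 1) B := by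
      have hc : ContinuousOn (fun s : ℝ => 1 / max (s - β) 1) (spectrum ℝ B) := by
        refine ContinuousOn.div (by fun_prop) (by fun_prop) fun s _ => ?_
        have := le_max_right (s - β) 1
        linarith
      rw [← cfc_mul (fun s : ℝ => max (s - β) 0) _ B (by fun_prop) hc, ← cfc_one ℝ B]
      apply cfc_congr
      intro s hs
      have h2 := (abs_le.1 (spec_le B hs)).1
      simp only [Pi.one_apply]
      rw [max_eq_left (by linarith : 0 ≤ s - β), max_eq_left (by linarith : 1 ≤ s - β)]
      have : s - β ≠ 0 := by linarith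
      field_simp
    have h2 := finrange_mul_left _ (cfc (fun s : ℝ => 1 / max (s - β) 1) B) hβ
    rw [← h1] at h2
    refine ⟨0, isCompactOperator_of_finrange _ ?_⟩
    rw [zero_smul, sub_zero]
    have h3 := isCompactOperator_of_finrange _ h2
    have h4 : B = (1 : H →L[ℂ] H) * B := by rw [one_mul]
    rw [h4]
    exact finrange_mul_left _ _ h2
end

theorem exists_grid (M ε : ℝ) (hε : 0 < ε) : ∃ G : Finset (ℝ × ℝ), (∀ p ∈ G, p.1 < p.2) ∧
    ∀ (H : Type u) [NormedAddCommGroup H] [InnerProductSpace ℂ H] [CompleteSpace H]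
      (B : H →L[ℂ] H), IsSelfAdjoint B → ‖B‖ ≤ M → (∀ z : ℂ, ε ≤ ‖B - z • (1 : H →L[ℂ] H)‖) →
      ∃ p ∈ G, cfc (fun s : ℝ => max (s - p.2) 0) B ≠ 0 ∧
        cfc (fun s : ℝ => max (p.1 - s) 0) B ≠ 0 := by
  obtain ⟨e, he0, hee⟩ : ∃ e : ℝ, 0 < e ∧ 2 * e = ε := ⟨ε / 2, by positivity, by ring⟩
  refine ⟨(Finset.Icc (⌊-M / e⌋ + 1) (⌊M / e⌋ + 1)).image
    (fun j : ℤ => ((j : ℝ) * e, ((j : ℝ) + 1) * e)), ?_, ?_⟩
  · intro p hp
    rw [Finset.mem_image] at hp
    obtain ⟨j, -, rfl⟩ := hp
    simp only
    nlinarith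
  · intro H _ _ _ B hB hM hdist
    have hnt : Nontrivial (H →L[ℂ] H) := by
      by_contra hcon
      rw [not_nontrivial_iff_subsingleton] at hcon
      have h1 := hdist 0
      have h2 : B - (0 : ℂ) • (1 : H →L[ℂ] H) = 0 := Subsingleton.elim _ _
      rw [h2, norm_zero] at h1
      linarith
    have hspne : (spectrum ℝ B).Nonempty :=
      ContinuousFunctionalCalculus.spectrum_nonempty (R := ℝ) B hB
    have hspc : IsCompact (spectrum ℝ B) := ContinuousFunctionalCalculus.isCompact_spectrum B
    obtain ⟨m, hm, hmin⟩ := hspc.exists_isMinOn hspne continuousOn_id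
    obtain ⟨m', hm', hmax⟩ := hspc.exists_isMaxOn hspne continuousOn_id
    have hmin' : ∀ s ∈ spectrum ℝ B, m ≤ s := fun s hs => hmin hs
    have hmax' : ∀ s ∈ spectrum ℝ B, s ≤ m' := fun s hs => hmax hs
    have hgap : 2 * ε ≤ m' - m := by
      have h1 := hdist (((m + m') / 2 : ℝ) : ℂ)
      have h2 : B - (((m + m') / 2 : ℝ) : ℂ) • (1 : H →L[ℂ] H) =
          cfc (fun s : ℝ => s - (m + m') / 2) B := by
        rw [cfc_sub (fun s : ℝ => s) (fun _ : ℝ => (m + m') / 2) B
          (by fun_prop) (by fun_prop), cfc_id' ℝ B, cfc_const _ B,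
          Algebra.algebraMap_eq_smul_one, ← Complex.coe_smul]
      rw [h2] at h1
      have h3 : ‖cfc (fun s : ℝ => s - (m + m') / 2) B‖ ≤ (m' - m) / 2 := by
        refine norm_cfc_le ?_ fun s hs => ?_
        · have := hmin' m' hm'
          linarith
        · rw [Real.norm_eq_abs, abs_le]
          have := hmin' s hs
          have := hmax' s hs
          constructor <;> linarith
      linarith
    have hmM : |m| ≤ M := (spec_le B hm).trans hM
    obtain ⟨hmM1, hmM2⟩ := abs_le.1 hmM
    set j : ℤ := ⌊m / e⌋ + 1 with hj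
    have hj1 : m < j * e := by
      have := Int.lt_floor_add_one (m / e)
      rw [div_lt_iff₀ he0] at this
      rw [hj]; push_cast; exact this
    have hj2 : ((j : ℝ) + 1) * e < m' := by
      have := Int.floor_le (m / e)
      rw [le_div_iff₀ he0] at this
      rw [hj]; push_cast
      nlinarith
    refine ⟨((j : ℝ) * e, ((j : ℝ) + 1) * e), ?_, ?_, ?_⟩
    · rw [Finset.mem_image]
      refine ⟨j, ?_, rfl⟩
      rw [Finset.mem_Icc]
      constructor
      · rw [hj]
        have : ⌊-M / e⌋ ≤ ⌊m / e⌋ := Int.floor_le_floor (by gcongr)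
        omega
      · rw [hj]
        have : ⌊m / e⌋ ≤ ⌊M / e⌋ := Int.floor_le_floor (by gcongr)
        omega
    · intro h0
      have h1 := norm_apply_le_norm_cfc (fun s : ℝ => max (s - ((j : ℝ) + 1) * e) 0) B hm'
        (by fun_prop) hB
      simp only at h0
      rw [h0, norm_zero, Real.norm_eq_abs, max_eq_left (by linarith), abs_of_pos (by linarith)] at h1
      linarith
    · intro h0
      have h1 := norm_apply_le_norm_cfc (fun s : ℝ => max ((j : ℝ) * e - s) 0) B hm
        (by fun_prop) hB
      simp only at h0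
      rw [h0, norm_zero, Real.norm_eq_abs, max_eq_left (by linarith), abs_of_pos (by linarith)] at h1
      linarith

end Pool.Agent.Work.MP_3f690c_an
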