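import Pool.Agent.Work.MP_3f690c_an.Defs2

/-!
# The representation at a minimal projection (helper81)
-/

open scoped ComplexOrder InnerProductSpace

namespace Pool.Agent.Work.MP_3f690c_an

universe u v

section
variable {A : Type u} [NonUnitalCStarAlgebra A]

/-- The left ideal `A q`, as a subspace. -/
def mrH (q : A) : Submodule ℂ A where
  carrier := {x | x * q = x}
  add_mem' := by
    intro a b ha hb
    rw [Set.mem_setOf_eq] at ha hb ⊢
    rw [add_mul, ha, hb]
  zero_mem' := zero_mul q
  smul_mem' := by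
    intro c x hx
    rw [Set.mem_setOf_eq] at hx ⊢
    rw [smul_mul_assoc, hx]

theorem mem_mrH {q x : A} : x ∈ mrH q ↔ x * q = x := Iff.rfl

theorem mrH_closed (q : A) : IsClosed (mrH q : Set A) :=
  isClosed_eq (continuous_mul_const q) continuous_id

/-- the scalar `z` with `q a q = z q` -/
noncomputable def mrz {q : A} (hq : IsMinProj q) (a : A) : ℂ := (hq.scalar a).choose

theorem mrz_spec {q : A} (hq : IsMinProj q) (a : A) : q * a * q = mrz hq a • q :=
  (hq.scalar a).choose_spec

theorem mr_inj {q : A} (hq : IsMinProj q) {z w : ℂ} (h : z • q = w • q) : z = w :=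
  smul_left_injective ℂ hq.ne h

theorem mrz_eq {q : A} (hq : IsMinProj q) {a : A} {z : ℂ} (h : q * a * q = z • q) :
    mrz hq a = z :=
  mr_inj hq ((mrz_spec hq a).symm.trans h)

theorem mr_star {q : A} (hq : IsMinProj q) {x : A} (hx : x * q = x) : q * star x = star x := by
  have := congrArg star hx
  rwa [star_mul, hq.sa] at this

theorem mrz_inner {q : A} (hq : IsMinProj q) {x y : A} (hx : x * q = x) (hy : y * q = y) :
    star x * y = mrz hq (star x * y) • q := by
  rw [← mrz_spec hq, ← mul_assoc, mr_star hq hx, mul_assoc, hy]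

theorem mrz_inner' {q : A} (hq : IsMinProj q) {x y : A} (hx : x * q = x) (hy : y * q = y) {z : ℂ}
    (h : star x * y = z • q) : mrz hq (star x * y) = z := by
  apply mr_inj hq
  rw [← mrz_inner hq hx hy, h]

theorem mr_norm_q {q : A} (hq : IsMinProj q) : ‖q‖ = 1 := by
  have h1 : ‖star q * q‖ = ‖q‖ * ‖q‖ := CStarRing.norm_star_mul_self
  rw [hq.sa, hq.idem] at h1
  have h2 : ‖q‖ ≠ 0 := norm_ne_zero_iff.mpr hq.ne
  have h3 : ‖q‖ * 1 = ‖q‖ * ‖q‖ := by rw [mul_one]; exact h1
  exact (mul_left_cancel₀ h2 h3).symm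

theorem mrz_self {q : A} (hq : IsMinProj q) {x : A} (hx : x * q = x) :
    mrz hq (star x * x) = ((‖x‖ ^ 2 : ℝ) : ℂ) := by
  letI := CStarAlgebra.spectralOrder A
  haveI := CStarAlgebra.spectralOrderedRing A
  set z := mrz hq (star x * x) with hz
  have h1 : star x * x = z • q := mrz_inner hq hx hx
  have hreal : star z = z := by
    have h2 := congrArg star h1
    rw [star_mul, star_star, star_smul, hq.sa, h1] at h2
    exact (mr_inj hq h2).symm
  obtain ⟨r, hr⟩ : ∃ r : ℝ, z = r := ⟨z.re, (Complex.conj_eq_iff_re.mp hreal).symm⟩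
  have hr0 : 0 ≤ r := by
    by_contra hneg
    push Not at hneg
    have h3 : 0 ≤ star x * x := star_mul_self_nonneg x
    have h4 : 0 ≤ q := by
      have := star_mul_self_nonneg q
      rwa [hq.sa, hq.idem] at this
    have h5 : 0 ≤ (-r) • q := smul_nonneg (by linarith) h4
    have h6 : (z • q : A) = r • q := by
      rw [hr]
      exact Complex.coe_smul r q
    rw [h1, h6] at h3
    have h7 : r • q ≤ 0 := by
      rw [neg_smul] at h5
      exact neg_nonneg.mp h5
    have h8 : r • q = 0 := le_antisymm h7 h3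
    rcases smul_eq_zero.mp h8 with h | h
    · exact absurd h hneg.ne
    · exact hq.ne h
  have h9 : ‖star x * x‖ = ‖x‖ * ‖x‖ := CStarRing.norm_star_mul_self
  rw [h1, norm_smul, mr_norm_q hq, mul_one, hr, Complex.norm_real, Real.norm_eq_abs,
    abs_of_nonneg hr0] at h9
  rw [hr, h9]
  push_cast
  ring

/-- the inner product on `A q` -/
@[reducible] noncomputable def mrIPS {q : A} (hq : IsMinProj q) :
    InnerProductSpace ℂ (mrH q) where
  inner x y := mrz hq (star (x : A) * y)
  norm_sq_eq_re_inner x := by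
    have h := mrz_self hq x.2
    change ‖(x : A)‖ ^ 2 = RCLike.re (mrz hq (star (x : A) * x))
    rw [h]
    simp [← Complex.ofReal_pow]
  conj_inner_symm x y := by
    change star (mrz hq (star (y : A) * x)) = mrz hq (star (x : A) * y)
    symm
    apply mrz_inner' hq x.2 y.2
    have h1 := congrArg star (mrz_inner hq y.2 x.2)
    rw [star_mul, star_star, star_smul, hq.sa] at h1
    exact h1
  add_left x y z := by
    change mrz hq (star ((x : A) + y) * z) = mrz hq (star (x : A) * z) + mrz hq (star (y : A) * z)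
    apply mrz_inner' hq (by rw [add_mul, x.2, y.2]) z.2
    rw [star_add, add_mul, add_smul, ← mrz_inner hq x.2 z.2, ← mrz_inner hq y.2 z.2]
  smul_left x y r := by
    change mrz hq (star (r • (x : A)) * y) = star r * mrz hq (star (x : A) * y)
    apply mrz_inner' hq (by rw [smul_mul_assoc, x.2]) y.2
    rw [star_smul, smul_mul_assoc, mul_smul, ← mrz_inner hq x.2 y.2]

/-- left multiplication on `A q` -/
noncomputable def mrL (q : A) (a : A) : mrH q →L[ℂ] mrH q :=
  LinearMap.mkContinuous
    { toFun := fun x => ⟨a * x, by rw [mem_mrH, mul_assoc, x.2]⟩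
      map_add' := by
        intro x y
        ext
        exact mul_add a (x : A) y
      map_smul' := by
        intro c x
        ext
        exact mul_smul_comm c a (x : A) } ‖a‖ (by
      intro x
      exact norm_mul_le a (x : A))

theorem mrL_apply (q a : A) (x : mrH q) : ((mrL q a x : mrH q) : A) = a * x := rfl

theorem exists_rep {q : A} (hq : IsMinProj q) :
    ∃ (H : Type u) (_ : NormedAddCommGroup H) (_ : InnerProductSpace ℂ H) (_ : CompleteSpace H)
      (π : A →⋆ₙₐ[ℂ] (H →L[ℂ] H)),
      (∀ a, π a = 0 ↔ ∀ x, a * x * q = 0) ∧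
      (∀ ξ η : H, ∃ a, ∀ ζ : H, π a ζ = ⟪η, ζ⟫_ℂ • ξ) := by
  letI := mrIPS hq
  haveI : CompleteSpace (mrH q) := (mrH_closed q).completeSpace_coe
  let π : A →⋆ₙₐ[ℂ] (mrH q →L[ℂ] mrH q) :=
    { toFun := mrL q
      map_smul' := by
        intro c a
        ext x
        exact smul_mul_assoc c a (x : A)
      map_zero' := by
        ext x
        exact zero_mul (x : A)
      map_add' := by
        intro a b
        ext x
        exact add_mul a b (x : A)
      map_mul' := by
        intro a b
        ext x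
        exact mul_assoc a b (x : A)
      map_star' := by
        intro a
        rw [ContinuousLinearMap.star_eq_adjoint, ContinuousLinearMap.eq_adjoint_iff]
        intro x y
        change mrz hq (star (star a * (x : A)) * y) = mrz hq (star (x : A) * (a * y))
        rw [star_mul, star_star, mul_assoc] }
  refine ⟨mrH q, inferInstance, mrIPS hq, inferInstance, π, ?_, ?_⟩
  · intro a
    constructor
    · intro h x
      have h1 : (x * q) ∈ mrH q := by rw [mem_mrH, mul_assoc, hq.idem]
      have h2 : π a ⟨x * q, h1⟩ = 0 := by rw [h]; rfl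
      have h3 := congrArg Subtype.val h2
      rw [mul_assoc]
      exact h3
    · intro h
      ext x
      change a * (x : A) = 0
      have := h x
      rwa [mul_assoc, x.2] at this
  · intro ξ η
    refine ⟨(ξ : A) * star (η : A), ?_⟩
    intro ζ
    ext
    change (ξ : A) * star (η : A) * ζ = mrz hq (star (η : A) * ζ) • (ξ : A)
    rw [mul_assoc, mrz_inner hq η.2 ζ.2, mul_smul_comm, ξ.2, ← mrz_inner hq η.2 ζ.2]

theorem finiteRank_of_minproj {H : Type v} [NormedAddCommGroup H] [InnerProductSpace ℂ H]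
    [CompleteSpace H] (π : A →⋆ₙₐ[ℂ] (H →L[ℂ] H))
    (hr : ∀ ξ η : H, ∃ a, ∀ ζ : H, π a ζ = ⟪η, ζ⟫_ℂ • ξ) {p : A} (hp : IsMinProj p) :
    FiniteDimensional ℂ (LinearMap.range (π p).toLinearMap) := by
  by_cases h0 : ∀ ξ, π p ξ = 0
  · have : LinearMap.range (π p).toLinearMap = ⊥ := by
      rw [LinearMap.range_eq_bot]
      ext ξ
      exact h0 ξ
    rw [this]
    infer_instance
  · push Not at h0
    obtain ⟨ξ₀, hξ₀⟩ := h0
    set ξ := π p ξ₀ with hξ
    have hidem : ∀ ζ, π p (π p ζ) = π p ζ := by
      intro ζ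
      have h1 : π (p * p) = π p * π p := map_mul π p p
      rw [hp.idem] at h1
      conv_rhs => rw [h1]
      rfl
    have hfix : π p ξ = ξ := hidem ξ₀
    obtain ⟨a, ha⟩ := hr ξ ξ
    obtain ⟨z, hz⟩ := hp.scalar a
    have key : ∀ ζ, ⟪ξ, π p ζ⟫_ℂ • ξ = z • π p ζ := by
      intro ζ
      have h1 : π (p * a * p) ζ = (z • π p) ζ := by
        rw [hz, map_smul]
      have h2 : π (p * a * p) ζ = π p (π a (π p ζ)) := by
        rw [map_mul, map_mul]
        rfl
      rw [h2, ha, map_smul, hfix] at h1
      exact h1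
    have hz0 : z ≠ 0 := by
      intro h
      have h1 := key ξ
      rw [hfix, h, zero_smul, smul_eq_zero] at h1
      rcases h1 with h1 | h1
      · exact hξ₀ (inner_self_eq_zero.mp h1)
      · exact hξ₀ h1
    have hle : LinearMap.range (π p).toLinearMap ≤ Submodule.span ℂ {ξ} := by
      rintro _ ⟨ζ, rfl⟩
      rw [Submodule.mem_span_singleton]
      refine ⟨z⁻¹ * ⟪ξ, π p ζ⟫_ℂ, ?_⟩
      rw [mul_smul, key, smul_smul, inv_mul_cancel₀ hz0, one_smul]
      rfl
    exact Submodule.finiteDimensional_of_le hle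

end

end Pool.Agent.Work.MP_3f690c_an
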