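import Pool.Agent.Work.MP_3f690c_an.Defs

/-!
# Representations and the near scalar property in short form
-/

open scoped ComplexOrder InnerProductSpace

namespace Pool.Agent.Work.MP_3f690c_an

universe u v

/-- A representation of the C*-algebra `A` on a complex Hilbert space. -/
structure RepData (A : Type u) [NonUnitalCStarAlgebra A] where
  /-- the Hilbert space -/
  H : Type u
  [inst1 : NormedAddCommGroup H]
  [inst2 : InnerProductSpace ℂ H]
  [inst3 : CompleteSpace H]
  /-- the *-homomorphism into the bounded operators -/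
  π : A →⋆ₙₐ[ℂ] (H →L[ℂ] H)

attribute [instance] RepData.inst1 RepData.inst2 RepData.inst3

/-- The operator `T - z`. -/
noncomputable def shift {H : Type u} [NormedAddCommGroup H] [InnerProductSpace ℂ H] (T : H →L[ℂ] H) (z : ℂ) :
    H →L[ℂ] H := T - z • (1 : H →L[ℂ] H)

/-- The operator by which `a` acts. -/
noncomputable def RepData.op {A : Type u} [NonUnitalCStarAlgebra A] (D : RepData A) (a : A) : D.H →L[ℂ] D.H :=
  D.π a

/-- `a` acts as a scalar plus a compact operator. -/
def RepData.ScalarPlusCompact {A : Type u} [NonUnitalCStarAlgebra A] (D : RepData A) (a : A) :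
    Prop := ∃ z : ℂ, IsCompactOperator (shift (D.op a) z)

/-- The operator of `a` is at distance at least `ε` from every scalar. -/
def RepData.Far {A : Type u} [NonUnitalCStarAlgebra A] (D : RepData A) (a : A) (ε : ℝ) :
    Prop := ∀ z : ℂ, ε ≤ ‖shift (D.op a) z‖

/-- `A` has a jointly faithful family of representations with values in scalars plus compact
operators such that every element is, up to any `ε`, scalar in all but finitely many of them. -/
def HasNearScalarFamily (A : Type u) [NonUnitalCStarAlgebra A] : Prop :=
  ∃ (ι : Type u) (D : ι → RepData A), (∀ a, (∀ i, (D i).op a = 0) → a = 0) ∧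
    (∀ a i, (D i).ScalarPlusCompact a) ∧ ∀ a, ∀ ε > 0, {i | (D i).Far a ε}.Finite

theorem hasNearScalarFamily_iff (A : Type u) [NonUnitalCStarAlgebra A] :
    HasNearScalarFamily A ↔ NearScalar A := by
  constructor
  · rintro ⟨ι, D, h1, h2, h3⟩
    exact ⟨ι, fun i => (D i).H, fun i => (D i).inst1, fun i => (D i).inst2,
      fun i => (D i).inst3, fun i => (D i).π, h1, h2, h3⟩
  · rintro ⟨ι, H, i1, i2, i3, π, h1, h2, h3⟩
    exact ⟨ι, fun i => ⟨H i, π i⟩, h1, h2, h3⟩

end Pool.Agent.Work.MP_3f690c_an
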