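import Pool.Agent.Work.MP_3f690c_an.Families
import Pool.Agent.Work.MP_3f690c_an.MinRep
import Pool.Agent.Work.MP_3f690c_an.Center
import Pool.Agent.Work.MP_3f690c_an.Char
import Pool.Agent.Work.MP_3f690c_an.EssPoint
import Pool.Agent.Work.MP_3f690c_an.RepDef

/-!
# Thin C*-algebras are near scalar
-/

open scoped ComplexOrder InnerProductSpace
open Filter Topology

namespace Pool.Agent.Work.MP_3f690c_an

universe u v

section
variable {H : Type u} [NormedAddCommGroup H] [InnerProductSpace ℂ H]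

/-- Finite rank. -/
def FR (T : H →L[ℂ] H) : Prop := FiniteDimensional ℂ (LinearMap.range T.toLinearMap)

theorem FR.mul_right {T : H →L[ℂ] H} (hT : FR T) (S : H →L[ℂ] H) : FR (T * S) := by
  unfold FR at *
  refine Submodule.finiteDimensional_of_le (S₂ := LinearMap.range T.toLinearMap) ?_
  rintro _ ⟨x, rfl⟩
  exact ⟨S x, rfl⟩

theorem FR.mul_left {T : H →L[ℂ] H} (hT : FR T) (S : H →L[ℂ] H) : FR (S * T) := by
  unfold FR at *
  have h1 : LinearMap.range (S * T).toLinearMap =
      (LinearMap.range T.toLinearMap).map S.toLinearMap := by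
    ext y
    simp only [LinearMap.mem_range, Submodule.mem_map]
    constructor
    · rintro ⟨x, rfl⟩
      exact ⟨T x, ⟨x, rfl⟩, rfl⟩
    · rintro ⟨_, ⟨x, rfl⟩, rfl⟩
      exact ⟨x, rfl⟩
  rw [h1]
  infer_instance

theorem FR.add {T S : H →L[ℂ] H} (hT : FR T) (hS : FR S) : FR (T + S) := by
  unfold FR at *
  refine Submodule.finiteDimensional_of_le
    (S₂ := LinearMap.range T.toLinearMap ⊔ LinearMap.range S.toLinearMap) ?_
  rintro _ ⟨x, rfl⟩
  exact Submodule.add_mem_sup ⟨x, rfl⟩ ⟨x, rfl⟩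

theorem FR.zero : FR (0 : H →L[ℂ] H) := by
  unfold FR
  have : LinearMap.range (0 : H →L[ℂ] H).toLinearMap = ⊥ := by
    rw [eq_bot_iff]
    rintro _ ⟨x, rfl⟩
    simp
  rw [this]
  infer_instance

theorem FR.sum {ι : Type*} (s : Finset ι) (f : ι → H →L[ℂ] H) (h : ∀ i ∈ s, FR (f i)) :
    FR (∑ i ∈ s, f i) := by
  classical
  induction s using Finset.induction_on with
  | empty => simpa using FR.zero
  | insert i s hi ih =>
    rw [Finset.sum_insert hi]
    exact (h i (Finset.mem_insert_self _ _)).add (ih fun j hj => h j (Finset.mem_insert_of_mem hj))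

variable [CompleteSpace H]

/-- The positive part `(B - β)_+`. -/
noncomputable def up (B : H →L[ℂ] H) (β : ℝ) : H →L[ℂ] H := cfc (fun s : ℝ => max (s - β) 0) B

/-- The positive part `(α - B)_+`. -/
noncomputable def dn (B : H →L[ℂ] H) (α : ℝ) : H →L[ℂ] H := cfc (fun s : ℝ => max (α - s) 0) B

theorem up_neg {B : H →L[ℂ] H} (hB : IsSelfAdjoint B) (β : ℝ) : up (-B) (-β) = dn B β := by
  unfold up dn
  rw [← cfc_comp_neg (fun s : ℝ => max (s - -β) 0) B (by fun_prop) hB]
  congr 1
  funext s
  congr 1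
  ring

theorem dn_neg {B : H →L[ℂ] H} (hB : IsSelfAdjoint B) (β : ℝ) : dn (-B) (-β) = up B β := by
  unfold up dn
  rw [← cfc_comp_neg (fun s : ℝ => max (-β - s) 0) B (by fun_prop) hB]
  congr 1
  funext s
  congr 1
  ring

/-- `(α - B)_+` is a right multiple of `(α' - B)_+` if `α ≤ α'`. -/
theorem dn_factor (B : H →L[ℂ] H) {α α' : ℝ} (h : α ≤ α') :
    ∃ g : H →L[ℂ] H, dn B α = dn B α' * g := by
  rcases h.eq_or_lt with rfl | h
  · exact ⟨1, (mul_one _).symm⟩
  · have hpos : ∀ s : ℝ, 0 < max (α' - s) (α' - α) := fun s => lt_max_of_lt_right (by linarith)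
    have hc : Continuous fun s : ℝ => max (α - s) 0 / max (α' - s) (α' - α) :=
      Continuous.div (by fun_prop) (by fun_prop) fun s => (hpos s).ne'
    refine ⟨cfc (fun s : ℝ => max (α - s) 0 / max (α' - s) (α' - α)) B, ?_⟩
    unfold dn
    rw [← cfc_mul (fun s : ℝ => max (α' - s) 0) _ B (by fun_prop) hc.continuousOn]
    congr 1
    funext s
    rcases le_total s α with hs | hs
    · rw [max_eq_left (by linarith : (0 : ℝ) ≤ α - s), max_eq_left (by linarith : (0 : ℝ) ≤ α' - s),
        max_eq_left (by linarith : α' - α ≤ α' - s)]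
      have : α' - s ≠ 0 := by linarith
      field_simp
    · rw [max_eq_right (by linarith : α - s ≤ 0)]
      simp

end

section
variable {A : Type u} [NonUnitalCStarAlgebra A] [PartialOrder A] [StarOrderedRing A]

/-- The key structural lemma for positive spectral windows. -/
theorem window_pos (hT : Thin A) {b : A} (hb : IsSelfAdjoint b) {α β : ℝ} (hα : 0 < α)
    (hαβ : α < β) :
    ∃ s : Finset A, (∀ v ∈ s, IsMinProj (star v * v)) ∧
      ∀ (H : Type u) [NormedAddCommGroup H] [InnerProductSpace ℂ H] [CompleteSpace H]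
        (π : A →⋆ₙₐ[ℂ] (H →L[ℂ] H)), (∀ ξ η : H, ∃ a, ∀ ζ : H, π a ζ = ⟪η, ζ⟫_ℂ • ξ) →
        (FR (up (π b) β) ∨ FR (dn (π b) α)) ∧
        (up (π b) β ≠ 0 → dn (π b) α ≠ 0 → ∃ v ∈ s, π v ≠ 0) := by
  set m : ℝ := (α + β) / 2 with hm
  have hαm : α < m := by rw [hm]; linarith
  have hmβ : m < β := by rw [hm]; linarith
  set F : ℝ → ℝ := fun s => max (s - β) 0 with hF
  set h : ℝ → ℝ := fun s => max 0 (min 1 ((s - m) / (β - m))) with hh
  set k : ℝ → ℝ := fun s => max 0 (min 1 ((s - α) / (m - α))) with hk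
  have hFc : Continuous F := by rw [hF]; fun_prop
  have hhc : Continuous h := by rw [hh]; fun_prop
  have hkc : Continuous k := by rw [hk]; fun_prop
  have hF0 : F 0 = 0 := by simp only [hF]; exact max_eq_right (by linarith)
  have hh0 : h 0 = 0 := by
    simp only [hh]
    refine max_eq_left ((min_le_right _ _).trans ?_)
    exact div_nonpos_of_nonpos_of_nonneg (by linarith) (by linarith)
  have hk0 : k 0 = 0 := by
    simp only [hk]
    refine max_eq_left ((min_le_right _ _).trans ?_)
    exact div_nonpos_of_nonpos_of_nonneg (by linarith) (by linarith)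
  have hhF : ∀ s, h s * F s = F s := by
    intro s
    rcases le_total s β with hs | hs
    · have : F s = 0 := max_eq_right (by linarith)
      rw [this, mul_zero]
    · have : h s = 1 := by
        simp only [hh]
        have h1 : 1 ≤ (s - m) / (β - m) := by
          rw [le_div_iff₀ (by linarith)]
          linarith
        rw [min_eq_left h1]
        exact max_eq_right zero_le_one
      rw [this, one_mul]
  have hFh : ∀ s, F s * h s = F s := fun s => by rw [mul_comm, hhF]
  have hkh : ∀ s, k s * h s = h s := by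
    intro s
    rcases le_total s m with hs | hs
    · have : h s = 0 := by
        simp only [hh]
        refine max_eq_left ((min_le_right _ _).trans ?_)
        exact div_nonpos_of_nonpos_of_nonneg (by linarith) (by linarith)
      rw [this, mul_zero]
    · have : k s = 1 := by
        simp only [hk]
        have h1 : 1 ≤ (s - α) / (m - α) := by
          rw [le_div_iff₀ (by linarith)]
          linarith
        rw [min_eq_left h1]
        exact max_eq_right zero_le_one
      rw [this, one_mul]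
  set e : A := cfcₙ h b with he
  have he0 : 0 ≤ e := cfcₙ_nonneg fun s _ => le_max_left _ _
  have heF : e * cfcₙ F b = cfcₙ F b := by
    rw [he, ← cfcₙ_mul h F b hhc.continuousOn hh0 hFc.continuousOn hF0]
    exact cfcₙ_congr fun s _ => hhF s
  have hke : cfcₙ k b * e = e := by
    rw [he, ← cfcₙ_mul k h b hkc.continuousOn hk0 hhc.continuousOn hh0]
    exact cfcₙ_congr fun s _ => hkh s
  obtain ⟨s, hs1, -, hs3⟩ := exists_family hT he0
  refine ⟨s, fun v hv => (hs1 v hv).2.2.1, ?_⟩
  intro H _ _ _ π hr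
  set q : A := ∑ v ∈ s, star v * v with hq
  set q' : A := ∑ v ∈ s, v * star v with hq'
  have hπc : Continuous (π) := map_continuous π
  have hπb : IsSelfAdjoint (π b) := hb.map π
  have hmapF : π (cfcₙ F b) = up (π b) β := by
    rw [NonUnitalStarAlgHom.map_cfcₙ π F b hFc.continuousOn hF0 hπc hb hπb]
    exact cfcₙ_eq_cfc hFc.continuousOn hF0
  set G : H →L[ℂ] H := 1 - π (cfcₙ k b) with hG
  have hGdn : G * dn (π b) α = dn (π b) α := by
    have h1 : π (cfcₙ k b) = cfc k (π b) := by
      rw [NonUnitalStarAlgHom.map_cfcₙ π k b hkc.continuousOn hk0 hπc hb hπb]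
      exact cfcₙ_eq_cfc hkc.continuousOn hk0
    rw [hG, sub_mul, one_mul, h1, dn, ← cfc_mul k _ (π b) hkc.continuousOn (by fun_prop)]
    have h2 : cfc (fun x => k x * max (α - x) 0) (π b) = 0 := by
      rw [← cfc_const_zero ℝ (π b)]
      refine cfc_congr fun x _ => ?_
      rcases le_total x α with hx | hx
      · have : k x = 0 := by
          simp only [hk]
          refine max_eq_left ((min_le_right _ _).trans ?_)
          exact div_nonpos_of_nonpos_of_nonneg (by linarith) (by linarith)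
        simp only [this, zero_mul]
      · rw [max_eq_right (by linarith : α - x ≤ 0), mul_zero]
    rw [h2, sub_zero]
  -- the elements of the corner
  have hx : ∀ a : A, (cfcₙ F b * a - cfcₙ F b * a * cfcₙ k b) =
      q' * (cfcₙ F b * a - cfcₙ F b * a * cfcₙ k b) +
      (cfcₙ F b * a - cfcₙ F b * a * cfcₙ k b) * q -
      q' * (cfcₙ F b * a - cfcₙ F b * a * cfcₙ k b) * q := by
    intro a
    refine hs3 _ ?_ ?_
    · rw [mul_sub, ← mul_assoc, ← mul_assoc, ← mul_assoc, heF]
    · rw [sub_mul, mul_assoc _ (cfcₙ k b) e, hke, sub_self]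
  have hπx : ∀ a : A, π (cfcₙ F b * a - cfcₙ F b * a * cfcₙ k b) = up (π b) β * π a * G := by
    intro a
    rw [map_sub, map_mul, map_mul, map_mul, hmapF, hG, mul_sub, mul_one]
  have hx' : ∀ a : A, (1 - π q') * (up (π b) β) * π a * (G * (1 - π q)) = 0 := by
    intro a
    have h1 := congrArg π (hx a)
    rw [map_sub π (_ + _), map_add, map_mul π _ q, map_mul π (q' * _) q, map_mul π q', hπx] at h1
    have h2 : (1 - π q') * (up (π b) β) * π a * (G * (1 - π q)) =
        up (π b) β * π a * G - (π q' * (up (π b) β * π a * G) + up (π b) β * π a * G * π q -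
          π q' * (up (π b) β * π a * G) * π q) := by
      noncomm_ring
    rw [h2, ← h1, sub_self]
  have hrank : ∀ (X Y : H →L[ℂ] H), (∀ a : A, X * π a * Y = 0) → X = 0 ∨ Y = 0 := by
    intro X Y hXY
    by_contra hcon
    push Not at hcon
    obtain ⟨hX, hY⟩ := hcon
    obtain ⟨ξ, hξ⟩ : ∃ ξ, X ξ ≠ 0 := by
      by_contra hc
      push Not at hc
      exact hX (ContinuousLinearMap.ext hc)
    obtain ⟨ζ, hζ⟩ : ∃ ζ, Y ζ ≠ 0 := by
      by_contra hc
      push Not at hc
      exact hY (ContinuousLinearMap.ext hc)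
    obtain ⟨a, ha⟩ := hr ξ (Y ζ)
    have h1 := congrArg (fun T : H →L[ℂ] H => T ζ) (hXY a)
    simp only [mul_apply_eq_comp, zero_apply, ha, map_smul] at h1
    rcases smul_eq_zero.1 h1 with h2 | h2
    · exact hζ (inner_self_eq_zero.1 h2)
    · exact hξ h2
  have hFRq : FR (π q) := by
    rw [hq, map_sum]
    exact FR.sum _ _ fun v hv => finiteRank_of_minproj π hr (hs1 v hv).2.2.1
  have hFRq' : FR (π q') := by
    rw [hq', map_sum]
    exact FR.sum _ _ fun v hv => finiteRank_of_minproj π hr (hs1 v hv).2.2.2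
  refine ⟨?_, ?_⟩
  · rcases hrank _ _ hx' with h1 | h1
    · left
      rw [sub_mul, one_mul, sub_eq_zero] at h1
      rw [h1]
      exact hFRq'.mul_right _
    · right
      rw [mul_sub, mul_one, sub_eq_zero] at h1
      have h2 : FR G := by
        rw [h1]
        exact hFRq.mul_left _
      rw [← hGdn]
      exact h2.mul_right _
  · intro hup hdn
    have hG0 : G ≠ 0 := by
      intro h0
      apply hdn
      rw [← hGdn, h0, zero_mul]
    by_contra hcon
    push Not at hcon
    have hq0 : π q = 0 := by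
      rw [hq, map_sum]
      exact Finset.sum_eq_zero fun v hv => by rw [map_mul, hcon v hv, mul_zero]
    have hq0' : π q' = 0 := by
      rw [hq', map_sum]
      exact Finset.sum_eq_zero fun v hv => by rw [map_mul, hcon v hv, zero_mul]
    rcases hrank (up (π b) β) G (fun a => by
      have := hx' a
      rwa [hq0, hq0', sub_zero, mul_one, one_mul] at this) with h1 | h1
    · exact hup h1
    · exact hG0 h1

/-- The structural lemma for all spectral windows. -/
theorem window (hT : Thin A) {b : A} (hb : IsSelfAdjoint b) {α β : ℝ} (hαβ : α < β) :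
    ∃ s : Finset A, (∀ v ∈ s, IsMinProj (star v * v)) ∧
      ∀ (H : Type u) [NormedAddCommGroup H] [InnerProductSpace ℂ H] [CompleteSpace H]
        (π : A →⋆ₙₐ[ℂ] (H →L[ℂ] H)), (∀ ξ η : H, ∃ a, ∀ ζ : H, π a ζ = ⟪η, ζ⟫_ℂ • ξ) →
        (FR (up (π b) β) ∨ FR (dn (π b) α)) ∧
        (up (π b) β ≠ 0 → dn (π b) α ≠ 0 → ∃ v ∈ s, π v ≠ 0) := by
  rcases lt_or_ge 0 β with hβ | hβ
  · obtain ⟨s, hs, hs'⟩ := window_pos hT hb (α := max α (β / 2)) (β := β)
      (lt_max_of_lt_right (by linarith)) (max_lt hαβ (by linarith))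
    refine ⟨s, hs, fun H _ _ _ π hr => ?_⟩
    obtain ⟨h1, h2⟩ := hs' H π hr
    obtain ⟨g, hg⟩ := dn_factor (π b) (le_max_left α (β / 2))
    rw [hg]
    refine ⟨h1.imp id fun h => h.mul_right _, fun hup hdn => h2 hup ?_⟩
    intro h0
    apply hdn
    rw [h0, zero_mul]
  · obtain ⟨s, hs, hs'⟩ := window_pos hT hb.neg (α := max (-β) (-α / 2)) (β := -α)
      (lt_max_of_lt_right (by linarith)) (max_lt (by linarith) (by linarith))
    refine ⟨s, hs, fun H _ _ _ π hr => ?_⟩
    obtain ⟨h1, h2⟩ := hs' H π hr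
    have hπb : IsSelfAdjoint (π b) := hb.map π
    rw [map_neg, up_neg hπb] at h1 h2
    obtain ⟨g, hg⟩ := dn_factor (-(π b)) (le_max_left (-β) (-α / 2))
    rw [dn_neg hπb] at hg
    rw [hg]
    refine ⟨(h1.imp id fun h => h.mul_right _).symm, fun hup hdn => h2 hdn ?_⟩
    intro h0
    apply hup
    rw [h0, zero_mul]

end

/-- The minimal projections. -/
abbrev MinP (A : Type u) [NonUnitalCStarAlgebra A] := {t : A // IsMinProj t}

section
variable {A : Type u} [NonUnitalCStarAlgebra A]

theorem star_mul_ne {z : A} (hz : z ≠ 0) : star z * z ≠ 0 := fun h =>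
  hz (CStarRing.star_mul_self_eq_zero_iff z |>.1 h)

/-- If `s x t ≠ 0` with `t` a minimal projection then `s x t z = 0` forces `t z = 0`. -/
theorem cancel_left {s t x z : A} (hs : star s = s) (ht : IsMinProj t) (h : s * x * t ≠ 0)
    (hz : s * x * t * z = 0) : t * z = 0 := by
  obtain ⟨c, hc⟩ := ht.scalar (star x * s * s * x)
  have h1 : star (s * x * t) * (s * x * t) = c • t := by
    rw [← hc]
    simp only [star_mul, hs, ht.sa, mul_assoc]
  have hc0 : c ≠ 0 := by
    rintro rfl
    rw [zero_smul] at h1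
    exact star_mul_ne h h1
  have h2 : star (s * x * t) * (s * x * t * z) = c • (t * z) := by
    rw [← mul_assoc, h1, smul_mul_assoc]
  rw [hz, mul_zero] at h2
  exact (smul_eq_zero.1 h2.symm).resolve_left hc0

/-- Equivalence of minimal projections. -/
def minSetoid (A : Type u) [NonUnitalCStarAlgebra A] : Setoid (MinP A) where
  r s t := ∃ x : A, s.1 * x * t.1 ≠ 0
  iseqv :=
    { refl := fun s => ⟨s.1, by rw [s.2.idem, s.2.idem]; exact s.2.ne⟩
      symm := by
        rintro s t ⟨x, hx⟩
        refine ⟨star x, fun h => hx ?_⟩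
        have := congrArg star h
        simpa [star_mul, s.2.sa, t.2.sa, mul_assoc] using this
      trans := by
        rintro s t r ⟨x, hx⟩ ⟨y, hy⟩
        refine ⟨x * t.1 * y, fun h => hy ?_⟩
        have h1 : s.1 * x * t.1 * (y * r.1) = 0 := by
          rw [← h]
          simp only [mul_assoc]
        have := cancel_left s.2.sa t.2 hx h1
        rwa [← mul_assoc] at this }

/-- The one-dimensional representation of a character. -/
noncomputable def charRep (χ : A →⋆ₙₐ[ℂ] ℂ) : RepData A where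
  H := EuclideanSpace ℂ PUnit.{u + 1}
  π :=
    { toFun := fun a => χ a • 1
      map_smul' := fun c a => by
        rw [map_smul, MonoidHom.id_apply, smul_smul, smul_eq_mul]
      map_zero' := by rw [map_zero, zero_smul]
      map_add' := fun a b => by rw [map_add, add_smul]
      map_mul' := fun a b => by rw [map_mul, smul_mul_smul_comm, one_mul]
      map_star' := fun a => by rw [map_star, star_smul, star_one] }

theorem charRep_apply (χ : A →⋆ₙₐ[ℂ] ℂ) (a : A) : (charRep χ).π a = χ a • 1 := rfl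

theorem exists_repData (t : MinP A) : ∃ D : RepData A,
    (∀ a, D.π a = 0 ↔ ∀ x, a * x * t.1 = 0) ∧
      (∀ ξ η : D.H, ∃ a, ∀ ζ : D.H, D.π a ζ = ⟪η, ζ⟫_ℂ • ξ) := by
  obtain ⟨H, i1, i2, i3, π, h1, h2⟩ := exists_rep t.2
  exact ⟨⟨H, π⟩, h1, h2⟩

theorem decomp (a : A) : ∃ b c : A, IsSelfAdjoint b ∧ IsSelfAdjoint c ∧ a = b + Complex.I • c :=
  ⟨realPart a, imaginaryPart a, (realPart a).2, (imaginaryPart a).2,
    (realPart_add_I_smul_imaginaryPart a).symm⟩

end

section
variable {A : Type u} [NonUnitalCStarAlgebra A] [PartialOrder A] [StarOrderedRing A]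

theorem compact_of_thin (hT : Thin A) {H : Type u} [NormedAddCommGroup H] [InnerProductSpace ℂ H]
    [CompleteSpace H] (π : A →⋆ₙₐ[ℂ] (H →L[ℂ] H))
    (hr : ∀ ξ η : H, ∃ a, ∀ ζ : H, π a ζ = ⟪η, ζ⟫_ℂ • ξ) (a : A) :
    ∃ z : ℂ, IsCompactOperator (π a - z • (1 : H →L[ℂ] H)) := by
  have hsa : ∀ b : A, IsSelfAdjoint b → ∃ z : ℂ, IsCompactOperator (π b - z • (1 : H →L[ℂ] H)) := by
    intro b hb
    refine exists_scalar_compact (π b) (hb.map π) fun α β hαβ => ?_
    obtain ⟨s, -, hs⟩ := window hT hb hαβ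
    exact (hs H π hr).1
  obtain ⟨b, c, hb, hc, rfl⟩ := decomp a
  obtain ⟨z, hz⟩ := hsa b hb
  obtain ⟨w, hw⟩ := hsa c hc
  refine ⟨z + Complex.I * w, ?_⟩
  have h1 : π (b + Complex.I • c) - (z + Complex.I * w) • (1 : H →L[ℂ] H) =
      (π b - z • (1 : H →L[ℂ] H)) + Complex.I • (π c - w • (1 : H →L[ℂ] H)) := by
    rw [map_add, map_smul, add_smul, smul_sub, smul_smul]
    abel
  rw [h1]
  exact hz.add (hw.smul Complex.I)

theorem finite_of_thin (hT : Thin A) {ι : Type u} (D : ι → RepData A) (t : ι → MinP A)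
    (ht : ∀ i j, (minSetoid A).r (t i) (t j) → i = j)
    (hD : ∀ i a, (D i).π a = 0 ↔ ∀ x, a * x * (t i).1 = 0)
    (hr : ∀ i, ∀ ξ η : (D i).H, ∃ a, ∀ ζ : (D i).H, (D i).π a ζ = ⟪η, ζ⟫_ℂ • ξ)
    (a : A) {ε : ℝ} (hε : 0 < ε) :
    {i | ∀ z : ℂ, ε ≤ ‖(D i).π a - z • (1 : (D i).H →L[ℂ] (D i).H)‖}.Finite := by
  have hone : ∀ v : A, IsMinProj (star v * v) → {i | (D i).π v ≠ 0}.Finite := by
    intro v hv
    have hsub : {i | (D i).π v ≠ 0}.Subsingleton := by
      have key : ∀ i, (D i).π v ≠ 0 → (minSetoid A).r ⟨star v * v, hv⟩ (t i) := by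
        intro i hi
        rw [Ne, hD] at hi
        push Not at hi
        obtain ⟨x, hx⟩ := hi
        refine ⟨x, fun h => ?_⟩
        apply star_mul_ne hx
        have h1 : star (v * x * (t i).1) * (v * x * (t i).1) =
            (t i).1 * star x * (star v * v * x * (t i).1) := by
          simp only [star_mul, (t i).2.sa, mul_assoc]
        rw [h1]
        change (t i).1 * star x * (star v * v * x * (t i).1) = 0
        change star v * v * x * (t i).1 = 0 at h
        rw [h, mul_zero]
      intro i hi j hj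
      exact ht i j ((minSetoid A).iseqv.trans ((minSetoid A).iseqv.symm (key i hi)) (key j hj))
    exact hsub.finite
  have hsa : ∀ b : A, IsSelfAdjoint b → ∀ ε : ℝ, 0 < ε →
      {i | ∀ z : ℂ, ε ≤ ‖(D i).π b - z • (1 : (D i).H →L[ℂ] (D i).H)‖}.Finite := by
    intro b hb ε hε
    obtain ⟨G, hG, hgrid⟩ := exists_grid.{u} ‖b‖ ε hε
    have h1 : ∀ p : ℝ × ℝ, ∃ s : Finset A, p ∈ G → (∀ v ∈ s, IsMinProj (star v * v)) ∧
        ∀ i, up ((D i).π b) p.2 ≠ 0 → dn ((D i).π b) p.1 ≠ 0 → ∃ v ∈ s, (D i).π v ≠ 0 := by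
      intro p
      by_cases hp : p ∈ G
      · obtain ⟨s, hs, hs'⟩ := window hT hb (hG p hp)
        exact ⟨s, fun _ => ⟨hs, fun i => (hs' (D i).H (D i).π (hr i)).2⟩⟩
      · exact ⟨∅, fun h => absurd h hp⟩
    choose s hs using h1
    refine Set.Finite.subset (s := ⋃ p ∈ G, ⋃ v ∈ s p, {i | (D i).π v ≠ 0}) ?_ ?_
    · exact Set.Finite.biUnion (Finset.finite_toSet _) fun p hp =>
        Set.Finite.biUnion (Finset.finite_toSet _) fun v hv => hone v ((hs p hp).1 v hv)
    · intro i hi
      obtain ⟨p, hp, h2, h3⟩ := hgrid (D i).H ((D i).π b) (hb.map (D i).π)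
        (NonUnitalStarAlgHom.norm_apply_le (D i).π b) hi
      obtain ⟨v, hv, hv'⟩ := (hs p hp).2 i h2 h3
      simp only [Set.mem_iUnion]
      exact ⟨p, hp, v, hv, hv'⟩
  obtain ⟨b, c, hb, hc, rfl⟩ := decomp a
  refine ((hsa b hb (ε / 2) (half_pos hε)).union (hsa c hc (ε / 2) (half_pos hε))).subset ?_
  intro i hi
  by_contra hcon
  rw [Set.mem_union, not_or] at hcon
  obtain ⟨h1, h2⟩ := hcon
  have h1' : ∃ z : ℂ, ‖(D i).π b - z • (1 : (D i).H →L[ℂ] (D i).H)‖ < ε / 2 := by
    by_contra hc
    push Not at hc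
    exact h1 hc
  have h2' : ∃ z : ℂ, ‖(D i).π c - z • (1 : (D i).H →L[ℂ] (D i).H)‖ < ε / 2 := by
    by_contra hc
    push Not at hc
    exact h2 hc
  obtain ⟨z, hz⟩ := h1'
  obtain ⟨w, hw⟩ := h2'
  have h3 := hi (z + Complex.I * w)
  have h4 : (D i).π (b + Complex.I • c) - (z + Complex.I * w) • (1 : (D i).H →L[ℂ] (D i).H) =
      ((D i).π b - z • (1 : (D i).H →L[ℂ] (D i).H)) +
        Complex.I • ((D i).π c - w • (1 : (D i).H →L[ℂ] (D i).H)) := by
    rw [map_add, map_smul, add_smul, smul_sub, smul_smul]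
    abel
  rw [h4] at h3
  have h5 := norm_add_le ((D i).π b - z • (1 : (D i).H →L[ℂ] (D i).H))
    (Complex.I • ((D i).π c - w • (1 : (D i).H →L[ℂ] (D i).H)))
  rw [norm_smul, Complex.norm_I, one_mul] at h5
  linarith

/-- Thin C*-algebras are near scalar. -/
theorem nearScalar_of_thin (hT : Thin A) : NearScalar A := by
  choose D0 hD0 hr0 using exists_repData (A := A)
  letI := minSetoid A
  set D : Quotient (minSetoid A) ⊕ (A →⋆ₙₐ[ℂ] ℂ) → RepData A :=
    Sum.elim (fun c => D0 c.out) charRep with hD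
  refine ⟨Quotient (minSetoid A) ⊕ (A →⋆ₙₐ[ℂ] ℂ), fun i => (D i).H, fun i => (D i).inst1,
    fun i => (D i).inst2, fun i => (D i).inst3, fun i => (D i).π, ?_, ?_, ?_⟩
  · intro a ha
    have h1 : ∀ q : A, IsMinProj q → ∀ x, a * x * q = 0 := by
      intro q hq x
      by_contra hne
      set t : MinP A := (Quotient.mk (minSetoid A) ⟨q, hq⟩).out with ht
      have h2 : ∀ x, a * x * t.1 = 0 :=
        (hD0 t a).1 (ha (Sum.inl (Quotient.mk (minSetoid A) ⟨q, hq⟩)))
      have h3 : (minSetoid A).r t ⟨q, hq⟩ := Quotient.mk_out (s := minSetoid A) ⟨q, hq⟩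
      obtain ⟨y, hy⟩ := (minSetoid A).iseqv.symm h3
      change q * y * t.1 ≠ 0 at hy
      have h4 : star (a * x * q) * (a * x * q) ≠ 0 := star_mul_ne hne
      -- use the scalar property on the other side
      obtain ⟨c, hc⟩ := hq.scalar (y * t.1 * star y)
      have h5 : (q * y * t.1) * star (q * y * t.1) = c • q := by
        rw [← hc]
        simp only [star_mul, hq.sa, t.2.sa, mul_assoc]
        rw [← mul_assoc t.1 t.1, t.2.idem]
      have hc0 : c ≠ 0 := by
        rintro rfl
        rw [zero_smul] at h5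
        exact hy (CStarRing.mul_star_self_eq_zero_iff _ |>.1 h5)
      have h6 : a * x * q * y * t.1 = 0 := by
        have := h2 (x * q * y)
        simpa only [mul_assoc] using this
      have h7 : a * x * (q * y * t.1 * star (q * y * t.1)) = 0 := by
        have : a * x * (q * y * t.1 * star (q * y * t.1)) =
            (a * x * q * y * t.1) * star (q * y * t.1) := by
          simp only [mul_assoc]
        rw [this, h6, zero_mul]
      rw [h5, mul_smul_comm] at h7
      exact hne ((smul_eq_zero.1 h7).resolve_left hc0)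
    have hmin := fun (e x : A) (he : 0 ≤ e) (h1 : e * x = x) (h2 : x * e = 0) (h3 : x ≠ 0) =>
      exists_minproj hT he h1 h2 h3
    by_contra ha0
    obtain ⟨χ, hχ⟩ := exists_char ha0 (fun x y z => by
      have h8 : ∀ q : A, IsMinProj q → ∀ w, x * a * y * w * q = 0 := by
        intro q hq w
        have := h1 q hq (y * w)
        calc x * a * y * w * q = x * (a * (y * w) * q) := by simp only [mul_assoc]
          _ = 0 := by rw [this, mul_zero]
      exact center_of_thin hmin h8 z)
    have h9 : (charRep χ).π a = 0 := ha (Sum.inr χ)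
    rw [charRep_apply] at h9
    rcases smul_eq_zero.1 h9 with h10 | h10
    · exact hχ h10
    · have h11 : (1 : (charRep χ).H →L[ℂ] (charRep χ).H)
          (EuclideanSpace.single PUnit.unit (1 : ℂ) : EuclideanSpace ℂ PUnit.{u + 1}) = 0 := by
        rw [h10]
        rfl
      have h12 : (EuclideanSpace.single PUnit.unit (1 : ℂ) : EuclideanSpace ℂ PUnit.{u + 1}) = 0 :=
        h11
      simp at h12
  · intro a i
    rcases i with c | χ
    · exact compact_of_thin hT (D0 c.out).π (hr0 c.out) a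
    · refine ⟨χ a, ?_⟩
      change IsCompactOperator ((charRep χ).π a - χ a • (1 : (charRep χ).H →L[ℂ] (charRep χ).H))
      rw [charRep_apply, sub_self]
      exact isCompactOperator_zero
  · intro a ε hε
    have h1 := finite_of_thin hT (fun c : Quotient (minSetoid A) => D0 c.out)
      (fun c => c.out) (fun c d h => by
        have h2 : Quotient.mk (minSetoid A) c.out = Quotient.mk (minSetoid A) d.out :=
          Quotient.sound h
        rwa [Quotient.out_eq, Quotient.out_eq] at h2)
      (fun c a => hD0 c.out a) (fun c => hr0 c.out) a hε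
    refine (h1.image Sum.inl).subset ?_
    rintro (c | χ) hi
    · exact ⟨c, hi, rfl⟩
    · exfalso
      have h3 := hi (χ a)
      change ε ≤ ‖(charRep χ).π a - χ a • (1 : (charRep χ).H →L[ℂ] (charRep χ).H)‖ at h3
      rw [charRep_apply, sub_self, norm_zero] at h3
      linarith

end

end Pool.Agent.Work.MP_3f690c_an
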