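import Pool.Agent.Work.MP_3f690c_an.Defs2

/-!
# Near scalar C*-algebras are thin
-/

open scoped ComplexOrder InnerProductSpace
open Filter Topology

namespace Pool.Agent.Work.MP_3f690c_an

universe u v

/-- A compact operator has no nonzero eigenvalue with an orthonormal sequence of eigenvectors. -/
theorem eigen_zero {H : Type u} [NormedAddCommGroup H] [InnerProductSpace ℂ H]
    {K : H →L[ℂ] H} (hK : IsCompactOperator K) {ξ : ℕ → H} (hξ : Orthonormal ℂ ξ) {c : ℂ}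
    (h : ∀ n, K (ξ n) = c • ξ n) : c = 0 := by
  obtain ⟨S, hS, hS'⟩ := hK.image_closedBall_subset_compact (𝕜₁ := ℂ) (f := K.toLinearMap) 1
  have hmem : ∀ n, K (ξ n) ∈ S := fun n =>
    hS' ⟨ξ n, by simp [hξ.1 n], rfl⟩
  obtain ⟨w, -, φ, hφ, hlim⟩ := hS.tendsto_subseq hmem
  have h1 : Tendsto (fun n => K (ξ (φ (n + 1))) - K (ξ (φ n))) atTop (𝓝 (w - w)) :=
    (hlim.comp (tendsto_add_atTop_nat 1)).sub hlim
  rw [sub_self] at h1
  have h2 : ∀ n, ‖K (ξ (φ (n + 1))) - K (ξ (φ n))‖ ^ 2 = 2 * ‖c‖ ^ 2 := by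
    intro n
    rw [h, h, ← smul_sub, norm_smul, mul_pow]
    have hne : φ (n + 1) ≠ φ n := (hφ (Nat.lt_succ_self n)).ne'
    have h3 : ‖ξ (φ (n + 1)) - ξ (φ n)‖ ^ 2 = 2 := by
      rw [@norm_sub_sq ℂ, hξ.1, hξ.1, hξ.2 hne]
      norm_num
    rw [h3]
    ring
  have h4 : Tendsto (fun n => ‖K (ξ (φ (n + 1))) - K (ξ (φ n))‖ ^ 2) atTop (𝓝 (‖(0 : H)‖ ^ 2)) :=
    (h1.norm).pow 2
  simp only [h2, norm_zero] at h4
  have h5 := tendsto_nhds_unique h4 tendsto_const_nhds
  have h6 : ‖c‖ ^ 2 = 0 := by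
    have : (0 : ℝ) ^ 2 = 0 := by norm_num
    rw [this] at h5
    linarith
  exact norm_eq_zero.1 (pow_eq_zero_iff two_ne_zero |>.1 h6)

/-- Normalised vectors in the ranges of operators with pairwise orthogonal ranges. -/
theorem exists_orthonormal {H : Type u} [NormedAddCommGroup H] [InnerProductSpace ℂ H]
    [CompleteSpace H] {W : ℕ → H →L[ℂ] H} (h0 : ∀ n, W n ≠ 0)
    (h : ∀ m n, m ≠ n → star (W m) * W n = 0) :
    ∃ ξ : ℕ → H, Orthonormal ℂ ξ ∧ ∀ n, ∃ x, ξ n = W n x := by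
  have h1 : ∀ n, ∃ x, ‖W n x‖ = 1 := by
    intro n
    obtain ⟨x, hx⟩ : ∃ x, W n x ≠ 0 := by
      by_contra hc
      push Not at hc
      exact h0 n (ContinuousLinearMap.ext hc)
    refine ⟨((‖W n x‖⁻¹ : ℝ) : ℂ) • x, ?_⟩
    rw [map_smul, norm_smul, Complex.norm_real, norm_inv, norm_norm, inv_mul_cancel₀]
    exact norm_ne_zero_iff.2 hx
  choose x hx using h1
  refine ⟨fun n => W n (x n), ⟨hx, ?_⟩, fun n => ⟨x n, rfl⟩⟩
  intro m n hmn
  change ⟪W m (x m), W n (x n)⟫_ℂ = 0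
  rw [← ContinuousLinearMap.adjoint_inner_right]
  have h2 : (star (W m) * W n) (x n) = 0 := by rw [h m n hmn]; rfl
  have h3 : (W m).adjoint (W n (x n)) = 0 := h2
  rw [h3, inner_zero_right]

theorem thin_of_nearScalar {A : Type u} [NonUnitalCStarAlgebra A] [PartialOrder A]
    [StarOrderedRing A] (hN : NearScalar A) : Thin A := by
  obtain ⟨ι, H, _, _, _, π, hf, hcpt, hfin⟩ := hN
  intro e w he hw horth
  by_contra hcon
  push Not at hcon
  have h1 : ∀ n, ∃ i, π i (w n) ≠ 0 := by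
    intro n
    by_contra hc
    push Not at hc
    exact hcon n (hf _ hc)
  choose i hi using h1
  have hmem : ∀ n, i n ∈ {j | ∀ z : ℂ, (1 / 2 : ℝ) ≤ ‖π j e - z • (1 : H j →L[ℂ] H j)‖} := by
    intro n z
    by_contra hlt
    push Not at hlt
    set E := π (i n) e with hE
    set W := π (i n) (w n) with hW
    have hW0 : 0 < ‖W‖ := norm_pos_iff.2 (hi n)
    have h2 : E * W = W := by rw [hE, hW, ← map_mul, (hw n).1]
    have h3 : W * E = 0 := by rw [hE, hW, ← map_mul, (hw n).2, map_zero]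
    have h4 : (E - z • (1 : H (i n) →L[ℂ] H (i n))) * W = (1 - z) • W := by
      rw [sub_mul, h2, smul_mul_assoc, one_mul, sub_smul, one_smul]
    have h5 : W * (E - z • (1 : H (i n) →L[ℂ] H (i n))) = (-z) • W := by
      rw [mul_sub, h3, mul_smul_comm, mul_one, neg_smul, zero_sub]
    have h6 : ‖1 - z‖ < 1 / 2 := by
      have h7 := norm_mul_le (E - z • (1 : H (i n) →L[ℂ] H (i n))) W
      rw [h4, norm_smul] at h7
      exact (le_of_mul_le_mul_right h7 hW0).trans_lt hlt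
    have h8 : ‖z‖ < 1 / 2 := by
      have h7 := norm_mul_le W (E - z • (1 : H (i n) →L[ℂ] H (i n)))
      rw [h5, norm_smul, norm_neg, mul_comm ‖W‖] at h7
      exact (le_of_mul_le_mul_right h7 hW0).trans_lt hlt
    have h9 : (1 : ℝ) ≤ ‖1 - z‖ + ‖z‖ := by
      calc (1 : ℝ) = ‖(1 - z) + z‖ := by simp
        _ ≤ _ := norm_add_le _ _
    linarith
  have hF := hfin e (1 / 2) (by norm_num)
  -- infinitely many `n` with the same index
  obtain ⟨j, -, hj⟩ : ∃ j ∈ {j | ∀ z : ℂ, (1 / 2 : ℝ) ≤ ‖π j e - z • (1 : H j →L[ℂ] H j)‖},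
      {n | i n = j}.Infinite := by
    by_contra hc
    push Not at hc
    have h2 : (Set.univ : Set ℕ) ⊆ ⋃ j ∈ {j | ∀ z : ℂ,
        (1 / 2 : ℝ) ≤ ‖π j e - z • (1 : H j →L[ℂ] H j)‖}, {n | i n = j} := by
      intro n _
      simp only [Set.mem_iUnion]
      exact ⟨i n, hmem n, rfl⟩
    exact Set.infinite_univ ((hF.biUnion fun j hj => hc j hj).subset h2)
  obtain ⟨φ, hφ, hφ'⟩ : ∃ φ : ℕ → ℕ, StrictMono φ ∧ ∀ n, i (φ n) = j :=
    extraction_of_frequently_atTop (Nat.frequently_atTop_iff_infinite.2 hj)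
  have hW0 : ∀ n, π j (w (φ n)) ≠ 0 := by
    intro n
    have := hi (φ n)
    rw [hφ' n] at this
    exact this
  obtain ⟨z, hz⟩ := hcpt e j
  have hEsa : star (π j e) = π j e := ((IsSelfAdjoint.of_nonneg he).map (π j))
  obtain ⟨ξ, hξ, hξ'⟩ := exists_orthonormal (W := fun n => π j (w (φ n))) hW0 (by
    intro m n hmn
    change star (π j (w (φ m))) * π j (w (φ n)) = 0
    rw [← map_star, ← map_mul, (horth _ _ (hφ.injective.ne hmn)).1, map_zero])
  obtain ⟨ζ, hζ, hζ'⟩ := exists_orthonormal (W := fun n => star (π j (w (φ n))))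
    (fun n h => hW0 n (star_eq_zero.1 h)) (by
    intro m n hmn
    change star (star (π j (w (φ m)))) * star (π j (w (φ n))) = 0
    rw [star_star, ← map_star, ← map_mul, (horth _ _ (hφ.injective.ne hmn)).2, map_zero])
  have h2 : 1 - z = 0 := by
    refine eigen_zero hz hξ fun n => ?_
    obtain ⟨x, hx⟩ := hξ' n
    have h3 : π j e * π j (w (φ n)) = π j (w (φ n)) := by rw [← map_mul, (hw _).1]
    have h4 : π j e (ξ n) = ξ n := by
      rw [hx]
      exact congrArg (fun T : H j →L[ℂ] H j => T x) h3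
    rw [sub_apply, h4, smul_apply, sub_smul, one_smul]
    rfl
  have h3 : -z = 0 := by
    refine eigen_zero hz hζ fun n => ?_
    obtain ⟨x, hx⟩ := hζ' n
    have h3 : π j e * star (π j (w (φ n))) = 0 := by
      have h4 : star (π j (w (φ n)) * π j e) = 0 := by
        rw [← map_mul, (hw _).2, map_zero, star_zero]
      rwa [star_mul, hEsa] at h4
    have h4 : π j e (ζ n) = 0 := by
      rw [hx]
      exact congrArg (fun T : H j →L[ℂ] H j => T x) h3
    rw [sub_apply, h4, smul_apply, neg_smul, zero_sub]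
    rfl
  rw [neg_eq_zero] at h3
  rw [h3, sub_zero] at h2
  exact one_ne_zero h2

end Pool.Agent.Work.MP_3f690c_an
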