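import Pool.Agent.Work.MP_3f690c_an.Defs2

/-!
# A Dini type lemma modulo compact operators, and small vectors for compact operators
-/

open scoped ComplexOrder InnerProductSpace

namespace Pool.Agent.Work.MP_3f690c_an

universe u v

section
variable {H : Type u} [NormedAddCommGroup H] [InnerProductSpace ℂ H] [CompleteSpace H]

/-- The norm of a self-adjoint operator with nonnegative form is bounded by its form. -/
theorem norm_le_of_form (E : H →L[ℂ] H) (hsa : IsSelfAdjoint E)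
    (h0 : ∀ ξ, 0 ≤ (⟪ξ, E ξ⟫_ℂ).re) {γ : ℝ} (hγ : 0 ≤ γ)
    (h : ∀ ξ, (⟪ξ, E ξ⟫_ℂ).re ≤ γ * ‖ξ‖ ^ 2) : ‖E‖ ≤ γ := by
  have hE : 0 ≤ E := by
    rw [ContinuousLinearMap.nonneg_iff_isPositive, ContinuousLinearMap.isPositive_def']
    refine ⟨hsa, fun x => ?_⟩
    rw [ContinuousLinearMap.reApplyInnerSelf_apply, inner_re_symm]
    exact h0 x
  rw [CStarAlgebra.norm_le_iff_le_algebraMap E hγ hE, ContinuousLinearMap.le_def,
    ContinuousLinearMap.isPositive_def']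
  refine ⟨?_, fun x => ?_⟩
  · exact (IsSelfAdjoint.algebraMap _ (by simp [IsSelfAdjoint])).sub hsa
  · rw [ContinuousLinearMap.reApplyInnerSelf_apply]
    have h1 := h x
    have h2 : (⟪E x, x⟫_ℂ).re = (⟪x, E x⟫_ℂ).re := inner_re_symm (𝕜 := ℂ) _ _
    have h3 : (algebraMap ℝ (H →L[ℂ] H) γ) x = (γ : ℂ) • x := by
      rw [Algebra.algebraMap_eq_smul_one]
      simp
    rw [sub_apply, inner_sub_left, h3, inner_smul_left]
    have h4 : ⟪x, x⟫_ℂ = ((‖x‖ ^ 2 : ℝ) : ℂ) := by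
      rw [inner_self_eq_norm_sq_to_K]; push_cast; rfl
    rw [h4]
    simp only [Complex.conj_ofReal, map_sub, RCLike.re_to_complex, h2]
    rw [← Complex.ofReal_mul, Complex.ofReal_re]
    linarith

theorem dini (D : ℝ → H →L[ℂ] H) (hsa : ∀ ε, 0 < ε → IsSelfAdjoint (D ε))
    (hpos : ∀ ε, 0 < ε → ∀ ξ, 0 ≤ (⟪ξ, D ε ξ⟫_ℂ).re)
    (hmono : ∀ η ε, 0 < η → η ≤ ε → ∀ ξ, (⟪ξ, D η ξ⟫_ℂ).re ≤ (⟪ξ, D ε ξ⟫_ℂ).re)
    (hcomp : ∀ γ : ℝ, 0 < γ → ∃ ε : ℝ, 0 < ε ∧ ∃ C : H →L[ℂ] H, IsCompactOperator C ∧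
      ∀ ξ, (⟪ξ, D ε ξ⟫_ℂ).re ≤ γ * ‖ξ‖ ^ 2 + ‖C ξ‖ * ‖ξ‖) :
    ∀ γ : ℝ, 0 < γ → ∃ ε₀ : ℝ, 0 < ε₀ ∧ ∀ η ε, 0 < η → η ≤ ε → ε ≤ ε₀ →
      ‖D ε - D η‖ ≤ γ ∧ ∀ ξ, (⟪ξ, (D ε - D η) ξ⟫_ℂ).re ≤ γ * ‖ξ‖ ^ 2 := by
  classical
  intro γ hγ
  set g : ℝ := γ / 20 with hg
  have hg0 : 0 < g := by positivity
  obtain ⟨ε₁, hε₁, C, hC, hCf⟩ := hcomp g hg0
  -- finite net
  have htb : TotallyBounded (C '' Metric.closedBall (0 : H) 1) :=
    (hC.isCompact_closure_image_closedBall 1).totallyBounded.subset subset_closure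
  obtain ⟨t, hts, htf, htc⟩ := Metric.finite_approx_of_totallyBounded htb g hg0
  obtain ⟨t', rfl⟩ := htf.exists_finset_coe
  obtain ⟨F, hF, hFt⟩ := Finset.subset_set_image_iff.1 hts
  -- uniform smallness on the net
  have hev : ∀ x ∈ F, ∀ᶠ ε₀ in nhdsWithin (0 : ℝ) (Set.Ioi 0), ∀ η ε, 0 < η → η ≤ ε → ε ≤ ε₀ →
      (⟪x, D ε x⟫_ℂ).re - (⟪x, D η x⟫_ℂ).re ≤ g := by
    intro x _
    have hbdd : BddBelow ((fun ε : ℝ => (⟪x, D ε x⟫_ℂ).re) '' Set.Ioi 0) :=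
      ⟨0, by rintro _ ⟨ε, hε, rfl⟩; exact hpos ε hε x⟩
    have hne : ((fun ε : ℝ => (⟪x, D ε x⟫_ℂ).re) '' Set.Ioi 0).Nonempty :=
      ⟨_, ⟨1, by simp, rfl⟩⟩
    obtain ⟨_, ⟨ε₂, hε₂, rfl⟩, hlt⟩ := exists_lt_of_csInf_lt hne (lt_add_of_pos_right _ hg0)
    filter_upwards [Ioc_mem_nhdsGT (show (0 : ℝ) < ε₂ from hε₂)] with ε₀ hε₀ η ε hη hηε hεε₀
    have h1 : (⟪x, D ε x⟫_ℂ).re ≤ (⟪x, D ε₂ x⟫_ℂ).re :=
      hmono ε ε₂ (hη.trans_le hηε) (hεε₀.trans hε₀.2) x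
    have h2 := csInf_le hbdd ⟨η, hη, rfl⟩
    simp only at hlt h2
    linarith
  have hev2 := (Filter.eventually_all_finset F).2 hev
  obtain ⟨ε₀, hε₀, hε₀'⟩ := (hev2.and (Ioc_mem_nhdsGT hε₁)).exists
  refine ⟨ε₀, hε₀'.1, fun η ε hη hηε hεε₀ => ?_⟩
  have hε : 0 < ε := hη.trans_le hηε
  set E : H →L[ℂ] H := D ε - D η with hE
  have hEsa : IsSelfAdjoint E := (hsa ε hε).sub (hsa η hη)
  have hEapp : ∀ ξ, (⟪ξ, E ξ⟫_ℂ).re = (⟪ξ, D ε ξ⟫_ℂ).re - (⟪ξ, D η ξ⟫_ℂ).re := by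
    intro ξ
    rw [hE, sub_apply, inner_sub_right, Complex.sub_re]
  have hE0 : ∀ ξ, 0 ≤ (⟪ξ, E ξ⟫_ℂ).re := by
    intro ξ
    rw [hEapp]
    linarith [hmono η ε hη hηε ξ]
  have hE1 : ∀ ξ, (⟪ξ, E ξ⟫_ℂ).re ≤ g * ‖ξ‖ ^ 2 + ‖C ξ‖ * ‖ξ‖ := by
    intro ξ
    rw [hEapp]
    have h1 := hmono ε ε₁ hε (hεε₀.trans hε₀'.2) ξ
    have h2 := hpos η hη ξ
    linarith [hCf ξ]
  have hpar : ∀ a b : H, (⟪a + b, E (a + b)⟫_ℂ).re ≤
      2 * (⟪a, E a⟫_ℂ).re + 2 * (⟪b, E b⟫_ℂ).re := by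
    intro a b
    have h1 := hE0 (a - b)
    have h2 : (⟪a + b, E (a + b)⟫_ℂ).re + (⟪a - b, E (a - b)⟫_ℂ).re =
      2 * (⟪a, E a⟫_ℂ).re + 2 * (⟪b, E b⟫_ℂ).re := by
      simp only [map_add, map_sub, inner_add_left, inner_sub_left, inner_add_right,
        inner_sub_right, Complex.add_re, Complex.sub_re]
      ring
    linarith
  have hball : ∀ ξ : H, ‖ξ‖ ≤ 1 → (⟪ξ, E ξ⟫_ℂ).re ≤ γ := by
    intro ξ hξ
    have hmem : C ξ ∈ C '' Metric.closedBall (0 : H) 1 := ⟨ξ, by simpa using hξ, rfl⟩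
    have := htc hmem
    simp only [Set.mem_iUnion, Finset.mem_coe] at this
    obtain ⟨y, hy, hyb⟩ := this
    rw [← hFt, Finset.mem_image] at hy
    obtain ⟨x, hx, rfl⟩ := hy
    have hx1 : ‖x‖ ≤ 1 := by simpa using hF hx
    have hd : ‖C (ξ - x)‖ ≤ g := by
      rw [map_sub, ← dist_eq_norm]
      exact (Metric.mem_ball.1 hyb).le
    have hd2 : ‖ξ - x‖ ≤ 2 := (norm_sub_le _ _).trans (by linarith)
    have h1 := hpar (ξ - x) x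
    rw [sub_add_cancel] at h1
    have h2 := hE1 (ξ - x)
    have h3 := hε₀ x hx η ε hη hηε hεε₀
    rw [← hEapp] at h3
    have h4 : ‖ξ - x‖ ^ 2 ≤ 4 := by nlinarith [norm_nonneg (ξ - x)]
    have h5 : ‖C (ξ - x)‖ * ‖ξ - x‖ ≤ g * 2 :=
      mul_le_mul hd hd2 (norm_nonneg _) hg0.le
    have h6 : g * ‖ξ - x‖ ^ 2 ≤ g * 4 := mul_le_mul_of_nonneg_left h4 hg0.le
    have h7 : γ = 20 * g := by rw [hg]; ring
    linarith
  have hform : ∀ ξ, (⟪ξ, E ξ⟫_ℂ).re ≤ γ * ‖ξ‖ ^ 2 := by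
    intro ξ
    by_cases hξ : ξ = 0
    · simp [hξ]
    have hn : 0 < ‖ξ‖ := norm_pos_iff.2 hξ
    have h1 := hball (((‖ξ‖⁻¹ : ℝ) : ℂ) • ξ) (by
      rw [norm_smul]; simp [hn.ne'])
    have h2 : (⟪((‖ξ‖⁻¹ : ℝ) : ℂ) • ξ, E (((‖ξ‖⁻¹ : ℝ) : ℂ) • ξ)⟫_ℂ).re =
        (‖ξ‖⁻¹) ^ 2 * (⟪ξ, E ξ⟫_ℂ).re := by
      rw [map_smul, inner_smul_left, inner_smul_right, Complex.conj_ofReal, ← mul_assoc,
        ← Complex.ofReal_mul, Complex.re_ofReal_mul]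
      ring
    rw [h2] at h1
    have h3 : (⟪ξ, E ξ⟫_ℂ).re = ‖ξ‖ ^ 2 * ((‖ξ‖⁻¹) ^ 2 * (⟪ξ, E ξ⟫_ℂ).re) := by
      field_simp
    rw [h3]
    nlinarith [mul_le_mul_of_nonneg_left h1 (sq_nonneg ‖ξ‖)]
  exact ⟨norm_le_of_form E hEsa hE0 hγ.le hform, hform⟩

theorem exists_unit_small (hH : ¬ FiniteDimensional ℂ H) {L : Type} [Fintype L]
    (C : L → H →L[ℂ] H) (hC : ∀ l, IsCompactOperator (C l)) {δ : ℝ} (hδ : 0 < δ) :
    ∃ ξ : H, ‖ξ‖ = 1 ∧ ∀ l, ‖⟪ξ, C l ξ⟫_ℂ‖ ≤ δ := by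
  classical
  obtain ⟨w, b, hb⟩ := exists_hilbertBasis ℂ H
  have hw : Infinite w := by
    by_contra hfin
    rw [not_infinite_iff_finite] at hfin
    have := Fintype.ofFinite w
    exact hH (Module.Basis.finiteDimensional_of_finite b.toOrthonormalBasis.toBasis)
  let e : ℕ → H := fun n => b (Infinite.natEmbedding w n)
  have he : Orthonormal ℂ e := b.orthonormal.comp _ (Infinite.natEmbedding w).injective
  have hK : IsCompact (Set.pi Set.univ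
      (fun l : L => closure (C l '' Metric.closedBall (0 : H) 1))) :=
    isCompact_univ_pi fun l => (hC l).isCompact_closure_image_closedBall 1
  have hmem : ∀ n, (fun l => C l (e n)) ∈ Set.pi Set.univ
      (fun l : L => closure (C l '' Metric.closedBall (0 : H) 1)) := by
    intro n l _
    refine subset_closure ⟨e n, ?_, rfl⟩
    simp [he.1 n]
  obtain ⟨x, _, φ, hφ, hx⟩ := hK.tendsto_subseq hmem
  have hx' : ∀ l, Filter.Tendsto (fun n => C l (e (φ n))) Filter.atTop (nhds (x l)) :=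
    fun l => (tendsto_pi_nhds.1 hx) l
  have hz : ∀ l, Filter.Tendsto (fun n => ⟪e (φ n), C l (e (φ n))⟫_ℂ) Filter.atTop (nhds 0) := by
    intro l
    have h1 : Filter.Tendsto (fun n => ⟪e (φ n), C l (e (φ n)) - x l⟫_ℂ) Filter.atTop
        (nhds 0) := by
      have h2 : Filter.Tendsto (fun n => ‖C l (e (φ n)) - x l‖) Filter.atTop (nhds 0) :=
        tendsto_iff_norm_sub_tendsto_zero.1 (hx' l)
      refine squeeze_zero_norm (fun n => ?_) h2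
      refine (norm_inner_le_norm _ _).trans ?_
      rw [he.1, one_mul]
    have h3 : Filter.Tendsto (fun n => ⟪e (φ n), x l⟫_ℂ) Filter.atTop (nhds 0) := by
      have h4 := (he.inner_products_summable (x := x l)).tendsto_atTop_zero
      have h5 : Filter.Tendsto (fun n => ⟪e n, x l⟫_ℂ) Filter.atTop (nhds 0) := by
        rw [tendsto_zero_iff_norm_tendsto_zero]
        have h6 := (Real.continuous_sqrt.tendsto 0).comp h4
        simpa [Function.comp_def, Real.sqrt_sq (norm_nonneg _)] using h6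
      exact h5.comp hφ.tendsto_atTop
    have h7 := h1.add h3
    simpa [inner_sub_right] using h7
  have hall : ∀ᶠ n in Filter.atTop, ∀ l, ‖⟪e (φ n), C l (e (φ n))⟫_ℂ‖ ≤ δ := by
    rw [Filter.eventually_all]
    intro l
    have h8 := (tendsto_zero_iff_norm_tendsto_zero.1 (hz l)).eventually (gt_mem_nhds hδ)
    exact h8.mono fun n hn => hn.le
  obtain ⟨n, hn⟩ := hall.exists
  exact ⟨e (φ n), he.1 _, hn⟩

end

end Pool.Agent.Work.MP_3f690c_an
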