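import Pool.Agent.Work.MP_3f690c_an.Defs2

/-!
# Finite-dimensional Toeplitz forms: singular case, compactness dichotomy, tensoring
-/

open scoped ComplexOrder InnerProductSpace

namespace Pool.Agent.Work.MP_3f690c_an

universe u v

theorem qf_eq_range (t : ℤ → ℂ) (k : ℕ) (U : ℕ → ℂ) :
    qf t k (fun i => U i) = ∑ i ∈ Finset.range k, ∑ j ∈ Finset.range k,
      star (U i) * t ((i : ℤ) - (j : ℤ)) * U j := by
  unfold qf
  rw [Finset.sum_range]
  refine Finset.sum_congr rfl fun i _ => ?_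
  rw [Finset.sum_range]

theorem sum_range_shift {n m : ℕ} {g : ℕ → ℂ} (h : ∀ i, i < n → g i = 0) :
    ∑ i ∈ Finset.range (n + m), g i = ∑ i ∈ Finset.range m, g (n + i) := by
  rw [Finset.sum_range_add, Finset.sum_eq_zero (s := Finset.range n), zero_add]
  intro i hi
  exact h i (Finset.mem_range.1 hi)

theorem sum_range_extend {n m : ℕ} (hnm : n ≤ m) {g : ℕ → ℂ} (h : ∀ i, n ≤ i → g i = 0) :
    ∑ i ∈ Finset.range m, g i = ∑ i ∈ Finset.range n, g i := by
  symm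
  apply Finset.sum_subset
  · intro i hi
    rw [Finset.mem_range] at *
    omega
  · intro i _ hi
    rw [Finset.mem_range] at hi
    exact h i (by omega)

/-- extension by zero -/
def ext0 {k : ℕ} (u : Fin k → ℂ) (i : ℕ) : ℂ := if h : i < k then u ⟨i, h⟩ else 0

theorem ext0_coe {k : ℕ} (u : Fin k → ℂ) (i : Fin k) : ext0 u i = u i := by
  simp [ext0]

theorem ext0_of_le {k : ℕ} (u : Fin k → ℂ) {i : ℕ} (h : k ≤ i) : ext0 u i = 0 := by
  simp [ext0, not_lt.2 h]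

theorem qf_ext0 (t : ℤ → ℂ) (k : ℕ) (u : Fin k → ℂ) {m : ℕ} (hkm : k ≤ m) :
    qf t m (fun i => ext0 u i) = qf t k u := by
  have h1 : qf t k u = qf t k (fun i => ext0 u i) := by
    congr 1; ext i; rw [ext0_coe]
  rw [h1, qf_eq_range, qf_eq_range]
  rw [sum_range_extend hkm]
  · refine Finset.sum_congr rfl fun i _ => ?_
    rw [sum_range_extend hkm]
    intro j hj
    rw [ext0_of_le u hj, mul_zero]
  · intro i hi
    refine Finset.sum_eq_zero fun j _ => ?_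
    rw [ext0_of_le u hi, star_zero, zero_mul, zero_mul]

theorem qf_smul (t : ℤ → ℂ) (k : ℕ) (z : ℂ) (v : Fin k → ℂ) :
    qf t k (fun i => z * v i) = (‖z‖ : ℂ) ^ 2 * qf t k v := by
  unfold qf
  rw [Finset.mul_sum]
  refine Finset.sum_congr rfl fun i _ => ?_
  rw [Finset.mul_sum]
  refine Finset.sum_congr rfl fun j _ => ?_
  have h : star z * z = (‖z‖ : ℂ) ^ 2 := by
    have := Complex.conj_mul' z
    simpa using this
  rw [← h, star_mul']
  ring

theorem scalar_singular (t : ℤ → ℂ) (k : ℕ) (u : Fin k → ℂ) (hu : u ≠ 0) (h0 : qf t k u = 0) :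
    ∃ v : Fin (k + 1) → ℂ, v 0 = 1 ∧ qf t (k + 1) v = 0 := by
  have hex : ∃ j : ℕ, ext0 u j ≠ 0 := by
    by_contra hcon
    push Not at hcon
    apply hu
    ext i
    rw [← ext0_coe u i, hcon]
    rfl
  classical
  set n := Nat.find hex with hn
  have hn0 : ext0 u n ≠ 0 := Nat.find_spec hex
  have hlt : ∀ i, i < n → ext0 u i = 0 := fun i hi => by
    by_contra h
    exact Nat.find_min hex hi h
  refine ⟨fun i => (ext0 u n)⁻¹ * ext0 u (n + i), ?_, ?_⟩
  · simp [hn0]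
  · rw [qf_smul t (k + 1) _ (fun i : Fin (k + 1) => ext0 u (n + i))]
    have h1 : qf t (k + 1) (fun i : Fin (k + 1) => ext0 u (n + i)) = 0 := by
      rw [qf_eq_range t (k + 1) (fun i => ext0 u (n + i))]
      have h2 : ∀ i j : ℕ, star (ext0 u (n + i)) * t ((i : ℤ) - (j : ℤ)) * ext0 u (n + j) =
          star (ext0 u (n + i)) * t (((n + i : ℕ) : ℤ) - ((n + j : ℕ) : ℤ)) *
            ext0 u (n + j) := by
        intro i j
        congr 3
        push_cast
        ring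
      simp_rw [h2]
      rw [← sum_range_shift (n := n) (g := fun i => ∑ j ∈ Finset.range (k + 1),
        star (ext0 u i) * t ((i : ℤ) - ((n + j : ℕ) : ℤ)) * ext0 u (n + j))]
      · have h3 : ∀ i : ℕ, ∑ j ∈ Finset.range (k + 1),
            star (ext0 u i) * t ((i : ℤ) - ((n + j : ℕ) : ℤ)) * ext0 u (n + j) =
            ∑ j ∈ Finset.range (n + (k + 1)),
              star (ext0 u i) * t ((i : ℤ) - (j : ℤ)) * ext0 u j := by
          intro i
          rw [← sum_range_shift (n := n) (g := fun j =>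
            star (ext0 u i) * t ((i : ℤ) - (j : ℤ)) * ext0 u j)]
          intro j hj
          rw [hlt j hj, mul_zero]
        simp_rw [h3]
        rw [← qf_eq_range t (n + (k + 1)) (ext0 u), qf_ext0 t k u (by omega), h0]
      · intro i hi
        refine Finset.sum_eq_zero fun j _ => ?_
        rw [hlt i hi, star_zero, zero_mul, zero_mul]
    rw [h1, mul_zero]

theorem tendsto_qf {k : ℕ} {τ : ℕ → ℤ → ℂ} {υ : ℕ → Fin k → ℂ} {t : ℤ → ℂ} {u : Fin k → ℂ}
    (h1 : Filter.Tendsto τ Filter.atTop (nhds t)) (h2 : Filter.Tendsto υ Filter.atTop (nhds u)) :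
    Filter.Tendsto (fun n => qf (τ n) k (υ n)) Filter.atTop (nhds (qf t k u)) := by
  unfold qf
  refine tendsto_finsetSum _ fun i _ => tendsto_finsetSum _ fun j _ => ?_
  exact ((tendsto_pi_nhds.1 h2 i).star.mul (tendsto_pi_nhds.1 h1 _)).mul (tendsto_pi_nhds.1 h2 j)

theorem isCompact_sphere' (k : ℕ) : IsCompact {u : Fin k → ℂ | ∑ i, ‖u i‖ ^ 2 = 1} := by
  apply Metric.isCompact_of_isClosed_isBounded
  · exact isClosed_eq (by fun_prop) continuous_const
  · refine (Metric.isBounded_closedBall (x := (0 : Fin k → ℂ)) (r := 1)).subset fun u hu => ?_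
    rw [mem_closedBall_zero_iff, pi_norm_le_iff_of_nonneg zero_le_one]
    intro i
    have h1 : ‖u i‖ ^ 2 ≤ ∑ i, ‖u i‖ ^ 2 :=
      Finset.single_le_sum (f := fun i => ‖u i‖ ^ 2) (fun j _ => by positivity)
        (Finset.mem_univ i)
    rw [hu] at h1
    nlinarith [norm_nonneg (u i)]

theorem exists_normalized {k : ℕ} {u : Fin k → ℂ} (h : 0 < ∑ i, ‖u i‖ ^ 2) :
    ∃ w : Fin k → ℂ, ∑ i, ‖w i‖ ^ 2 = 1 ∧ ∀ t, qf t k u = ((∑ i, ‖u i‖ ^ 2 : ℝ) : ℂ) * qf t k w := by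
  set N := ∑ i, ‖u i‖ ^ 2 with hN
  refine ⟨fun i => (((Real.sqrt N)⁻¹ : ℝ) : ℂ) * u i, ?_, fun t => ?_⟩
  · have : ∀ i, ‖(((Real.sqrt N)⁻¹ : ℝ) : ℂ) * u i‖ ^ 2 = N⁻¹ * ‖u i‖ ^ 2 := by
      intro i
      rw [norm_mul, mul_pow, Complex.norm_real, Real.norm_eq_abs, sq_abs, inv_pow,
        Real.sq_sqrt h.le]
    simp_rw [this]
    rw [← Finset.mul_sum, ← hN, inv_mul_cancel₀ h.ne']
  · rw [qf_smul, Complex.norm_real, Real.norm_eq_abs, ← Complex.ofReal_pow, sq_abs, inv_pow,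
      Real.sq_sqrt h.le, ← mul_assoc, ← Complex.ofReal_mul, mul_inv_cancel₀ h.ne']
    simp

theorem scalar_posdef (t : ℤ → ℂ) (k : ℕ) (ht : ∀ u : Fin k → ℂ, 0 ≤ qf t k u)
    (h : ∀ u : Fin k → ℂ, u ≠ 0 → qf t k u ≠ 0) :
    ∃ σ : ℝ, 0 < σ ∧ ∀ u : Fin k → ℂ, σ * ∑ i, ‖u i‖ ^ 2 ≤ (qf t k u).re := by
  have hcont : Continuous fun u : Fin k → ℂ => (qf t k u).re := by
    unfold qf
    fun_prop
  have hsum0 : ∀ u : Fin k → ℂ, 0 ≤ ∑ i, ‖u i‖ ^ 2 := fun u =>
    Finset.sum_nonneg fun i _ => by positivity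
  rcases Set.eq_empty_or_nonempty {u : Fin k → ℂ | ∑ i, ‖u i‖ ^ 2 = 1} with he | hne
  · refine ⟨1, one_pos, fun u => ?_⟩
    rcases (hsum0 u).eq_or_lt with h1 | h1
    · rw [← h1, mul_zero]
      exact (Complex.nonneg_iff.1 (ht u)).1
    · obtain ⟨w, hw, -⟩ := exists_normalized h1
      exact absurd hw (Set.eq_empty_iff_forall_notMem.1 he w)
  · obtain ⟨u₀, hu₀, hmin⟩ := (isCompact_sphere' k).exists_isMinOn hne hcont.continuousOn
    have hu0 : u₀ ≠ 0 := by
      rintro rfl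
      simp at hu₀
    have hpos : 0 < (qf t k u₀).re := by
      have h1 := Complex.nonneg_iff.1 (ht u₀)
      rcases h1.1.eq_or_lt with h2 | h2
      · exfalso
        apply h u₀ hu0
        apply Complex.ext
        · exact h2.symm
        · exact h1.2.symm
      · exact h2
    refine ⟨(qf t k u₀).re, hpos, fun u => ?_⟩
    rcases (hsum0 u).eq_or_lt with h1 | h1
    · rw [← h1, mul_zero]
      exact (Complex.nonneg_iff.1 (ht u)).1
    · obtain ⟨w, hw, hqw⟩ := exists_normalized h1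
      rw [hqw t, Complex.re_ofReal_mul]
      have h2 : (qf t k u₀).re ≤ (qf t k w).re := hmin hw
      nlinarith

theorem exists_qf_two (t : ℤ → ℂ) {m : ℕ} {a b : Fin m} (hab : a ≠ b) (x y : ℂ) :
    ∃ v : Fin m → ℂ, qf t m v = (star x * t 0 * x + star x * t ((a : ℤ) - (b : ℤ)) * y) +
      (star y * t ((b : ℤ) - (a : ℤ)) * x + star y * t 0 * y) := by
  refine ⟨fun c => if c = a then x else if c = b then y else 0, ?_⟩
  have hv : ∀ c : Fin m, c ≠ a ∧ c ≠ b → (if c = a then x else if c = b then y else 0) = 0 := by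
    rintro c ⟨h1, h2⟩
    rw [if_neg h1, if_neg h2]
  unfold qf
  rw [Fintype.sum_eq_add a b hab]
  · rw [Fintype.sum_eq_add a b hab, Fintype.sum_eq_add a b hab]
    · simp [hab.symm]
    · intro c hc
      dsimp only
      rw [hv c hc, mul_zero]
    · intro c hc
      dsimp only
      rw [hv c hc, mul_zero]
  · intro c hc
    refine Finset.sum_eq_zero fun j _ => ?_
    dsimp only
    rw [hv c hc, star_zero, zero_mul, zero_mul]

theorem norm_le_of_forms {T p q : ℂ} (h1 : 0 ≤ 2 * T + p + q) (h2 : 0 ≤ 2 * T - p - q)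
    (h3 : 0 ≤ 2 * T + Complex.I * p - Complex.I * q)
    (h4 : 0 ≤ 2 * T - Complex.I * p + Complex.I * q) (hT : 0 ≤ T) :
    ‖p‖ ≤ 2 * T.re ∧ ‖q‖ ≤ 2 * T.re := by
  rw [Complex.nonneg_iff] at h1 h2 h3 h4 hT
  simp only [Complex.add_re, Complex.add_im, Complex.sub_re, Complex.sub_im, Complex.mul_re,
    Complex.mul_im, Complex.I_re, Complex.I_im, Complex.re_ofNat, Complex.im_ofNat] at h1 h2 h3 h4
  have hTi : T.im = 0 := hT.2.symm
  have hpq1 : p.im + q.im = 0 := by linarith [h1.2]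
  have hpq2 : p.re - q.re = 0 := by linarith [h3.2]
  have a1 : |p.re| ≤ T.re := by rw [abs_le]; constructor <;> linarith [h1.1, h2.1]
  have a2 : |p.im| ≤ T.re := by rw [abs_le]; constructor <;> linarith [h3.1, h4.1]
  have a3 : |q.re| ≤ T.re := by rw [abs_le]; constructor <;> linarith [h1.1, h2.1]
  have a4 : |q.im| ≤ T.re := by rw [abs_le]; constructor <;> linarith [h3.1, h4.1]
  exact ⟨(Complex.norm_le_abs_re_add_abs_im p).trans (by linarith),
    (Complex.norm_le_abs_re_add_abs_im q).trans (by linarith)⟩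

/-- entries of a positive semidefinite Toeplitz matrix are bounded by the diagonal -/
theorem norm_entry_le (t : ℤ → ℂ) (k : ℕ) (h : ∀ v : Fin (k + 1) → ℂ, 0 ≤ qf t (k + 1) v)
    (l : ℤ) (hl : |l| ≤ k) : ‖t l‖ ≤ 2 * (t 0).re := by
  have hT : 0 ≤ t 0 := by
    have h1 := h (fun i => if i = 0 then 1 else 0)
    unfold qf at h1
    rw [Fintype.sum_eq_single 0, Fintype.sum_eq_single 0] at h1
    · simpa using h1
    · intro c hc
      dsimp only
      rw [if_neg hc, mul_zero]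
    · intro c hc
      refine Finset.sum_eq_zero fun j _ => ?_
      dsimp only
      rw [if_neg hc, star_zero, zero_mul, zero_mul]
  rcases eq_or_ne l 0 with rfl | hl0
  · have h1 := Complex.nonneg_iff.1 hT
    have h2 : t 0 = (((t 0).re : ℝ) : ℂ) := by
      apply Complex.ext
      · simp
      · simpa using h1.2.symm
    rw [h2, Complex.norm_real, Real.norm_eq_abs, abs_of_nonneg h1.1, Complex.ofReal_re]
    linarith [h1.1]
  · set n := l.natAbs with hn
    have hn0 : n ≠ 0 := by omega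
    have hnk : n < k + 1 := by
      have : (n : ℤ) = |l| := by rw [hn]; exact Int.natCast_natAbs l
      omega
    set a : Fin (k + 1) := ⟨n, hnk⟩ with ha
    have hab : a ≠ 0 := by
      intro h1
      apply hn0
      have := congrArg Fin.val h1
      simpa [ha] using this
    have hka : ((a : ℕ) : ℤ) - (((0 : Fin (k + 1)) : ℕ) : ℤ) = n := by simp [ha]
    have hkb : (((0 : Fin (k + 1)) : ℕ) : ℤ) - ((a : ℕ) : ℤ) = -n := by simp [ha]
    have key : ∀ x y : ℂ, 0 ≤ (star x * t 0 * x + star x * t n * y) +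
      (star y * t (-n) * x + star y * t 0 * y) := by
      intro x y
      obtain ⟨v, hv⟩ := exists_qf_two t hab x y
      rw [hka, hkb] at hv
      rw [← hv]
      exact h v
    have k1 := key 1 1
    have k2 := key 1 (-1)
    have k3 := key 1 Complex.I
    have k4 := key 1 (-Complex.I)
    simp only [star_one, one_mul, mul_one, star_neg, Complex.star_def, Complex.conj_I] at k1 k2 k3 k4
    have hI : Complex.I * Complex.I = -1 := Complex.I_mul_I
    have e1 : 2 * t 0 + t n + t (-n) = t 0 + t n + (t (-n) + t 0) := by ring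
    have e2 : 2 * t 0 - t n - t (-n) = t 0 + t n * -1 + (-1 * t (-n) + -1 * t 0 * -1) := by ring
    have e3 : 2 * t 0 + Complex.I * t n - Complex.I * t (-n) =
        t 0 + t n * Complex.I + (-Complex.I * t (-n) + -Complex.I * t 0 * Complex.I) := by
      linear_combination (t 0) * hI
    have e4 : 2 * t 0 - Complex.I * t n + Complex.I * t (-n) =
        t 0 + t n * -Complex.I + (Complex.I * t (-n) + Complex.I * t 0 * -Complex.I) := by
      linear_combination (t 0) * hI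
    have hb := norm_le_of_forms (T := t 0) (p := t n) (q := t (-n)) (by rw [e1]; exact k1)
      (by rw [e2]; exact k2) (by rw [e3]; simpa using k3) (by rw [e4]; simpa using k4) hT
    rcases Int.natAbs_eq l with h5 | h5
    · rw [h5, ← hn]; exact hb.1
    · rw [h5, ← hn]; exact hb.2

theorem qf_trunc (t : ℤ → ℂ) (k m : ℕ) (hm : m ≤ k + 1) (v : Fin m → ℂ) :
    qf (fun l => if |l| ≤ k then t l else 0) m v = qf t m v := by
  unfold qf
  refine Finset.sum_congr rfl fun i _ => Finset.sum_congr rfl fun j _ => ?_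
  have : |((i : ℕ) : ℤ) - ((j : ℕ) : ℤ)| ≤ k := by
    have := i.2
    have := j.2
    rw [abs_le]; constructor <;> omega
  dsimp only
  rw [if_pos this]

/-- limits of positive forms -/
theorem limit_argument (k : ℕ) {R c : ℝ} (hc : 0 < c) {τ : ℕ → ℤ → ℂ} {υ : ℕ → Fin k → ℂ}
    {ε : ℕ → ℝ} (hε : Filter.Tendsto ε Filter.atTop (nhds 0))
    (hτb : ∀ n l, ‖τ n l‖ ≤ R)
    (hτp : ∀ n, ∀ v : Fin (k + 1) → ℂ, 0 ≤ qf (τ n) (k + 1) v)
    (hυ1 : ∀ n, ∑ i, ‖υ n i‖ ^ 2 = 1) (hυ2 : ∀ n, (qf (τ n) k (υ n)).re ≤ ε n) :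
    ∃ v : Fin (k + 1) → ℂ, v 0 = 1 ∧ ∃ φ : ℕ → ℕ, StrictMono φ ∧
      ∀ᶠ n in Filter.atTop, (qf (τ (φ n)) (k + 1) v).re < c := by
  have hK : IsCompact ((Set.univ.pi fun _ : ℤ => Metric.closedBall (0 : ℂ) R) ×ˢ
      {u : Fin k → ℂ | ∑ i, ‖u i‖ ^ 2 = 1}) :=
    (isCompact_univ_pi fun _ => isCompact_closedBall _ _).prod (isCompact_sphere' k)
  have hin : ∀ n, (τ n, υ n) ∈ ((Set.univ.pi fun _ : ℤ => Metric.closedBall (0 : ℂ) R) ×ˢ
      {u : Fin k → ℂ | ∑ i, ‖u i‖ ^ 2 = 1}) := by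
    intro n
    refine ⟨fun l _ => ?_, hυ1 n⟩
    rw [mem_closedBall_zero_iff]
    exact hτb n l
  obtain ⟨p, hmem, φ, hφ, hlim⟩ := hK.tendsto_subseq hin
  have hu1 : ∑ i, ‖p.2 i‖ ^ 2 = 1 := hmem.2
  have hlt : Filter.Tendsto (fun n => τ (φ n)) Filter.atTop (nhds p.1) :=
    (continuous_fst.tendsto _).comp hlim
  have hlu : Filter.Tendsto (fun n => υ (φ n)) Filter.atTop (nhds p.2) :=
    (continuous_snd.tendsto _).comp hlim
  have hq1 : Filter.Tendsto (fun n => qf (τ (φ n)) k (υ (φ n))) Filter.atTop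
      (nhds (qf p.1 k p.2)) := tendsto_qf hlt hlu
  have hqv : ∀ v : Fin (k + 1) → ℂ,
      Filter.Tendsto (fun n => qf (τ (φ n)) (k + 1) v) Filter.atTop
        (nhds (qf p.1 (k + 1) v)) := fun v => tendsto_qf hlt tendsto_const_nhds
  have hpos : ∀ v : Fin (k + 1) → ℂ, 0 ≤ qf p.1 (k + 1) v := by
    intro v
    exact ge_of_tendsto' (hqv v) fun n => hτp (φ n) v
  have hu0 : p.2 ≠ 0 := by
    intro h0
    rw [h0] at hu1
    simp at hu1
  have hqu : qf p.1 k p.2 = 0 := by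
    have h1 : 0 ≤ qf p.1 k p.2 := by
      rw [← qf_ext0 p.1 k p.2 (Nat.le_succ k)]
      exact hpos _
    have h2 : (qf p.1 k p.2).re ≤ 0 := by
      have h3 : Filter.Tendsto (fun n => (qf (τ (φ n)) k (υ (φ n))).re) Filter.atTop
          (nhds (qf p.1 k p.2).re) := (Complex.continuous_re.tendsto _).comp hq1
      have h4 : Filter.Tendsto (fun n : ℕ => ε (φ n)) Filter.atTop (nhds 0) :=
        hε.comp hφ.tendsto_atTop
      exact le_of_tendsto_of_tendsto' h3 h4 fun n => hυ2 (φ n)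
    rw [Complex.nonneg_iff] at h1
    exact Complex.ext (le_antisymm h2 h1.1) h1.2.symm
  obtain ⟨v, hv0, hqv0⟩ := scalar_singular p.1 k p.2 hu0 hqu
  have h5 : Filter.Tendsto (fun n => (qf (τ (φ n)) (k + 1) v).re) Filter.atTop (nhds 0) := by
    have := (Complex.continuous_re.tendsto _).comp (hqv v)
    rw [hqv0, Complex.zero_re] at this
    exact this
  exact ⟨v, hv0, φ, hφ, h5.eventually (gt_mem_nhds hc)⟩

theorem scalar_dichotomy (k : ℕ) (M c : ℝ) (hc : 0 < c) :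
    ∃ σ : ℝ, 0 < σ ∧ ∃ V : ℝ, 0 ≤ V ∧ ∀ t : ℤ → ℂ, (t 0).re ≤ M →
      (∀ v : Fin (k + 1) → ℂ, 0 ≤ qf t (k + 1) v) →
      (∀ u : Fin k → ℂ, σ * ∑ i, ‖u i‖ ^ 2 ≤ (qf t k u).re) ∨
      ∃ v : Fin (k + 1) → ℂ, v 0 = 1 ∧ ∑ i, ‖v i‖ ^ 2 ≤ V ∧ (qf t (k + 1) v).re ≤ c := by
  by_contra hcon
  push Not at hcon
  have hseq : ∀ n : ℕ, ∃ t : ℤ → ℂ, (∀ l, ‖t l‖ ≤ 2 * |M|) ∧
      (∀ v : Fin (k + 1) → ℂ, 0 ≤ qf t (k + 1) v) ∧
      (∃ u : Fin k → ℂ, ∑ i, ‖u i‖ ^ 2 = 1 ∧ (qf t k u).re ≤ 1 / ((n : ℝ) + 1)) ∧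
      ∀ v : Fin (k + 1) → ℂ, v 0 = 1 → ∑ i, ‖v i‖ ^ 2 ≤ n → c < (qf t (k + 1) v).re := by
    intro n
    obtain ⟨t, htM, htp, ⟨u, hu⟩, hv⟩ := hcon (1 / ((n : ℝ) + 1)) (by positivity) n
      (Nat.cast_nonneg n)
    refine ⟨fun l => if |l| ≤ k then t l else 0, ?_, ?_, ?_, ?_⟩
    · intro l
      dsimp only
      split_ifs with hl
      · exact (norm_entry_le t k htp l hl).trans (by linarith [le_abs_self M])
      · rw [norm_zero]; positivity
    · intro v
      rw [qf_trunc t k (k + 1) le_rfl v]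
      exact htp v
    · have hpk : 0 ≤ (qf t k u).re := by
        rw [← qf_ext0 t k u (Nat.le_succ k)]
        exact (Complex.nonneg_iff.1 (htp _)).1
      have hN : 0 < ∑ i, ‖u i‖ ^ 2 := by
        by_contra h0
        have h1 : ∑ i, ‖u i‖ ^ 2 = 0 :=
          le_antisymm (not_lt.1 h0) (Finset.sum_nonneg fun i _ => by positivity)
        rw [h1, mul_zero] at hu
        linarith
      obtain ⟨w, hw, hqw⟩ := exists_normalized hN
      refine ⟨w, hw, ?_⟩
      rw [qf_trunc t k k (Nat.le_succ k) w]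
      rw [hqw t, Complex.re_ofReal_mul] at hu
      have h2 : (∑ i, ‖u i‖ ^ 2) * (qf t k w).re < (∑ i, ‖u i‖ ^ 2) * (1 / ((n : ℝ) + 1)) := by
        linarith
      exact (lt_of_mul_lt_mul_left h2 hN.le).le
    · intro v hv0 hvn
      rw [qf_trunc t k (k + 1) le_rfl v]
      exact hv v hv0 hvn
  choose τ hτb hτp hτu hτv using hseq
  choose υ hυ1 hυ2 using hτu
  obtain ⟨v, hv0, φ, hφ, h6⟩ := limit_argument k hc (ε := fun n : ℕ => 1 / ((n : ℝ) + 1))
    tendsto_one_div_add_atTop_nhds_zero_nat hτb hτp hυ1 hυ2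
  have h7 : ∀ᶠ n in Filter.atTop, ∑ i, ‖v i‖ ^ 2 ≤ ((φ n : ℕ) : ℝ) :=
    (tendsto_natCast_atTop_atTop.comp hφ.tendsto_atTop).eventually_ge_atTop _
  obtain ⟨n, hn1, hn2⟩ := (h6.and h7).exists
  exact absurd (hτv (φ n) v hv0 hn2) (not_lt.2 hn1.le)

open scoped MatrixOrder in
theorem exists_gram_factor {H : Type u} [NormedAddCommGroup H] [InnerProductSpace ℂ H]
    (k : ℕ) (ξ : Fin k → H) : ∃ C : Fin k → Fin k → ℂ,
      ∀ i j, ⟪ξ i, ξ j⟫_ℂ = ∑ l, star (C l i) * C l j := by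
  obtain ⟨C, hC⟩ := CStarAlgebra.nonneg_iff_eq_star_mul_self.mp
    (Matrix.posSemidef_gram ℂ ξ).nonneg
  refine ⟨C, fun i j => ?_⟩
  have h1 := congrFun (congrFun hC i) j
  rw [Matrix.gram_apply, Matrix.mul_apply] at h1
  rw [h1]
  rfl

theorem qf_tensor {H : Type u} [NormedAddCommGroup H] [InnerProductSpace ℂ H]
    (t : ℤ → ℂ) (k : ℕ) {σ : ℝ}
    (h : ∀ u : Fin k → ℂ, σ * ∑ i, ‖u i‖ ^ 2 ≤ (qf t k u).re) (ξ : Fin k → H) :
    σ * ∑ i, ‖ξ i‖ ^ 2 ≤ (∑ i : Fin k, ∑ j : Fin k, t ((i : ℤ) - (j : ℤ)) * ⟪ξ i, ξ j⟫_ℂ).re := by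
  obtain ⟨C, hij⟩ := exists_gram_factor k ξ
  have h2 : ∑ i : Fin k, ∑ j : Fin k, t ((i : ℤ) - (j : ℤ)) * ⟪ξ i, ξ j⟫_ℂ =
      ∑ l, qf t k (C l) := by
    unfold qf
    rw [Finset.sum_comm (s := Finset.univ) (t := Finset.univ)
      (f := fun l i => ∑ j : Fin k, star (C l i) * t ((i : ℤ) - (j : ℤ)) * C l j)]
    refine Finset.sum_congr rfl fun i _ => ?_
    rw [Finset.sum_comm (s := Finset.univ) (t := Finset.univ)
      (f := fun l (j : Fin k) => star (C l i) * t ((i : ℤ) - (j : ℤ)) * C l j)]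
    refine Finset.sum_congr rfl fun j _ => ?_
    rw [hij, Finset.mul_sum]
    refine Finset.sum_congr rfl fun l _ => ?_
    ring
  rw [h2, Complex.re_sum]
  have h3 : ∑ i, ‖ξ i‖ ^ 2 = ∑ l, ∑ i, ‖C l i‖ ^ 2 := by
    rw [Finset.sum_comm]
    refine Finset.sum_congr rfl fun i _ => ?_
    have h4 := hij i i
    rw [inner_self_eq_norm_sq_to_K] at h4
    have h5 : ∀ l, star (C l i) * C l i = ((‖C l i‖ ^ 2 : ℝ) : ℂ) := by
      intro l
      have := Complex.conj_mul' (C l i)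
      push_cast
      simpa using this
    simp_rw [h5] at h4
    have h6 : ((‖ξ i‖ ^ 2 : ℝ) : ℂ) = ((∑ l, ‖C l i‖ ^ 2 : ℝ) : ℂ) := by
      push_cast
      simpa using h4
    exact Complex.ofReal_injective h6
  rw [h3, Finset.mul_sum]
  exact Finset.sum_le_sum fun l _ => h (C l)

end Pool.Agent.Work.MP_3f690c_an
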