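import Pool.Agent.Work.MP_3f690c_an.Operator
import Pool.Agent.Work.MP_3f690c_an.Scalar
import Pool.Agent.Work.MP_3f690c_an.Dini

/-!
# Operator matrices on `H^k`
-/

open scoped ComplexOrder InnerProductSpace

namespace Pool.Agent.Work.MP_3f690c_an

universe u v

/-- The Hilbert space `H^k`. -/
abbrev HK (H : Type u) (k : ℕ) : Type u := PiLp 2 (fun _ : Fin k => H)

section
variable {H : Type u} [NormedAddCommGroup H] [InnerProductSpace ℂ H] {k : ℕ}

/-- The operator on `H^k` with operator matrix `M`. -/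
noncomputable def mat (M : Fin k → Fin k → H →L[ℂ] H) : HK H k →L[ℂ] HK H k :=
  (PiLp.continuousLinearEquiv 2 ℂ (fun _ : Fin k => H)).symm.toContinuousLinearMap ∘L
    ContinuousLinearMap.pi (fun i => ∑ j, M i j ∘L PiLp.proj 2 (fun _ : Fin k => H) j)

/-- The row operator `H^k → H`. -/
noncomputable def rowOp (f : Fin k → H →L[ℂ] H) : HK H k →L[ℂ] H :=
  ∑ j, f j ∘L PiLp.proj 2 (fun _ : Fin k => H) j

/-- The column operator `H → H^k`. -/
noncomputable def colOp (f : Fin k → H →L[ℂ] H) : H →L[ℂ] HK H k :=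
  (PiLp.continuousLinearEquiv 2 ℂ (fun _ : Fin k => H)).symm.toContinuousLinearMap ∘L
    ContinuousLinearMap.pi f

theorem mat_apply (M : Fin k → Fin k → H →L[ℂ] H) (w : HK H k) (i : Fin k) :
    mat M w i = ∑ j, M i j (w j) := by
  simp [mat]

theorem rowOp_apply (f : Fin k → H →L[ℂ] H) (w : HK H k) :
    rowOp f w = ∑ j, f j (w j) := by
  simp [rowOp]

theorem colOp_apply (f : Fin k → H →L[ℂ] H) (ξ : H) (i : Fin k) :
    colOp f ξ i = f i ξ := by
  simp [colOp]

theorem inner_mat (M : Fin k → Fin k → H →L[ℂ] H) (v w : HK H k) :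
    ⟪v, mat M w⟫_ℂ = ∑ i, ∑ j, ⟪v i, M i j (w j)⟫_ℂ := by
  simp [PiLp.inner_apply, mat_apply, inner_sum]

theorem inner_colOp (f : Fin k → H →L[ℂ] H) (v : HK H k) (ξ : H) :
    ⟪v, colOp f ξ⟫_ℂ = ∑ i, ⟪v i, f i ξ⟫_ℂ := by
  simp [PiLp.inner_apply, colOp_apply]

theorem inner_rowOp (f : Fin k → H →L[ℂ] H) (ξ : H) (w : HK H k) :
    ⟪ξ, rowOp f w⟫_ℂ = ∑ i, ⟪ξ, f i (w i)⟫_ℂ := by
  simp [rowOp_apply]

theorem mat_mul (M N : Fin k → Fin k → H →L[ℂ] H) :
    mat M * mat N = mat (fun i j => ∑ l, M i l * N l j) := by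
  ext w i
  rw [mul_apply_eq_comp, mat_apply, mat_apply]
  simp only [mat_apply, map_sum, sum_apply, mul_apply_eq_comp]
  rw [Finset.sum_comm]

theorem mat_one : mat (fun i j : Fin k => if i = j then (1 : H →L[ℂ] H) else 0) = 1 := by
  ext w i
  rw [mat_apply]
  simp only [one_apply_eq_self]
  rw [Finset.sum_eq_single i]
  · simp
  · intro j _ hj
    simp [Ne.symm hj]
  · simp

theorem mat_add (M N : Fin k → Fin k → H →L[ℂ] H) :
    mat M + mat N = mat (fun i j => M i j + N i j) := by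
  ext w i
  simp [mat_apply, Finset.sum_add_distrib]

theorem mat_smul (c : ℂ) (M : Fin k → Fin k → H →L[ℂ] H) :
    c • mat M = mat (fun i j => c • M i j) := by
  ext w i
  simp [mat_apply, Finset.smul_sum]

theorem norm_sq_HK (w : HK H k) : ‖w‖ ^ 2 = ∑ i, ‖w i‖ ^ 2 :=
  PiLp.norm_sq_eq_of_L2 _ w

theorem rowOp_mat_colOp (f : Fin k → H →L[ℂ] H) (M : Fin k → Fin k → H →L[ℂ] H)
    (g : Fin k → H →L[ℂ] H) :
    rowOp f ∘L mat M ∘L colOp g = ∑ i, ∑ j, f i * M i j * g j := by
  ext ξ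
  simp [rowOp_apply, mat_apply, colOp_apply, map_sum]

theorem rowOp_colOp (f g : Fin k → H →L[ℂ] H) :
    rowOp f ∘L colOp g = ∑ i, f i * g i := by
  ext ξ
  simp [rowOp_apply, colOp_apply]

theorem isCompact_sum {E F ι : Type*} [NormedAddCommGroup E] [NormedSpace ℂ E]
    [NormedAddCommGroup F] [NormedSpace ℂ F] (s : Finset ι) (f : ι → E →L[ℂ] F)
    (h : ∀ i ∈ s, IsCompactOperator (f i)) :
    IsCompactOperator (⇑(∑ i ∈ s, f i : E →L[ℂ] F)) :=
  Submodule.sum_mem (compactOperator (RingHom.id ℂ) E F) h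

theorem isCompact_mat {M : Fin k → Fin k → H →L[ℂ] H}
    (hM : ∀ i j, IsCompactOperator (M i j)) : IsCompactOperator (mat M) := by
  have h : mat M = ∑ i, ∑ j, colOp (fun l : Fin k => if l = i then (1 : H →L[ℂ] H) else 0) ∘L
      (M i j ∘L PiLp.proj 2 (fun _ : Fin k => H) j) := by
    ext w l
    rw [mat_apply]
    simp only [sum_apply, WithLp.ofLp_sum, Finset.sum_apply, ContinuousLinearMap.comp_apply,
      colOp_apply]
    symm
    rw [Finset.sum_eq_single l]
    · exact Finset.sum_congr rfl fun j _ => by simp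
    · intro i _ hi
      exact Finset.sum_eq_zero fun j _ => by simp [Ne.symm hi]
    · intro hl
      exact absurd (Finset.mem_univ l) hl
  rw [h]
  refine isCompact_sum _ _ fun i _ => isCompact_sum _ _ fun j _ => ?_
  have h0 : IsCompactOperator (⇑(M i j) ∘ ⇑(PiLp.proj 2 (𝕜 := ℂ) (fun _ : Fin k => H) j)) :=
    (hM i j).comp_clm _
  have h1 := h0.continuous_comp
    (colOp (fun l : Fin k => if l = i then (1 : H →L[ℂ] H) else 0)).continuous
  exact h1

variable [CompleteSpace H]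

theorem adjoint_mat (M : Fin k → Fin k → H →L[ℂ] H) :
    (mat M).adjoint = mat (fun i j => (M j i).adjoint) := by
  symm
  rw [ContinuousLinearMap.eq_adjoint_iff]
  intro v w
  rw [← inner_conj_symm, inner_mat, inner_mat, map_sum, Finset.sum_comm]
  refine Finset.sum_congr rfl fun i _ => ?_
  rw [map_sum]
  refine Finset.sum_congr rfl fun j _ => ?_
  rw [inner_conj_symm, ContinuousLinearMap.adjoint_inner_left]

theorem adjoint_colOp (f : Fin k → H →L[ℂ] H) :
    (colOp f).adjoint = rowOp (fun j => (f j).adjoint) := by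
  symm
  rw [ContinuousLinearMap.eq_adjoint_iff]
  intro v ξ
  rw [← inner_conj_symm, inner_rowOp, inner_colOp, map_sum]
  refine Finset.sum_congr rfl fun i _ => ?_
  rw [inner_conj_symm, ContinuousLinearMap.adjoint_inner_left]

theorem adjoint_rowOp (f : Fin k → H →L[ℂ] H) :
    (rowOp f).adjoint = colOp (fun j => (f j).adjoint) := by
  symm
  rw [ContinuousLinearMap.eq_adjoint_iff]
  intro ξ w
  rw [← inner_conj_symm, inner_colOp, inner_rowOp, map_sum]
  refine Finset.sum_congr rfl fun i _ => ?_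
  rw [inner_conj_symm, ContinuousLinearMap.adjoint_inner_left]

end

end Pool.Agent.Work.MP_3f690c_an
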