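import Mathlib

/-!
# Definitions for the positive Toeplitz completion problem
-/

open scoped ComplexOrder InnerProductSpace

namespace Pool.Agent.Work.MP_3f690c_an

universe u v

/-- The Toeplitz matrix `[a_{i-j}]` of size `m` with entries from the two-sided sequence `a`. -/
def toep {A : Type u} (a : ℤ → A) (m : ℕ) : CStarMatrix (Fin m) (Fin m) A :=
  CStarMatrix.ofMatrix (Matrix.of fun i j => a ((i : ℤ) - (j : ℤ)))

section
variable (A : Type u) [NonUnitalCStarAlgebra A] [PartialOrder A] [StarOrderedRing A]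

/-- The one step completion property from size `k` to size `k + 1`. -/
def StepProp (k : ℕ) : Prop :=
  ∀ a : ℤ → A, 0 ≤ toep a k → ∃ y : ℤ → A, (∀ l : ℤ, |l| < k → y l = a l) ∧ 0 ≤ toep y (k + 1)

/-- The positive Toeplitz completion class: for all `0 < k < n` and all positive `k × k` Toeplitz
data over `A` there is a positive Toeplitz completion of size `n`. -/
def PTC : Prop :=
  ∀ k n : ℕ, 0 < k → k < n → ∀ a : ℤ → A, 0 ≤ toep a k →
    ∃ y : ℤ → A, (∀ l : ℤ, |l| < k → y l = a l) ∧ 0 ≤ toep y n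

/-- `A` is thin: there are no positive `e` and infinite sequence of nonzero elements `w n` with
`e w_n = w_n`, `w_n e = 0` and `w_m^* w_n = 0 = w_m w_n^*` for `m ≠ n`. -/
def Thin : Prop :=
  ∀ (e : A) (w : ℕ → A), 0 ≤ e → (∀ n, e * w n = w n ∧ w n * e = 0) →
    (∀ m n, m ≠ n → star (w m) * w n = 0 ∧ w m * star (w n) = 0) → ∃ n, w n = 0

/-- `A` has a jointly faithful family of representations on Hilbert spaces, each with values in
scalars plus compact operators, such that for each element the distances to the scalars tend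
to zero. -/
def NearScalar : Prop :=
  ∃ (ι : Type u) (H : ι → Type u) (_ : ∀ i, NormedAddCommGroup (H i))
    (_ : ∀ i, InnerProductSpace ℂ (H i)) (_ : ∀ i, CompleteSpace (H i))
    (π : ∀ i, A →⋆ₙₐ[ℂ] (H i →L[ℂ] H i)),
    (∀ a, (∀ i, π i a = 0) → a = 0) ∧
    (∀ a i, ∃ z : ℂ, IsCompactOperator (π i a - z • (1 : H i →L[ℂ] H i))) ∧
    ∀ a, ∀ ε > 0, {i | ∀ z : ℂ, ε ≤ ‖π i a - z • (1 : H i →L[ℂ] H i)‖}.Finite

end

section
variable {A : Type u} [NonUnitalCStarAlgebra A]

/-- A minimal projection: a nonzero projection `q` with `q A q = ℂ q`. -/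
structure IsMinProj (q : A) : Prop where
  sa : star q = q
  idem : q * q = q
  ne : q ≠ 0
  scalar : ∀ a, ∃ z : ℂ, q * a * q = z • q

end

end Pool.Agent.Work.MP_3f690c_an
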