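import Pool.Agent.Work.MP_3f690c_an.Defs

/-!
# Auxiliary definitions: quadratic forms, resolvents, block operators
-/

open scoped ComplexOrder InnerProductSpace

namespace Pool.Agent.Work.MP_3f690c_an

universe u v

/-- The quadratic form of the `k × k` Toeplitz matrix `[t (i - j)]`. -/
def qf (t : ℤ → ℂ) (k : ℕ) (v : Fin k → ℂ) : ℂ :=
  ∑ i : Fin k, ∑ j : Fin k, star (v i) * t ((i : ℤ) - (j : ℤ)) * v j

section
variable {H K : Type u} [NormedAddCommGroup H] [InnerProductSpace ℂ H]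
  [NormedAddCommGroup K] [InnerProductSpace ℂ K]

/-- `R` is the inverse of `T + ε`. -/
def IsRes (T R : K →L[ℂ] K) (ε : ℝ) : Prop :=
  (T + (ε : ℂ) • (1 : K →L[ℂ] K)) * R = 1 ∧ R * (T + (ε : ℂ) • (1 : K →L[ℂ] K)) = 1

/-- The block matrix `[[p, r], [r^*, T]]` is positive. -/
def BlockPos (p : H →L[ℂ] H) (r : K →L[ℂ] H) (T : K →L[ℂ] K) : Prop :=
  ∀ (ξ : H) (w : K), 0 ≤ (⟪ξ, p ξ⟫_ℂ).re + 2 * (⟪ξ, r w⟫_ℂ).re + (⟪w, T w⟫_ℂ).re

end

end Pool.Agent.Work.MP_3f690c_an
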