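import Pool.Agent.Work.MP_3f690c_an.Defs2

/-!
# Thin C*-algebras: minimal projections and finite maximal families
-/

open scoped ComplexOrder InnerProductSpace

namespace Pool.Agent.Work.MP_3f690c_an

universe u v

namespace Fam

section basic

variable {A : Type u} [NonUnitalCStarAlgebra A]

/-- The annihilator of a self-adjoint element. -/
def ann (e : A) (he : star e = e) : NonUnitalStarSubalgebra ℝ A where
  carrier := {z | z * e = 0 ∧ e * z = 0}
  add_mem' := by
    rintro a b ⟨h1, h2⟩ ⟨h3, h4⟩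
    exact ⟨by rw [add_mul, h1, h3, add_zero], by rw [mul_add, h2, h4, add_zero]⟩
  zero_mem' := ⟨zero_mul _, mul_zero _⟩
  mul_mem' := by
    rintro a b ⟨h1, h2⟩ ⟨h3, h4⟩
    exact ⟨by rw [mul_assoc, h3, mul_zero], by rw [← mul_assoc, h2, zero_mul]⟩
  smul_mem' := by
    rintro c a ⟨h1, h2⟩
    exact ⟨by rw [smul_mul_assoc, h1, smul_zero], by rw [mul_smul_comm, h2, smul_zero]⟩
  star_mem' := by
    rintro a ⟨h1, h2⟩
    refine ⟨?_, ?_⟩
    · have := congrArg star h2
      rwa [star_mul, he, star_zero] at this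
    · have := congrArg star h1
      rwa [star_mul, he, star_zero] at this

theorem isClosed_ann (e : A) (he : star e = e) : IsClosed (ann e he : Set A) := by
  have : (ann e he : Set A) = {z | z * e = 0} ∩ {z | e * z = 0} := rfl
  rw [this]
  exact (isClosed_eq (continuous_mul_const e) continuous_const).inter
    (isClosed_eq (continuous_const_mul e) continuous_const)

theorem cfc_mul_zero {e y : A} (he : star e = e) (hy : star y = y) (h : y * e = 0) (g : ℝ → ℝ) :
    cfcₙ g y * e = 0 := by
  have hmem : y ∈ ann e he := ⟨h, by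
    have := congrArg star h
    rwa [star_mul, he, hy, star_zero] at this⟩
  have : IsClosed (ann e he : Set A) := isClosed_ann e he
  exact (cfcₙ_mem g hmem).1

theorem star_cfc (g : ℝ → ℝ) (y : A) : star (cfcₙ g y) = cfcₙ g y :=
  (cfcₙ_predicate g y : IsSelfAdjoint (cfcₙ g y))

theorem continuousOn_of_finite {K : Set ℝ} (hK : K.Finite) (g : ℝ → ℝ) : ContinuousOn g K :=
  hK.continuousOn g

theorem mul_star_self_mul {v : A} (h : (star v * v) * (star v * v) = star v * v) :
    v * (star v * v) = v := by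
  have h1 : star (v * (star v * v) - v) * (v * (star v * v) - v) = 0 := by
    have : star (v * (star v * v) - v) * (v * (star v * v) - v) =
        (star v * v) * (star v * v) * (star v * v) - (star v * v) * (star v * v) -
          (star v * v) * (star v * v) + star v * v := by
      simp only [star_sub, star_mul, star_star]
      noncomm_ring
    rw [this, h, h]
    abel
  have h2 := (CStarRing.star_mul_self_eq_zero_iff _).1 h1
  exact sub_eq_zero.1 h2

end basic

section thin

variable {A : Type u} [NonUnitalCStarAlgebra A] [PartialOrder A] [StarOrderedRing A]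

omit [PartialOrder A] [StarOrderedRing A] in
theorem cfc_sandwich (f g : ℝ → ℝ) (y : A) (hy : star y = y)
    (hf : ContinuousOn f (quasispectrum ℝ y)) (hf0 : f 0 = 0)
    (hg : ContinuousOn g (quasispectrum ℝ y)) (hg0 : g 0 = 0) :
    cfcₙ f y * y * cfcₙ g y = cfcₙ (fun t => f t * t * g t) y := by
  have hy' : IsSelfAdjoint y := hy
  have h1 : cfcₙ (fun t => f t * t * g t) y = cfcₙ (fun t => f t * t) y * cfcₙ g y :=
    cfcₙ_mul (fun t => f t * t) g y (hf.mul continuousOn_id) (by simp) hg hg0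
  have h2 : cfcₙ (fun t => f t * t) y = cfcₙ f y * cfcₙ (fun t => t) y :=
    cfcₙ_mul f (fun t => t) y hf hf0 continuousOn_id rfl
  rw [h1, h2, cfcₙ_id' ℝ y hy']

theorem finite_spec (hT : Thin A) {e x : A} (he : 0 ≤ e) (h1 : e * x = x) (h2 : x * e = 0) :
    (quasispectrum ℝ (star x * x)).Finite := by
  classical
  by_contra hinf
  set y := star x * x with hydef
  have hy : star y = y := by rw [hydef, star_mul, star_star]
  have hy' : IsSelfAdjoint y := hy
  have hes : star e = e := (IsSelfAdjoint.of_nonneg he)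
  set K := quasispectrum ℝ y with hK
  have hKc : IsClosed K :=
    (NonUnitalContinuousFunctionalCalculus.isCompact_quasispectrum (R := ℝ) y).isClosed
  have h0K : (0 : ℝ) ∈ K := quasispectrum.zero_mem ℝ y
  have hinf2 : (K \ {0}).Infinite := by
    intro h
    exact hinf ((h.insert 0).subset fun t ht => by
      by_cases h : t = 0
      · exact Or.inl h
      · exact Or.inr ⟨ht, h⟩)
  have : Infinite ↥(K \ {0}) := hinf2.to_subtype
  obtain ⟨U, hUi, hUo, hUd⟩ := exists_seq_infinite_isOpen_pairwise_disjoint ↥(K \ {0})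
  choose V hVo hVU using fun n => isOpen_induced_iff.1 (hUo n)
  set C : ℕ → Set ℝ := fun n => K \ (V n \ {0}) with hC
  have hCc : ∀ n, IsClosed (C n) := fun n =>
    hKc.sdiff ((hVo n).sdiff isClosed_singleton)
  have hC0 : ∀ n, (0 : ℝ) ∈ C n := fun n => ⟨h0K, fun h => h.2 rfl⟩
  set g : ℕ → ℝ → ℝ := fun n t => Metric.infDist t (C n) with hg
  have hgc : ∀ n, Continuous (g n) := fun n => Metric.continuous_infDist_pt _
  have hg0 : ∀ n, g n 0 = 0 := fun n => Metric.infDist_zero_of_mem (hC0 n)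
  have hgmem : ∀ n, ∀ t ∈ K, g n t ≠ 0 → ∃ h : t ∈ K \ {0}, (⟨t, h⟩ : ↥(K \ {0})) ∈ U n := by
    intro n t ht hgt
    have h3 : t ∉ C n := fun h => hgt (Metric.infDist_zero_of_mem h)
    have h4 : t ∈ V n \ {0} := by
      by_contra h; exact h3 ⟨ht, h⟩
    refine ⟨⟨ht, h4.2⟩, ?_⟩
    rw [← hVU n]
    exact h4.1
  have hgdisj : ∀ m n, m ≠ n → ∀ t ∈ K, g m t * g n t = 0 := by
    intro m n hmn t ht
    by_contra hne
    obtain ⟨ha, hb⟩ := hgmem m t ht (left_ne_zero_of_mul hne)
    obtain ⟨hc, hd⟩ := hgmem n t ht (right_ne_zero_of_mul hne)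
    exact (Set.disjoint_left.1 (hUd hmn)) hb hd
  have hgpos : ∀ n, ∃ t ∈ K, t ≠ 0 ∧ g n t ≠ 0 := by
    intro n
    obtain ⟨⟨t, ht⟩, htU⟩ := (hUi n).nonempty
    refine ⟨t, ht.1, ht.2, ?_⟩
    have h3 : t ∉ C n := by
      rintro ⟨-, h⟩
      rw [← hVU n] at htU
      exact h ⟨htU, ht.2⟩
    have h5 := ((hCc n).notMem_iff_infDist_pos ⟨0, hC0 n⟩).1 h3
    exact h5.ne'
  have hye : y * e = 0 := by rw [hydef, mul_assoc, h2, mul_zero]
  obtain ⟨n, hn⟩ := hT e (fun n => x * cfcₙ (g n) y) he (fun n => ⟨by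
      rw [← mul_assoc, h1], by rw [mul_assoc, cfc_mul_zero hes hy hye, mul_zero]⟩) (by
    intro m n hmn
    constructor
    · have h3 : star (x * cfcₙ (g m) y) * (x * cfcₙ (g n) y) =
          cfcₙ (g m) y * y * cfcₙ (g n) y := by
        rw [star_mul, star_cfc, hydef]; noncomm_ring
      rw [h3, cfc_sandwich _ _ y hy (hgc m).continuousOn (hg0 m) (hgc n).continuousOn (hg0 n)]
      rw [← cfcₙ_const_zero ℝ y]
      refine cfcₙ_congr fun t ht => ?_
      have := hgdisj m n hmn t ht
      linear_combination t * this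
    · have h3 : x * cfcₙ (g m) y * star (x * cfcₙ (g n) y) =
          x * (cfcₙ (g m) y * cfcₙ (g n) y) * star x := by
        rw [star_mul, star_cfc]; noncomm_ring
      rw [h3, ← cfcₙ_mul (g m) (g n) y (hgc m).continuousOn (hg0 m) (hgc n).continuousOn (hg0 n)]
      have h4 : cfcₙ (fun t => g m t * g n t) y = 0 := by
        rw [← cfcₙ_const_zero ℝ y]
        exact cfcₙ_congr fun t ht => hgdisj m n hmn t ht
      rw [h4, mul_zero, zero_mul])
  have h3 : cfcₙ (fun t => g n t * t * g n t) y = 0 := by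
    rw [← cfc_sandwich _ _ y hy (hgc n).continuousOn (hg0 n) (hgc n).continuousOn (hg0 n)]
    have h4 : cfcₙ (g n) y * y * cfcₙ (g n) y = star (x * cfcₙ (g n) y) * (x * cfcₙ (g n) y) := by
      rw [star_mul, star_cfc, hydef]; noncomm_ring
    rw [h4, hn, mul_zero]
  rw [← cfcₙ_const_zero ℝ y] at h3
  have h5 := eqOn_of_cfcₙ_eq_cfcₙ h3 hy'
    (((hgc n).mul continuous_id).mul (hgc n)).continuousOn (by simp) continuousOn_const rfl
  obtain ⟨t, ht, ht0, htg⟩ := hgpos n
  have h6 := h5 ht
  simp only at h6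
  exact (mul_ne_zero (mul_ne_zero htg ht0) htg) h6

omit [PartialOrder A] [StarOrderedRing A] in
/-- a spectral projection at a nonzero isolated spectral value -/
theorem spec_proj {z : A} (hz : star z = z) (hK : (quasispectrum ℝ z).Finite) (hz0 : z ≠ 0) :
    ∃ (c : ℝ) (r : A), c ≠ 0 ∧ star r = r ∧ r * r = r ∧ r ≠ 0 ∧ z * r = c • r ∧ r * z = c • r := by
  classical
  have hz' : IsSelfAdjoint z := hz
  have h1 : ∃ c ∈ quasispectrum ℝ z, c ≠ 0 := by
    by_contra hcon
    push Not at hcon
    apply hz0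
    calc z = cfcₙ (fun t : ℝ => t) z := (cfcₙ_id' ℝ z hz').symm
      _ = cfcₙ (fun _ : ℝ => (0 : ℝ)) z := cfcₙ_congr fun t ht => hcon t ht
      _ = 0 := cfcₙ_const_zero ℝ z
  obtain ⟨c, hc, hc0⟩ := h1
  set f : ℝ → ℝ := fun t => if t = c then 1 else 0 with hf
  have hf0 : f 0 = 0 := by rw [hf]; simp [Ne.symm hc0]
  have hfc : ContinuousOn f (quasispectrum ℝ z) := hK.continuousOn f
  have hid : ContinuousOn (fun t : ℝ => t) (quasispectrum ℝ z) := continuousOn_id
  refine ⟨c, cfcₙ f z, hc0, star_cfc f z, ?_, ?_, ?_, ?_⟩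
  · rw [← cfcₙ_mul f f z hfc hf0 hfc hf0]
    exact cfcₙ_congr fun t ht => by
      simp only [hf]; split_ifs <;> simp
  · intro h
    have h0 : cfcₙ f z = cfcₙ (fun _ : ℝ => (0 : ℝ)) z := by rw [h, cfcₙ_const_zero ℝ z]
    have h2 := eqOn_of_cfcₙ_eq_cfcₙ h0 hz' hfc hf0 continuousOn_const rfl
    have h3 := h2 hc
    simp [hf] at h3
  · have h2 : z * cfcₙ f z = cfcₙ (fun t : ℝ => t) z * cfcₙ f z := by rw [cfcₙ_id' ℝ z hz']
    rw [h2, ← cfcₙ_mul (fun t => t) f z hid rfl hfc hf0, ← cfcₙ_smul c f z hfc hf0]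
    exact cfcₙ_congr fun t ht => by
      simp only [hf]; split_ifs with h <;> simp [h]
  · have h2 : cfcₙ f z * z = cfcₙ f z * cfcₙ (fun t : ℝ => t) z := by rw [cfcₙ_id' ℝ z hz']
    rw [h2, ← cfcₙ_mul f (fun t => t) z hfc hf0 hid rfl, ← cfcₙ_smul c f z hfc hf0]
    exact cfcₙ_congr fun t ht => by
      simp only [hf]; split_ifs with h <;> simp [h]

theorem pos_of_smul {r : A} (hr : 0 ≤ r) (hr0 : r ≠ 0) {c : ℝ} (h : 0 ≤ c • r) : 0 ≤ c := by
  by_contra hc
  push Not at hc
  have h1 : 0 ≤ (-c) • r := smul_nonneg (by linarith) hr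
  rw [neg_smul] at h1
  have h2 : c • r = 0 := le_antisymm (neg_nonneg.1 h1) h
  rcases smul_eq_zero.1 h2 with h3 | h3
  · linarith
  · exact hr0 h3

/-- a nonzero projection -/
structure Pj (q : A) : Prop where
  sa : star q = q
  idem : q * q = q
  ne : q ≠ 0

theorem Pj.nonneg {q : A} (h : Pj q) : 0 ≤ q := by
  have := star_mul_self_nonneg q
  rwa [h.sa, h.idem] at this

theorem spec_finite_corner (hT : Thin A) {e u p z : A} (he : 0 ≤ e) (hu1 : e * u = u)
    (hu2 : u * e = 0) (hup : star u * u = p) (hz : star z = z) (hzp : z * p = z) :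
    (quasispectrum ℝ z).Finite := by
  have hz' : IsSelfAdjoint z := hz
  have hpz : p * z = z := by
    have := congrArg star hzp
    rwa [star_mul, hz, ← hup, star_mul, star_star, hup] at this
  have h1 : star (u * z) * (u * z) = z * z := by
    have : star (u * z) * (u * z) = star z * (star u * u) * z := by
      rw [star_mul]; noncomm_ring
    rw [this, hup, hz, hzp]
  have h2 := finite_spec hT he (x := u * z) (by rw [← mul_assoc, hu1]) (by
    have : u * z * e = u * (z * (star u * (u * e))) := by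
      have h3 : z * (star u * (u * e)) = z * (star u * u) * e := by noncomm_ring
      rw [h3, hup, hzp, mul_assoc]
    rw [this, hu2, mul_zero, mul_zero, mul_zero])
  rw [h1] at h2
  have hid : ContinuousOn (fun t : ℝ => t) (quasispectrum ℝ z) := continuousOn_id
  have h3 : z * z = cfcₙ (fun t : ℝ => t * t) z := by
    rw [cfcₙ_mul (fun t : ℝ => t) (fun t => t) z hid rfl hid rfl, cfcₙ_id' ℝ z hz']
  rw [h3, cfcₙ_map_quasispectrum (fun t : ℝ => t * t) z (hid.mul hid) (by simp) hz'] at h2
  have h4 : quasispectrum ℝ z ⊆ (fun t : ℝ => t * t) ⁻¹' ((fun t : ℝ => t * t) ''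
      quasispectrum ℝ z) := Set.subset_preimage_image _ _
  refine (h2.preimage' fun b _ => ?_).subset h4
  refine ((Set.finite_singleton (Real.sqrt b)).insert (-Real.sqrt b)).subset fun t ht => ?_
  have h5 : t * t = b := ht
  rw [← h5, Real.sqrt_mul_self_eq_abs]
  rcases abs_choice t with h | h <;> simp [h]

theorem smaller_proj (hT : Thin A) {e u p p' : A} (he : 0 ≤ e) (hu1 : e * u = u)
    (hu2 : u * e = 0) (hup : star u * u = p) (hp' : Pj p') (hpp : p' * p = p')
    (hmin : ¬ IsMinProj p') : ∃ p'', Pj p'' ∧ p'' * p' = p'' ∧ p'' ≠ p' := by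
  have h1 : ∃ a : A, ∀ z : ℂ, p' * a * p' ≠ z • p' := by
    by_contra hcon
    push Not at hcon
    exact hmin ⟨hp'.sa, hp'.idem, hp'.ne, hcon⟩
  obtain ⟨a, ha⟩ := h1
  set b := p' * a * p' with hb
  have hbp : b * p' = b := by rw [hb, mul_assoc, hp'.idem]
  have hpb : p' * b = b := by rw [hb, ← mul_assoc, ← mul_assoc, hp'.idem]
  have hsb : star b * p' = star b := by
    have := congrArg star hpb
    rwa [star_mul, hp'.sa] at this
  have h2 : ∃ z : A, star z = z ∧ z * p' = z ∧ ∀ c : ℝ, z ≠ c • p' := by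
    by_contra hcon
    push Not at hcon
    obtain ⟨c1, hc1⟩ := hcon (b + star b) (by rw [star_add, star_star, add_comm])
      (by rw [add_mul, hbp, hsb])
    obtain ⟨c2, hc2⟩ := hcon (Complex.I • (b - star b)) (by
        rw [star_smul, star_sub, star_star, Complex.star_def, Complex.conj_I, neg_smul,
          ← smul_neg, neg_sub]) (by rw [smul_mul_assoc, sub_mul, hbp, hsb])
    rw [← Complex.coe_smul] at hc1 hc2
    have h5 : b - star b = (-Complex.I * (c2 : ℂ)) • p' := by
      rw [mul_smul, ← hc2, smul_smul, neg_mul, Complex.I_mul_I, neg_neg, one_smul]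
    apply ha (((c1 : ℂ) - Complex.I * c2) / 2)
    have h6 : (2 : ℂ) • b = ((c1 : ℂ) - Complex.I * c2) • p' := by
      have : (2 : ℂ) • b = (b + star b) + (b - star b) := by rw [two_smul]; abel
      rw [this, hc1, h5, ← add_smul]
      congr 1
      ring
    rw [div_eq_inv_mul, mul_smul, ← h6, smul_smul, inv_mul_cancel₀ two_ne_zero, one_smul]
  obtain ⟨z, hz, hzp, hzc⟩ := h2
  have hzpp : z * p = z := by
    rw [← hzp, mul_assoc, hpp]
  have hz0 : z ≠ 0 := fun h => hzc 0 (by rw [h, zero_smul])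
  obtain ⟨c, r, hc, hr1, hr2, hr3, hr4, hr5⟩ := spec_proj hz
    (spec_finite_corner hT he hu1 hu2 hup hz hzpp) hz0
  have hrr : r = c⁻¹ • (r * z) := by rw [hr5, smul_smul, inv_mul_cancel₀ hc, one_smul]
  refine ⟨r, ⟨hr1, hr2, hr3⟩, ?_, ?_⟩
  · conv_lhs => rw [hrr]
    rw [smul_mul_assoc, mul_assoc, hzp, ← hrr]
  · intro h
    apply hzc c
    have h3 : p' * z = z := by
      have := congrArg star hzp
      rwa [star_mul, hz, hp'.sa] at this
    rw [← h, ← hr5, h, h3]

theorem exists_min_below (hT : Thin A) {e u p : A} (he : 0 ≤ e) (hu1 : e * u = u)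
    (hu2 : u * e = 0) (hup : star u * u = p) (hp : Pj p) : ∃ q, IsMinProj q ∧ q * p = q := by
  by_contra hcon
  push Not at hcon
  have hes : star e = e := (IsSelfAdjoint.of_nonneg he)
  have key : ∀ s : {p' : A // Pj p' ∧ p' * p = p'}, ∃ t : {p' : A // Pj p' ∧ p' * p = p'},
      t.1 * s.1 = t.1 ∧ t.1 ≠ s.1 := by
    rintro ⟨p', hp', hpp⟩
    obtain ⟨p'', h1, h2, h3⟩ := smaller_proj hT he hu1 hu2 hup hp' hpp
      (fun h => hcon p' h hpp)
    exact ⟨⟨p'', h1, by rw [← h2, mul_assoc, hpp]⟩, h2, h3⟩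
  choose f hf1 hf2 using key
  set P : ℕ → {p' : A // Pj p' ∧ p' * p = p'} := fun n => f^[n] ⟨p, hp, hp.idem⟩ with hP
  have hPs : ∀ n, P (n + 1) = f (P n) := fun n => Function.iterate_succ_apply' f n _
  have hle : ∀ m k, (P (m + k)).1 * (P m).1 = (P (m + k)).1 := by
    intro m k
    induction k with
    | zero => exact (P m).2.1.idem
    | succ k ih =>
      have h1 : (P (m + (k + 1))).1 * (P (m + k)).1 = (P (m + (k + 1))).1 := by
        rw [← add_assoc, hPs]; exact hf1 _
      rw [← h1, mul_assoc, ih]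
  have hle' : ∀ m k, (P m).1 * (P (m + k)).1 = (P (m + k)).1 := by
    intro m k
    have := congrArg star (hle m k)
    rwa [star_mul, (P m).2.1.sa, (P (m + k)).2.1.sa] at this
  set D : ℕ → A := fun n => (P n).1 - (P (n + 1)).1 with hD
  have hDs : ∀ n, star (D n) = D n := fun n => by
    rw [hD]; simp only [star_sub, (P n).2.1.sa, (P (n + 1)).2.1.sa]
  have hDlt : ∀ m k, D m * D (m + 1 + k) = 0 := by
    intro m k
    have h1 := hle' m (1 + k)
    have h2 := hle' m (1 + k + 1)
    have h3 := hle' (m + 1) k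
    have h4 := hle' (m + 1) (k + 1)
    simp only [hD, sub_mul, mul_sub]
    rw [show m + 1 + k = m + (1 + k) by ring] at h3 ⊢
    rw [show m + 1 + (k + 1) = m + (1 + k + 1) by ring] at h4
    rw [show m + (1 + k) + 1 = m + (1 + k + 1) by ring, h1, h2, h3, h4]
    abel
  have hDD : ∀ m n, m ≠ n → D m * D n = 0 := by
    intro m n hmn
    rcases lt_or_gt_of_ne hmn with h | h
    · obtain ⟨k, rfl⟩ := Nat.exists_eq_add_of_le (Nat.succ_le_of_lt h)
      exact hDlt m k
    · obtain ⟨k, rfl⟩ := Nat.exists_eq_add_of_le (Nat.succ_le_of_lt h)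
      have := congrArg star (hDlt n k)
      rwa [star_mul, hDs, hDs, star_zero] at this
  have hDp : ∀ n, D n * p = D n := fun n => by
    rw [hD]; simp only [sub_mul, (P n).2.2, (P (n + 1)).2.2]
  have hpe : p * e = 0 := by rw [← hup, mul_assoc, hu2, mul_zero]
  have hDe : ∀ n, D n * e = 0 := fun n => by rw [← hDp, mul_assoc, hpe, mul_zero]
  have hpD : ∀ n, p * D n = D n := fun n => by
    have := congrArg star (hDp n)
    rwa [star_mul, hDs, hp.sa] at this
  obtain ⟨n, hn⟩ := hT e (fun n => u * D n) he (fun n => ⟨by rw [← mul_assoc, hu1], by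
      rw [mul_assoc, hDe, mul_zero]⟩) (by
    intro m n hmn
    constructor
    · have h3 : star (u * D m) * (u * D n) = D m * ((star u * u) * D n) := by
        rw [star_mul, hDs]; noncomm_ring
      rw [h3, hup, hpD, hDD m n hmn]
    · have h3 : u * D m * star (u * D n) = u * (D m * D n) * star u := by
        rw [star_mul, hDs]; noncomm_ring
      rw [h3, hDD m n hmn, mul_zero, zero_mul])
  have h4 : D n * D n = 0 := by
    have h3 : star (u * D n) * (u * D n) = D n * ((star u * u) * D n) := by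
      rw [star_mul, hDs]; noncomm_ring
    rw [hup, hpD] at h3
    rw [← h3, hn, mul_zero]
  have h5 : D n = 0 := by
    have : star (D n) * D n = 0 := by rw [hDs, h4]
    exact (CStarRing.star_mul_self_eq_zero_iff _).1 this
  have h6 := hf2 (P n)
  rw [← hPs] at h6
  exact h6 (sub_eq_zero.1 h5).symm

/-- normalisation of an element supported by a minimal projection -/
theorem normalise {q w : A} (hq : IsMinProj q) (hw : w * q = w) (hw0 : w ≠ 0) :
    ∃ c : ℝ, c ≠ 0 ∧ star (c • w) * (c • w) = q ∧ IsMinProj ((c • w) * star (c • w)) := by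
  have hqP : Pj q := ⟨hq.sa, hq.idem, hq.ne⟩
  obtain ⟨z, hz⟩ := hq.scalar (star w * w)
  have hqw : q * star w = star w := by
    have := congrArg star hw
    rwa [star_mul, hq.sa] at this
  have h1 : star w * w = z • q := by
    rw [← hz, ← mul_assoc, hqw, mul_assoc, hw]
  have h2 : (starRingEnd ℂ z) • q = z • q := by
    have := congrArg star h1
    rw [star_mul, star_star, star_smul, hq.sa, h1, Complex.star_def] at this
    exact this.symm
  have h3 : starRingEnd ℂ z = z := by
    by_contra hne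
    have h4 : (starRingEnd ℂ z - z) • q = 0 := by rw [sub_smul, h2, sub_self]
    rcases smul_eq_zero.1 h4 with h5 | h5
    · exact hne (sub_eq_zero.1 h5)
    · exact hq.ne h5
  obtain ⟨x, rfl⟩ := Complex.conj_eq_iff_real.1 h3
  rw [Complex.coe_smul] at h1
  have hx : 0 ≤ x := pos_of_smul hqP.nonneg hq.ne (by rw [← h1]; exact star_mul_self_nonneg w)
  have hx0 : x ≠ 0 := by
    rintro rfl
    rw [zero_smul] at h1
    exact hw0 ((CStarRing.star_mul_self_eq_zero_iff _).1 h1)
  have hx1 : 0 < x := lt_of_le_of_ne hx (Ne.symm hx0)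
  set c : ℝ := (Real.sqrt x)⁻¹ with hc
  have hcx : c * c * x = 1 := by
    rw [hc, ← mul_inv, Real.mul_self_sqrt hx, inv_mul_cancel₀ hx0]
  have hc0 : c ≠ 0 := by rw [hc]; exact inv_ne_zero (Real.sqrt_ne_zero'.2 hx1)
  set v : A := c • w with hv
  have hvv : star v * v = q := by
    rw [hv, star_smul, smul_mul_assoc, mul_smul_comm, h1, smul_smul, smul_smul, star_trivial,
      hcx, one_smul]
  have hvq : v * q = v := by rw [hv, smul_mul_assoc, hw]
  refine ⟨c, hc0, hvv, ?_, ?_, ?_, ?_⟩
  · rw [star_mul, star_star]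
  · have : v * star v * (v * star v) = v * (star v * v) * star v := by noncomm_ring
    rw [this, hvv, hvq]
  · intro h
    apply hq.ne
    have h5 : star v = 0 := by
      have := (CStarRing.star_mul_self_eq_zero_iff (star v)).1 (by rw [star_star]; exact h)
      exact this
    rw [← hvv, h5, zero_mul]
  · intro a
    obtain ⟨z, hz⟩ := hq.scalar (star v * a * v)
    refine ⟨z, ?_⟩
    have h5 : v * star v * a * (v * star v) = v * (star v * a * v) * star v := by noncomm_ring
    have h6 : v * (star v * a * v) * star v = v * (q * (star v * a * v) * q) * star v := by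
      have h7 : q * star v = star v := by
        have := congrArg star hvq
        rwa [star_mul, hq.sa] at this
      have h8 : v * (q * (star v * a * v) * q) * star v =
          (v * q) * (star v * a * v) * (q * star v) := by noncomm_ring
      rw [h8, hvq, h7]
    rw [h5, h6, hz, mul_smul_comm, smul_mul_assoc, hvq]

end thin

end Fam

open Fam

section

variable {A : Type u} [NonUnitalCStarAlgebra A] [PartialOrder A] [StarOrderedRing A]

theorem exists_minproj (hT : Thin A) {e x : A} (he : 0 ≤ e) (h1 : e * x = x) (h2 : x * e = 0)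
    (hx : x ≠ 0) : ∃ q : A, IsMinProj q ∧ x * q ≠ 0 := by
  have hes : star e = e := (IsSelfAdjoint.of_nonneg he)
  have hy0 : star x * x ≠ 0 := fun h => hx ((CStarRing.star_mul_self_eq_zero_iff x).1 h)
  have hys : star (star x * x) = star x * x := by rw [star_mul, star_star]
  obtain ⟨c, r, hc, hr1, hr2, hr3, hr4, hr5⟩ := spec_proj hys (finite_spec hT he h1 h2) hy0
  have hrP : Pj r := ⟨hr1, hr2, hr3⟩
  have hrx : star (x * r) * (x * r) = c • r := by
    have : star (x * r) * (x * r) = r * (star x * x * r) := by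
      rw [star_mul, hr1]; noncomm_ring
    rw [this, hr4, mul_smul_comm, hr2]
  have hcn : 0 ≤ c := pos_of_smul hrP.nonneg hr3 (by rw [← hrx]; exact star_mul_self_nonneg _)
  have hcp : 0 < c := lt_of_le_of_ne hcn (Ne.symm hc)
  set k : ℝ := (Real.sqrt c)⁻¹ with hk
  have hkc : k * k * c = 1 := by
    rw [hk, ← mul_inv, Real.mul_self_sqrt hcn, inv_mul_cancel₀ hc]
  set u : A := k • (x * r) with hu
  have hup : star u * u = r := by
    rw [hu, star_smul, smul_mul_assoc, mul_smul_comm, hrx, smul_smul, smul_smul, star_trivial,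
      hkc, one_smul]
  have hre : r * e = 0 := by
    have h3 : r = c⁻¹ • (r * (star x * x)) := by
      rw [hr5, smul_smul, inv_mul_cancel₀ hc, one_smul]
    rw [h3, smul_mul_assoc, mul_assoc, mul_assoc, h2, mul_zero, mul_zero, smul_zero]
  have hu1 : e * u = u := by rw [hu, mul_smul_comm, ← mul_assoc, h1]
  have hu2 : u * e = 0 := by rw [hu, smul_mul_assoc, mul_assoc, hre, mul_zero, smul_zero]
  obtain ⟨q, hq, hqr⟩ := exists_min_below hT he hu1 hu2 hup hrP
  refine ⟨q, hq, fun h => hq.ne ?_⟩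
  have hrq : r * q = q := by
    have := congrArg star hqr
    rwa [star_mul, hq.sa, hr1] at this
  have huq : u * q = 0 := by rw [hu, smul_mul_assoc, mul_assoc, hrq, h, smul_zero]
  rw [← hrq, ← hup, mul_assoc, huq, mul_zero]

/-- the conditions on the members of a family -/
structure Adm (e v : A) : Prop where
  left : e * v = v
  right : v * e = 0
  m1 : IsMinProj (star v * v)
  m2 : IsMinProj (v * star v)

omit [PartialOrder A] [StarOrderedRing A] in
theorem Adm.ne {e v : A} (h : Adm e v) : v ≠ 0 := by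
  rintro rfl
  exact h.m2.ne (zero_mul _)

omit [PartialOrder A] [StarOrderedRing A] in
theorem Adm.mul_q {e v : A} (h : Adm e v) : v * (star v * v) = v := mul_star_self_mul h.m1.idem

theorem exists_family (hT : Thin A) {e : A} (he : 0 ≤ e) :
    ∃ s : Finset A,
      (∀ v ∈ s, e * v = v ∧ v * e = 0 ∧ IsMinProj (star v * v) ∧ IsMinProj (v * star v)) ∧
      (∀ v ∈ s, ∀ w ∈ s, v ≠ w → star v * w = 0 ∧ v * star w = 0) ∧
      ∀ x : A, e * x = x → x * e = 0 →
        x = (∑ v ∈ s, v * star v) * x + x * (∑ v ∈ s, star v * v)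
          - (∑ v ∈ s, v * star v) * x * (∑ v ∈ s, star v * v) := by
  classical
  have hes : star e = e := (IsSelfAdjoint.of_nonneg he)
  let S : Set (Set A) := {s | (∀ v ∈ s, Adm e v) ∧
    ∀ v ∈ s, ∀ w ∈ s, v ≠ w → star v * w = 0 ∧ v * star w = 0}
  obtain ⟨m, hm⟩ := zorn_subset S (by
    intro c hcS hc
    refine ⟨⋃₀ c, ⟨?_, ?_⟩, fun s hs => Set.subset_sUnion_of_mem hs⟩
    · rintro v ⟨s, hs, hv⟩
      exact (hcS hs).1 v hv
    · rintro v ⟨s, hs, hv⟩ w ⟨t, ht, hw⟩ hvw
      rcases hc.total hs ht with h | h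
      · exact (hcS ht).2 v (h hv) w hw hvw
      · exact (hcS hs).2 v hv w (h hw) hvw)
  have hmS : m ∈ S := hm.prop
  have hmfin : m.Finite := by
    by_contra hinf
    have hinf' : Infinite ↥m := Set.infinite_coe_iff.2 hinf
    let f := Infinite.natEmbedding ↥m
    obtain ⟨n, hn⟩ := hT e (fun n => (f n : A)) he (fun n =>
      ⟨(hmS.1 _ (f n).2).left, (hmS.1 _ (f n).2).right⟩) (fun i j hij =>
      hmS.2 _ (f i).2 _ (f j).2 fun h => hij (f.injective (Subtype.ext h)))
    exact (hmS.1 _ (f n).2).ne hn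
  obtain ⟨s, rfl⟩ : ∃ s : Finset A, (s : Set A) = m := ⟨hmfin.toFinset, by simp⟩
  have hs1 : ∀ v ∈ s, Adm e v := fun v hv => hmS.1 v (Finset.mem_coe.2 hv)
  have hs2 : ∀ v ∈ s, ∀ w ∈ s, v ≠ w → star v * w = 0 ∧ v * star w = 0 := fun v hv w hw =>
    hmS.2 v (Finset.mem_coe.2 hv) w (Finset.mem_coe.2 hw)
  refine ⟨s, fun v hv => ⟨(hs1 v hv).left, (hs1 v hv).right, (hs1 v hv).m1, (hs1 v hv).m2⟩,
    hs2, ?_⟩
  set q : A := ∑ v ∈ s, star v * v with hq
  set q' : A := ∑ v ∈ s, v * star v with hq'
  have hvq : ∀ v ∈ s, v * q = v := by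
    intro v hv
    rw [hq, Finset.mul_sum, Finset.sum_eq_single v]
    · exact (hs1 v hv).mul_q
    · intro w hw hwv
      rw [← mul_assoc, (hs2 v hv w hw (Ne.symm hwv)).2, zero_mul]
    · intro h; exact absurd hv h
  have hq'v : ∀ v ∈ s, q' * v = v := by
    intro v hv
    rw [hq', Finset.sum_mul, Finset.sum_eq_single v]
    · rw [mul_assoc]; exact (hs1 v hv).mul_q
    · intro w hw hwv
      rw [mul_assoc, (hs2 w hw v hv hwv).1, mul_zero]
    · intro h; exact absurd hv h
  have hqs : star q = q := by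
    rw [hq, star_sum]; exact Finset.sum_congr rfl fun v _ => by rw [star_mul, star_star]
  have hq's : star q' = q' := by
    rw [hq', star_sum]; exact Finset.sum_congr rfl fun v _ => by rw [star_mul, star_star]
  have hqq : q * q = q := by
    conv_lhs => rw [hq, Finset.sum_mul]
    rw [hq]
    refine Finset.sum_congr rfl fun v hv => ?_
    rw [mul_assoc, ← hq, hvq v hv]
  have hq'q' : q' * q' = q' := by
    conv_lhs => rw [hq', Finset.mul_sum]
    rw [hq']
    refine Finset.sum_congr rfl fun v hv => ?_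
    rw [← mul_assoc, ← hq', hq'v v hv]
  have heq' : e * q' = q' := by
    rw [hq', Finset.mul_sum]
    exact Finset.sum_congr rfl fun v hv => by rw [← mul_assoc, (hs1 v hv).left]
  have hqe : q * e = 0 := by
    rw [hq, Finset.sum_mul]
    exact Finset.sum_eq_zero fun v hv => by rw [mul_assoc, (hs1 v hv).right, mul_zero]
  intro x hx1 hx2
  set y : A := x - q' * x - x * q + q' * x * q with hy
  by_contra hne
  have hy0 : y ≠ 0 := by
    intro h
    apply hne
    have h3 : x = q' * x + x * q - q' * x * q + y := by rw [hy]; abel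
    rw [h, add_zero] at h3
    exact h3
  have hye1 : e * y = y := by
    rw [hy]
    simp only [mul_add, mul_sub, ← mul_assoc, heq', hx1]
  have hye2 : y * e = 0 := by
    rw [hy]
    simp only [add_mul, sub_mul, mul_assoc, hqe, hx2, mul_zero]
    simp
  have hyq : y * q = 0 := by
    rw [hy]
    simp only [add_mul, sub_mul, mul_assoc, hqq]
    abel
  have hq'y : q' * y = 0 := by
    rw [hy]
    simp only [mul_add, mul_sub, ← mul_assoc, hq'q']
    abel
  obtain ⟨t, ht, hyt⟩ := exists_minproj hT he hye1 hye2 hy0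
  obtain ⟨c, hc, hc1, hc2⟩ := normalise ht (w := y * t) (by rw [mul_assoc, ht.idem]) hyt
  set v0 : A := c • (y * t) with hv0
  set r : A := v0 * star v0 with hr
  have hv0t : v0 * t = v0 := by rw [hv0, smul_mul_assoc, mul_assoc, ht.idem]
  have hrv0 : r * v0 = v0 := by rw [hr, mul_assoc, hc1, hv0t]
  have hry : r * y ≠ 0 := by
    intro h
    have h3 : r * v0 = 0 := by rw [hv0, mul_smul_comm, ← mul_assoc, h, zero_mul, smul_zero]
    rw [hrv0] at h3
    rcases smul_eq_zero.1 h3 with h4 | h4
    · exact hc h4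
    · exact hyt h4
  have hrs : star r = r := hc2.sa
  obtain ⟨k, hk, hk1, hk2⟩ := normalise hc2 (w := star (r * y)) (by
      rw [star_mul, mul_assoc, hrs, hc2.idem]) (by rw [Ne, star_eq_zero]; exact hry)
  set v1 : A := k • star (r * y) with hv1
  have hev0 : e * v0 = v0 := by rw [hv0, mul_smul_comm, ← mul_assoc, hye1]
  have her : e * r = r := by rw [hr, ← mul_assoc, hev0]
  have hq'v0 : q' * v0 = 0 := by rw [hv0, mul_smul_comm, ← mul_assoc, hq'y, zero_mul, smul_zero]
  have hsv1 : star v1 = k • (r * y) := by rw [hv1, star_smul, star_star, star_trivial]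
  have hadm : Adm e (star v1) := by
    refine ⟨?_, ?_, ?_, ?_⟩
    · rw [hsv1, mul_smul_comm, ← mul_assoc, her]
    · rw [hsv1, smul_mul_assoc, mul_assoc, hye2, mul_zero, smul_zero]
    · rw [star_star]; exact hk2
    · rw [star_star, hk1]; exact hc2
  have hvq0 : star v1 * q = 0 := by
    rw [hsv1, smul_mul_assoc, mul_assoc, hyq, mul_zero, smul_zero]
  have hq'v1 : q' * star v1 = 0 := by
    rw [hsv1, mul_smul_comm, ← mul_assoc, hr, ← mul_assoc, hq'v0, zero_mul, zero_mul, smul_zero]
  have hnot : star v1 ∉ s := by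
    intro h
    have := hvq _ h
    rw [hvq0] at this
    exact hadm.ne this.symm
  have ho1 : ∀ v ∈ s, star (star v1) * v = 0 ∧ star v1 * star v = 0 := by
    intro v hv
    constructor
    · have h3 : star (star v1) * q' = 0 := by
        have := congrArg star hq'v1
        rwa [star_mul, hq's, star_zero] at this
      rw [← hq'v v hv, ← mul_assoc, h3, zero_mul]
    · have h3 : q * star v = star v := by
        have := congrArg star (hvq v hv)
        rwa [star_mul, hqs] at this
      rw [← h3, ← mul_assoc, hvq0, zero_mul]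
  have hbig : insert (star v1) (s : Set A) ∈ S := by
    refine ⟨?_, ?_⟩
    · rintro v (rfl | hv)
      · exact hadm
      · exact hmS.1 v hv
    · rintro v (rfl | hv) w (rfl | hw) hvw
      · exact absurd rfl hvw
      · exact ho1 w (Finset.mem_coe.1 hw)
      · obtain ⟨h3, h4⟩ := ho1 v (Finset.mem_coe.1 hv)
        refine ⟨?_, ?_⟩
        · have := congrArg star h3
          rwa [star_mul, star_star, star_zero] at this
        · have := congrArg star h4
          rwa [star_mul, star_star, star_zero] at this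
      · exact hmS.2 v hv w hw hvw
  have := hm.le_of_ge hbig (Set.subset_insert _ _) (Set.mem_insert _ _)
  exact hnot (Finset.mem_coe.1 this)

end

end Pool.Agent.Work.MP_3f690c_an
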