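import Pool.Agent.Work.MP_3f690c_an.Blocks

/-!
# Toeplitz operator matrices: block decompositions and the near scalar case
-/

open scoped ComplexOrder InnerProductSpace

namespace Pool.Agent.Work.MP_3f690c_an

universe u v

section
variable {H : Type u} [NormedAddCommGroup H] [InnerProductSpace ℂ H]

/-- Positivity of the `n × n` Toeplitz operator matrix. -/
def PosT (a : ℤ → H →L[ℂ] H) (n : ℕ) : Prop :=
  ∀ ξ : Fin n → H, 0 ≤ ∑ i : Fin n, ∑ j : Fin n, ⟪ξ i, a ((i : ℤ) - (j : ℤ)) (ξ j)⟫_ℂ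

/-- The `k × k` Toeplitz operator. -/
noncomputable def tm (a : ℤ → H →L[ℂ] H) (k : ℕ) : HK H k →L[ℂ] HK H k :=
  mat fun i j => a ((i : ℤ) - (j : ℤ))

/-- The row `(a_{-1}, …, a_{-k})`. -/
noncomputable def row (a : ℤ → H →L[ℂ] H) (k : ℕ) : HK H k →L[ℂ] H :=
  rowOp fun j => a (-((j : ℤ) + 1))

/-- The column `(a_{-k}, …, a_{-1})`. -/
noncomputable def col (a : ℤ → H →L[ℂ] H) (k : ℕ) : H →L[ℂ] HK H k :=
  colOp fun i => a ((i : ℤ) - (k : ℤ))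

variable [CompleteSpace H] {a : ℤ → H →L[ℂ] H} {k : ℕ}

/-- The data are hermitian. -/
def Herm (a : ℤ → H →L[ℂ] H) (k : ℕ) : Prop := ∀ l : ℤ, |l| ≤ k → a (-l) = (a l).adjoint

theorem re_inner_swap (hsa : Herm a k) {l : ℤ} (hl : |l| ≤ k) (x y : H) :
    (⟪x, a l y⟫_ℂ).re = (⟪y, a (-l) x⟫_ℂ).re := by
  rw [hsa l hl, ContinuousLinearMap.adjoint_inner_right, ← inner_conj_symm, Complex.conj_re]

theorem form_cons (hsa : Herm a k) (ξ : H) (w : HK H k) :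
    (⟪ξ, a 0 ξ⟫_ℂ).re + 2 * (⟪ξ, row a k w⟫_ℂ).re + (⟪w, tm a k w⟫_ℂ).re =
      (∑ i : Fin (k + 1), ∑ j : Fin (k + 1), ⟪(Fin.cons ξ w.ofLp : Fin (k + 1) → H) i,
        a ((i : ℤ) - (j : ℤ)) ((Fin.cons ξ w.ofLp : Fin (k + 1) → H) j)⟫_ℂ).re := by
  rw [Fin.sum_univ_succ]
  simp only [Fin.sum_univ_succ (n := k), Fin.cons_zero, Fin.cons_succ, row, tm, inner_rowOp,
    inner_mat, Complex.add_re, Complex.re_sum, Finset.sum_add_distrib]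
  have h1 : ∀ i : Fin k, (⟪w i, a (((i.succ : Fin (k + 1)) : ℤ) - ((0 : Fin (k + 1)) : ℤ)) ξ⟫_ℂ).re
      = (⟪ξ, a (-((i : ℤ) + 1)) (w i)⟫_ℂ).re := by
    intro i
    have h2 : (((i.succ : Fin (k + 1)) : ℕ) : ℤ) - (((0 : Fin (k + 1)) : ℕ) : ℤ) = (i : ℤ) + 1 := by
      simp
    rw [h2, re_inner_swap hsa]
    have := i.2
    rw [abs_of_nonneg (by positivity)]
    omega
  have h3 : ∀ i : Fin k, (((0 : Fin (k + 1)) : ℕ) : ℤ) - (((i.succ : Fin (k + 1)) : ℕ) : ℤ)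
      = -((i : ℤ) + 1) := by
    intro i
    simp
  have h4 : ∀ i j : Fin k, (((i.succ : Fin (k + 1)) : ℕ) : ℤ) - (((j.succ : Fin (k + 1)) : ℕ) : ℤ)
      = (i : ℤ) - (j : ℤ) := by
    intro i j
    simp
  have h5 : (((0 : Fin (k + 1)) : ℕ) : ℤ) - (((0 : Fin (k + 1)) : ℕ) : ℤ) = 0 := by simp
  rw [Finset.sum_congr rfl fun i _ => h1 i]
  simp only [h3, h4, h5]
  ring

theorem form_snoc (hsa : Herm a k) (ξ : H) (w : HK H k) :
    (⟪ξ, a 0 ξ⟫_ℂ).re + 2 * (⟪ξ, (col a k).adjoint w⟫_ℂ).re + (⟪w, tm a k w⟫_ℂ).re =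
      (∑ i : Fin (k + 1), ∑ j : Fin (k + 1), ⟪(Fin.snoc w.ofLp ξ : Fin (k + 1) → H) i,
        a ((i : ℤ) - (j : ℤ)) ((Fin.snoc w.ofLp ξ : Fin (k + 1) → H) j)⟫_ℂ).re := by
  have h0 : (⟪ξ, (col a k).adjoint w⟫_ℂ).re = (⟪w, col a k ξ⟫_ℂ).re := by
    rw [ContinuousLinearMap.adjoint_inner_right, ← inner_conj_symm, Complex.conj_re]
  rw [h0, Fin.sum_univ_castSucc]
  simp only [Fin.sum_univ_castSucc (n := k), Fin.snoc_castSucc, Fin.snoc_last, col, tm,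
    inner_colOp, inner_mat, Complex.add_re, Complex.re_sum, Finset.sum_add_distrib]
  have h1 : ∀ i : Fin k, (⟪ξ, a (((Fin.last k : Fin (k + 1)) : ℤ) - ((i.castSucc : Fin (k + 1)) : ℤ))
      (w i)⟫_ℂ).re = (⟪w i, a ((i : ℤ) - (k : ℤ)) ξ⟫_ℂ).re := by
    intro i
    have h2 : (((Fin.last k : Fin (k + 1)) : ℕ) : ℤ) - (((i.castSucc : Fin (k + 1)) : ℕ) : ℤ)
        = (k : ℤ) - (i : ℤ) := by
      simp
    have := i.2
    rw [h2, re_inner_swap hsa]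
    · congr 4
      ring
    · rw [abs_of_nonneg (by omega)]
      omega
  have h3 : ∀ i : Fin k, (((i.castSucc : Fin (k + 1)) : ℕ) : ℤ) - (((Fin.last k : Fin (k + 1)) : ℕ) : ℤ)
      = (i : ℤ) - (k : ℤ) := by
    intro i
    simp
  have h4 : ∀ i j : Fin k, (((i.castSucc : Fin (k + 1)) : ℕ) : ℤ) -
      (((j.castSucc : Fin (k + 1)) : ℕ) : ℤ) = (i : ℤ) - (j : ℤ) := by
    intro i j
    simp
  have h5 : (((Fin.last k : Fin (k + 1)) : ℕ) : ℤ) - (((Fin.last k : Fin (k + 1)) : ℕ) : ℤ) = 0 := by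
    simp
  rw [Finset.sum_congr rfl fun i _ => h1 i]
  simp only [h3, h4, h5]
  ring

theorem blockPos_row (hsa : Herm a k) (hp : PosT a (k + 1)) :
    BlockPos (a 0) (row a k) (tm a k) := by
  intro ξ w
  rw [form_cons hsa]
  exact (Complex.le_def.1 (hp _)).1

theorem blockPos_col (hsa : Herm a k) (hp : PosT a (k + 1)) :
    BlockPos (a 0) (col a k).adjoint (tm a k) := by
  intro ξ w
  rw [form_snoc hsa]
  exact (Complex.le_def.1 (hp _)).1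

theorem selfAdjoint_tm (hsa : Herm a k) : IsSelfAdjoint (tm a k) := by
  rw [ContinuousLinearMap.isSelfAdjoint_iff', tm, adjoint_mat]
  congr 1
  funext i j
  rw [← hsa]
  · congr 1
    ring
  · have := i.2
    have := j.2
    rw [abs_le]
    constructor <;> omega

omit [CompleteSpace H] in
theorem form_perturb (t : ℤ → ℂ) {n : ℕ} {δ : ℝ} (hδ : 0 ≤ δ)
    (h : ∀ l : ℤ, |l| < n → ‖a l - t l • (1 : H →L[ℂ] H)‖ ≤ δ) (ξ : Fin n → H) :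
    |(∑ i : Fin n, ∑ j : Fin n, ⟪ξ i, a ((i : ℤ) - (j : ℤ)) (ξ j)⟫_ℂ).re -
      (∑ i : Fin n, ∑ j : Fin n, t ((i : ℤ) - (j : ℤ)) * ⟪ξ i, ξ j⟫_ℂ).re| ≤
      δ * n * ∑ i, ‖ξ i‖ ^ 2 := by
  have h1 : (∑ i : Fin n, ∑ j : Fin n, ⟪ξ i, a ((i : ℤ) - (j : ℤ)) (ξ j)⟫_ℂ) -
      (∑ i : Fin n, ∑ j : Fin n, t ((i : ℤ) - (j : ℤ)) * ⟪ξ i, ξ j⟫_ℂ) =
      ∑ i : Fin n, ∑ j : Fin n, ⟪ξ i, (a ((i : ℤ) - (j : ℤ)) -
        t ((i : ℤ) - (j : ℤ)) • (1 : H →L[ℂ] H)) (ξ j)⟫_ℂ := by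
    rw [← Finset.sum_sub_distrib]
    refine Finset.sum_congr rfl fun i _ => ?_
    rw [← Finset.sum_sub_distrib]
    refine Finset.sum_congr rfl fun j _ => ?_
    simp [inner_sub_right, inner_smul_right]
  rw [← Complex.sub_re, h1]
  refine (Complex.abs_re_le_norm _).trans ?_
  calc ‖∑ i : Fin n, ∑ j : Fin n, ⟪ξ i, (a ((i : ℤ) - (j : ℤ)) -
        t ((i : ℤ) - (j : ℤ)) • (1 : H →L[ℂ] H)) (ξ j)⟫_ℂ‖
      ≤ ∑ i : Fin n, ∑ j : Fin n, δ * (‖ξ i‖ * ‖ξ j‖) := by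
        refine (norm_sum_le _ _).trans (Finset.sum_le_sum fun i _ => ?_)
        refine (norm_sum_le _ _).trans (Finset.sum_le_sum fun j _ => ?_)
        have hij : |((i : ℕ) : ℤ) - ((j : ℕ) : ℤ)| < n := by
          have := i.2
          have := j.2
          rw [abs_lt]
          constructor <;> omega
        calc ‖⟪ξ i, (a ((i : ℤ) - (j : ℤ)) - t ((i : ℤ) - (j : ℤ)) • (1 : H →L[ℂ] H)) (ξ j)⟫_ℂ‖
            ≤ ‖ξ i‖ * ‖(a ((i : ℤ) - (j : ℤ)) - t ((i : ℤ) - (j : ℤ)) • (1 : H →L[ℂ] H)) (ξ j)‖ :=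
              norm_inner_le_norm _ _
          _ ≤ ‖ξ i‖ * (δ * ‖ξ j‖) := by
              refine mul_le_mul_of_nonneg_left ?_ (norm_nonneg _)
              exact (ContinuousLinearMap.le_opNorm _ _).trans
                (mul_le_mul_of_nonneg_right (h _ hij) (norm_nonneg _))
          _ = δ * (‖ξ i‖ * ‖ξ j‖) := by ring
    _ = δ * (∑ i, ‖ξ i‖) ^ 2 := by
        simp_rw [← Finset.mul_sum]
        rw [← Finset.sum_mul, sq]
    _ ≤ δ * (n * ∑ i, ‖ξ i‖ ^ 2) := by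
        refine mul_le_mul_of_nonneg_left ?_ hδ
        have := sq_sum_le_card_mul_sum_sq (s := (Finset.univ : Finset (Fin n))) (f := fun i => ‖ξ i‖)
        simpa using this
    _ = δ * n * ∑ i, ‖ξ i‖ ^ 2 := by ring

omit [CompleteSpace H] in
theorem form_smul_vec (n : ℕ) (v : Fin n → ℂ) (ξ : H) :
    ∑ i : Fin n, ∑ j : Fin n, ⟪v i • ξ, a ((i : ℤ) - (j : ℤ)) (v j • ξ)⟫_ℂ =
      qf (fun l => ⟪ξ, a l ξ⟫_ℂ) n v := by
  unfold qf
  refine Finset.sum_congr rfl fun i _ => Finset.sum_congr rfl fun j _ => ?_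
  rw [map_smul, inner_smul_left, inner_smul_right]
  simp only [Complex.star_def]
  ring

omit [CompleteSpace H] in
theorem form_smul_vec' (t : ℤ → ℂ) (n : ℕ) (v : Fin n → ℂ) (ξ : H) :
    ∑ i : Fin n, ∑ j : Fin n, t ((i : ℤ) - (j : ℤ)) * ⟪v i • ξ, v j • ξ⟫_ℂ =
      qf t n v * (‖ξ‖ : ℂ) ^ 2 := by
  unfold qf
  rw [Finset.sum_mul]
  refine Finset.sum_congr rfl fun i _ => ?_
  rw [Finset.sum_mul]
  refine Finset.sum_congr rfl fun j _ => ?_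
  rw [inner_smul_left, inner_smul_right, inner_self_eq_norm_sq_to_K]
  simp only [Complex.star_def, Complex.coe_algebraMap]
  ring

theorem exists_vec (hsa : Herm a k) (v : Fin (k + 1) → ℂ) (hv : v 0 = 1) (ξ : H) :
    ∃ w : HK H k, ‖w‖ ^ 2 ≤ (∑ i, ‖v i‖ ^ 2) * ‖ξ‖ ^ 2 ∧
      (⟪ξ, a 0 ξ⟫_ℂ).re + 2 * (⟪ξ, row a k w⟫_ℂ).re + (⟪w, tm a k w⟫_ℂ).re =
      (∑ i : Fin (k + 1), ∑ j : Fin (k + 1), ⟪v i • ξ, a ((i : ℤ) - (j : ℤ)) (v j • ξ)⟫_ℂ).re := by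
  refine ⟨WithLp.toLp 2 fun i => v i.succ • ξ, ?_, ?_⟩
  · rw [norm_sq_HK, Fin.sum_univ_succ (n := k), add_mul, Finset.sum_mul]
    have : ∀ i : Fin k, ‖(WithLp.toLp 2 fun i : Fin k => v i.succ • ξ : HK H k) i‖ ^ 2 =
        ‖v i.succ‖ ^ 2 * ‖ξ‖ ^ 2 := by
      intro i
      simp [norm_smul, mul_pow]
    simp only [this]
    have := mul_nonneg (sq_nonneg ‖v 0‖) (sq_nonneg ‖ξ‖)
    linarith
  · rw [form_cons hsa]
    have : (Fin.cons ξ (WithLp.toLp 2 fun i : Fin k => v i.succ • ξ : HK H k).ofLp :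
        Fin (k + 1) → H) = fun i => v i • ξ := by
      funext i
      refine Fin.cases ?_ (fun i => ?_) i
      · simp [hv]
      · simp
    rw [this]

/-- The uniform estimate for representations in which the data are almost scalar. -/
theorem near_uniform (k : ℕ) (M γ : ℝ) (hγ : 0 < γ) : ∃ δ : ℝ, 0 < δ ∧ ∃ ε₀ : ℝ, 0 < ε₀ ∧
    ∀ (H : Type u) [NormedAddCommGroup H] [InnerProductSpace ℂ H] [CompleteSpace H]
      (a : ℤ → H →L[ℂ] H), Herm a k → PosT a (k + 1) → ‖a 0‖ ≤ M →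
      (∀ l : ℤ, |l| ≤ k → ∃ z : ℂ, ‖a l - z • (1 : H →L[ℂ] H)‖ ≤ δ) →
      ∀ (η ε : ℝ) (R S : HK H k →L[ℂ] HK H k), 0 < η → η ≤ ε → ε ≤ ε₀ →
        IsRes (tm a k) R η → IsRes (tm a k) S ε →
        ‖row a k ∘L (R - S) ∘L col a k‖ ≤ γ := by
  set M' : ℝ := max M 1 with hM'
  have hM'1 : 1 ≤ M' := le_max_right _ _
  set β : ℝ := γ ^ 2 / M' with hβ
  have hβ0 : 0 < β := by positivity
  obtain ⟨σ, hσ, V, hV, hdich⟩ := scalar_dichotomy k M (β / 2) (by positivity)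
  set δ : ℝ := min (β / (8 * (k + 1) * (V + 1))) (σ / (4 * (k + 1))) with hδ
  have hδ0 : 0 < δ := by positivity
  set ε₀ : ℝ := min (β / (4 * (V + 1))) (β * σ / (2 * M')) with hε₀
  have hε₀0 : 0 < ε₀ := by positivity
  refine ⟨δ, hδ0, ε₀, hε₀0, ?_⟩
  intro H _ _ _ a hsa hp haM hnear η ε R S hη hηε hε hR hS
  by_cases hH : ∃ ξ : H, ξ ≠ 0
  swap
  · have : row a k ∘L (R - S) ∘L col a k = 0 := by
      ext ξ
      by_contra hne
      exact hH ⟨_, hne⟩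
    rw [this, norm_zero]
    exact hγ.le
  obtain ⟨ξ₁, hξ₁⟩ := hH
  obtain ⟨ξ₀, hξ₀⟩ : ∃ ξ₀ : H, ‖ξ₀‖ = 1 := ⟨((‖ξ₁‖⁻¹ : ℝ) : ℂ) • ξ₁, by
    rw [norm_smul, Complex.norm_real, norm_inv, norm_norm, inv_mul_cancel₀]
    exact norm_ne_zero_iff.2 hξ₁⟩
  set t : ℤ → ℂ := fun l => ⟪ξ₀, a l ξ₀⟫_ℂ with ht
  have ht2 : ∀ l : ℤ, |l| ≤ k → ‖a l - t l • (1 : H →L[ℂ] H)‖ ≤ 2 * δ := by
    intro l hl
    obtain ⟨z, hz⟩ := hnear l hl
    have h1 : t l - z = ⟪ξ₀, (a l - z • (1 : H →L[ℂ] H)) ξ₀⟫_ℂ := by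
      simp [ht, inner_sub_right, inner_smul_right, inner_self_eq_norm_sq_to_K, hξ₀]
    have h2 : ‖t l - z‖ ≤ δ := by
      rw [h1]
      calc ‖⟪ξ₀, (a l - z • (1 : H →L[ℂ] H)) ξ₀⟫_ℂ‖
          ≤ ‖ξ₀‖ * ‖(a l - z • (1 : H →L[ℂ] H)) ξ₀‖ := norm_inner_le_norm _ _
        _ ≤ ‖ξ₀‖ * (‖a l - z • (1 : H →L[ℂ] H)‖ * ‖ξ₀‖) := by
            gcongr
            exact ContinuousLinearMap.le_opNorm _ _
        _ ≤ δ := by rw [hξ₀]; simpa using hz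
    have h3 : a l - t l • (1 : H →L[ℂ] H) = (a l - z • (1 : H →L[ℂ] H)) -
        (t l - z) • (1 : H →L[ℂ] H) := by
      rw [sub_smul]; abel
    rw [h3]
    calc ‖(a l - z • (1 : H →L[ℂ] H)) - (t l - z) • (1 : H →L[ℂ] H)‖
        ≤ ‖a l - z • (1 : H →L[ℂ] H)‖ + ‖(t l - z) • (1 : H →L[ℂ] H)‖ := norm_sub_le _ _
      _ ≤ δ + δ * 1 := by
          refine add_le_add hz ?_
          rw [norm_smul]
          exact mul_le_mul h2 ContinuousLinearMap.norm_id_le (norm_nonneg _) hδ0.le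
      _ = 2 * δ := by ring
  have htM : (t 0).re ≤ M := by
    refine (Complex.re_le_norm _).trans ?_
    calc ‖⟪ξ₀, a 0 ξ₀⟫_ℂ‖ ≤ ‖ξ₀‖ * ‖a 0 ξ₀‖ := norm_inner_le_norm _ _
      _ ≤ ‖ξ₀‖ * (‖a 0‖ * ‖ξ₀‖) := by gcongr; exact ContinuousLinearMap.le_opNorm _ _
      _ ≤ M := by rw [hξ₀]; simpa using haM
  have htpos : ∀ v : Fin (k + 1) → ℂ, 0 ≤ qf t (k + 1) v := by
    intro v
    rw [← form_smul_vec]
    exact hp _
  have hTsa := selfAdjoint_tm hsa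
  have hrow := blockPos_row hsa hp
  have hcol := blockPos_col hsa hp
  have hpM : ∀ ξ : H, (⟪ξ, a 0 ξ⟫_ℂ).re ≤ M' * ‖ξ‖ ^ 2 := by
    intro ξ
    refine (Complex.re_le_norm _).trans ?_
    calc ‖⟪ξ, a 0 ξ⟫_ℂ‖ ≤ ‖ξ‖ * ‖a 0 ξ‖ := norm_inner_le_norm _ _
      _ ≤ ‖ξ‖ * (‖a 0‖ * ‖ξ‖) := by gcongr; exact ContinuousLinearMap.le_opNorm _ _
      _ ≤ ‖ξ‖ * (M' * ‖ξ‖) := by gcongr; exact haM.trans (le_max_left _ _)
      _ = M' * ‖ξ‖ ^ 2 := by ring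
  have key : ∀ ξ, (⟪(row a k).adjoint ξ, (R - S) ((row a k).adjoint ξ)⟫_ℂ).re ≤ β * ‖ξ‖ ^ 2 := by
    intro ξ
    rcases hdich t htM htpos with hσt | ⟨v, hv0, hvV, hvc⟩
    · have hlow : ∀ w : HK H k, σ / 2 * ‖w‖ ^ 2 ≤ (⟪w, tm a k w⟫_ℂ).re := by
        intro w
        have h1 := form_perturb (a := a) t (n := k) (δ := 2 * δ) (by positivity)
          (fun l hl => ht2 l hl.le) w.ofLp
        have h2 := qf_tensor t k hσt w.ofLp
        rw [tm, inner_mat, norm_sq_HK]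
        have h3 := (abs_le.1 h1).1
        have h4 : 2 * δ * k ≤ σ / 2 := by
          have h5 : δ ≤ σ / (4 * (k + 1)) := min_le_right _ _
          calc 2 * δ * k ≤ 2 * (σ / (4 * (k + 1))) * k := by gcongr
            _ = σ / 2 * (k / (k + 1)) := by field_simp; ring
            _ ≤ σ / 2 * 1 := by
                gcongr
                rw [div_le_one (by positivity)]
                linarith
            _ = σ / 2 := by ring
        have h6 : 0 ≤ ∑ i, ‖w.ofLp i‖ ^ 2 := Finset.sum_nonneg fun i _ => sq_nonneg _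
        have h7 := mul_le_mul_of_nonneg_right h4 h6
        linarith
      refine (form_le_of_lower hTsa hrow (by positivity) hlow hη hηε hR hS ξ).trans ?_
      calc ε / (σ / 2) * (⟪ξ, a 0 ξ⟫_ℂ).re ≤ ε / (σ / 2) * (M' * ‖ξ‖ ^ 2) := by
            have : 0 < ε := hη.trans_le hηε
            exact mul_le_mul_of_nonneg_left (hpM ξ) (by positivity)
        _ ≤ (β * σ / (2 * M')) / (σ / 2) * (M' * ‖ξ‖ ^ 2) := by
            gcongr
            exact hε.trans (min_le_right _ _)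
        _ = β * ‖ξ‖ ^ 2 := by field_simp
    · obtain ⟨w, hw, hform⟩ := exists_vec hsa v hv0 ξ
      refine (form_le hTsa hrow hη hηε hR hS ξ w).trans ?_
      rw [hform]
      have h1 := form_perturb (a := a) t (n := k + 1) (δ := 2 * δ) (by positivity)
        (fun l hl => ht2 l (by push_cast at hl; omega)) (fun i => v i • ξ)
      rw [form_smul_vec'] at h1
      have h2 := (abs_le.1 h1).2
      have h3 : (qf t (k + 1) v * (‖ξ‖ : ℂ) ^ 2).re = (qf t (k + 1) v).re * ‖ξ‖ ^ 2 := by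
        rw [← Complex.ofReal_pow, Complex.re_mul_ofReal]
      have h4 : ∑ i, ‖v i • ξ‖ ^ 2 = (∑ i, ‖v i‖ ^ 2) * ‖ξ‖ ^ 2 := by
        rw [Finset.sum_mul]
        exact Finset.sum_congr rfl fun i _ => by rw [norm_smul, mul_pow]
      rw [h3, h4] at h2
      have h5 : ∑ i, ‖v i‖ ^ 2 ≤ V + 1 := by linarith
      have h5' : 0 ≤ ∑ i, ‖v i‖ ^ 2 := Finset.sum_nonneg fun i _ => sq_nonneg _
      have h6 : 2 * δ * ((k + 1 : ℕ) : ℝ) * ((∑ i, ‖v i‖ ^ 2) * ‖ξ‖ ^ 2) ≤ β / 4 * ‖ξ‖ ^ 2 := by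
        have h7 : δ ≤ β / (8 * (k + 1) * (V + 1)) := min_le_left _ _
        push_cast
        calc 2 * δ * ((k : ℝ) + 1) * ((∑ i, ‖v i‖ ^ 2) * ‖ξ‖ ^ 2)
            ≤ 2 * (β / (8 * (k + 1) * (V + 1))) * ((k : ℝ) + 1) * ((V + 1) * ‖ξ‖ ^ 2) := by
              gcongr
          _ = β / 4 * ‖ξ‖ ^ 2 := by field_simp; ring
      have h8 : ε * ‖w‖ ^ 2 ≤ β / 4 * ‖ξ‖ ^ 2 := by
        have h9 : 0 < ε := hη.trans_le hηε
        calc ε * ‖w‖ ^ 2 ≤ ε * ((V + 1) * ‖ξ‖ ^ 2) := by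
              gcongr
              exact hw.trans (by gcongr)
          _ ≤ (β / (4 * (V + 1))) * ((V + 1) * ‖ξ‖ ^ 2) := by
              gcongr
              exact hε.trans (min_le_left _ _)
          _ = β / 4 * ‖ξ‖ ^ 2 := by field_simp
      have h10 : (qf t (k + 1) v).re * ‖ξ‖ ^ 2 ≤ β / 2 * ‖ξ‖ ^ 2 := by gcongr
      linarith
  have h1 := cross_le hTsa hcol hβ0.le hη hηε hR hS key
  have h2 : β * ‖a 0‖ ≤ γ ^ 2 := by
    calc β * ‖a 0‖ ≤ β * M' := by gcongr; exact haM.trans (le_max_left _ _)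
      _ = γ ^ 2 := by rw [hβ]; field_simp
  exact (pow_le_pow_iff_left₀ (norm_nonneg _) hγ.le two_ne_zero).1 (h1.trans h2)

end

end Pool.Agent.Work.MP_3f690c_an
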