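import Pool.Agent.Work.MP_3f690c_an.Defs2

/-!
# Positive two by two operator blocks and resolvents
-/

open scoped ComplexOrder InnerProductSpace

namespace Pool.Agent.Work.MP_3f690c_an

universe u v

set_option linter.unusedSectionVars false

section
variable {H K : Type u} [NormedAddCommGroup H] [InnerProductSpace ℂ H] [CompleteSpace H]
  [NormedAddCommGroup K] [InnerProductSpace ℂ K] [CompleteSpace K]
variable {p p' : H →L[ℂ] H} {r : K →L[ℂ] H} {c : H →L[ℂ] K} {T R S : K →L[ℂ] K} {η ε : ℝ}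

theorem isRes_unique (hR : IsRes T R ε) (hS : IsRes T S ε) : R = S :=
  left_inv_eq_right_inv hR.2 hS.1

theorem isRes_selfAdjoint (hT : IsSelfAdjoint T) (hR : IsRes T R ε) : IsSelfAdjoint R := by
  have hA : star (T + (ε : ℂ) • (1 : K →L[ℂ] K)) = T + (ε : ℂ) • (1 : K →L[ℂ] K) := by
    rw [star_add, hT.star_eq, star_smul, star_one]
    simp
  have h : IsRes T (star R) ε := by
    constructor
    · have := congrArg star hR.2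
      rwa [star_mul, hA, star_one] at this
    · have := congrArg star hR.1
      rwa [star_mul, hA, star_one] at this
  exact isRes_unique h hR

theorem op_res_apply (hR : IsRes T R ε) (s : K) : s = T (R s) + (ε : ℂ) • R s := by
  have := congrArg (fun L : K →L[ℂ] K => L s) hR.1
  simpa using this.symm

theorem op_sa_swap (hT : IsSelfAdjoint T) (u w : K) : ⟪T u, w⟫_ℂ = ⟪u, T w⟫_ℂ := by
  have h := ContinuousLinearMap.adjoint_inner_left T w u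
  rw [← ContinuousLinearMap.star_eq_adjoint, hT.star_eq] at h
  exact h

theorem op_re_comm (u w : K) : (⟪u, w⟫_ℂ).re = (⟪w, u⟫_ℂ).re := by
  rw [← inner_conj_symm u w, Complex.conj_re]

theorem op_re_self (u : K) : (⟪u, u⟫_ℂ).re = ‖u‖ ^ 2 := by
  have := inner_self_eq_norm_sq (𝕜 := ℂ) u
  simpa using this

/-- pairing with `s = (T + ε) R s` -/
theorem op_res_pair (hT : IsSelfAdjoint T) (hR : IsRes T R ε) (s z : K) :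
    (⟪s, z⟫_ℂ).re = (⟪R s, T z⟫_ℂ).re + ε * (⟪R s, z⟫_ℂ).re := by
  conv_lhs => rw [op_res_apply hR s]
  rw [inner_add_left, inner_smul_left, op_sa_swap hT, Complex.add_re]
  congr 1
  simp

/-- the form of `T + ε` -/
theorem op_res_form_eq (hT : IsSelfAdjoint T) (hR : IsRes T R ε) (s : K) :
    (⟪s, R s⟫_ℂ).re = (⟪R s, T (R s)⟫_ℂ).re + ε * ‖R s‖ ^ 2 := by
  rw [op_res_pair hT hR s (R s), op_re_self]

/-- the variational inequality -/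
theorem op_res_var (hT : IsSelfAdjoint T) (hT0 : ∀ w, 0 ≤ (⟪w, T w⟫_ℂ).re) (hε : 0 ≤ ε)
    (hR : IsRes T R ε) (s z : K) :
    2 * (⟪s, z⟫_ℂ).re - ((⟪z, T z⟫_ℂ).re + ε * ‖z‖ ^ 2) ≤ (⟪s, R s⟫_ℂ).re := by
  have h0 : 0 ≤ (⟪z - R s, T (z - R s)⟫_ℂ).re + ε * ‖z - R s‖ ^ 2 :=
    add_nonneg (hT0 _) (mul_nonneg hε (sq_nonneg _))
  have h1 : (⟪z - R s, T (z - R s)⟫_ℂ).re = (⟪z, T z⟫_ℂ).re - 2 * (⟪R s, T z⟫_ℂ).re
      + (⟪R s, T (R s)⟫_ℂ).re := by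
    rw [map_sub, inner_sub_left, inner_sub_right, inner_sub_right]
    simp only [Complex.sub_re]
    have : (⟪z, T (R s)⟫_ℂ).re = (⟪R s, T z⟫_ℂ).re := by
      rw [op_re_comm, op_sa_swap hT]
    rw [this]; ring
  have h2 : ‖z - R s‖ ^ 2 = ‖z‖ ^ 2 - 2 * (⟪R s, z⟫_ℂ).re + ‖R s‖ ^ 2 := by
    rw [← op_re_self, ← op_re_self, ← op_re_self, inner_sub_left, inner_sub_right, inner_sub_right]
    simp only [Complex.sub_re]
    rw [op_re_comm z (R s)]; ring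
  rw [h1, h2] at h0
  have h3 := op_res_pair hT hR s z
  have h4 := op_res_form_eq hT hR s
  rw [h3, h4]
  linarith

theorem res_form_nonneg (hT : IsSelfAdjoint T) (hT0 : ∀ w, 0 ≤ (⟪w, T w⟫_ℂ).re) (hε : 0 < ε)
    (hR : IsRes T R ε) (s : K) : 0 ≤ (⟪s, R s⟫_ℂ).re := by
  rw [op_res_form_eq hT hR]
  exact add_nonneg (hT0 _) (mul_nonneg hε.le (sq_nonneg _))

theorem res_form_anti (hT : IsSelfAdjoint T) (hT0 : ∀ w, 0 ≤ (⟪w, T w⟫_ℂ).re) (hη : 0 < η)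
    (hηε : η ≤ ε) (hR : IsRes T R η) (hS : IsRes T S ε) (s : K) :
    (⟪s, S s⟫_ℂ).re ≤ (⟪s, R s⟫_ℂ).re := by
  have h1 := op_res_var hT hT0 hη.le hR s (S s)
  have h2 := op_res_form_eq hT hS s
  have h3 : η * ‖S s‖ ^ 2 ≤ ε * ‖S s‖ ^ 2 := mul_le_mul_of_nonneg_right hηε (sq_nonneg _)
  linarith

theorem op_blockPos_nonneg (h : BlockPos p r T) (w : K) : 0 ≤ (⟪w, T w⟫_ℂ).re := by
  have := h 0 w
  simpa using this

theorem op_adj_re (r : K →L[ℂ] H) (ξ : H) (w : K) :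
    (⟪r.adjoint ξ, w⟫_ℂ).re = (⟪ξ, r w⟫_ℂ).re := by
  rw [ContinuousLinearMap.adjoint_inner_left]

theorem schur_le (hT : IsSelfAdjoint T) (h : BlockPos p r T) (hε : 0 < ε) (hR : IsRes T R ε)
    (ξ : H) : (⟪r.adjoint ξ, R (r.adjoint ξ)⟫_ℂ).re ≤ (⟪ξ, p ξ⟫_ℂ).re := by
  set s := r.adjoint ξ with hs
  have h1 := h ξ (-(R s))
  have h4 : (⟪ξ, r (R s)⟫_ℂ).re = (⟪s, R s⟫_ℂ).re := by rw [hs, op_adj_re]
  rw [map_neg, map_neg, inner_neg_right, inner_neg_left, inner_neg_right, neg_neg,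
    Complex.neg_re, h4] at h1
  have h2 := op_res_form_eq hT hR s
  have h3 : 0 ≤ ε * ‖R s‖ ^ 2 := mul_nonneg hε.le (sq_nonneg _)
  linarith

theorem form_le (hT : IsSelfAdjoint T) (h : BlockPos p r T) (hη : 0 < η) (hηε : η ≤ ε)
    (hR : IsRes T R η) (hS : IsRes T S ε) (ξ : H) (w : K) :
    (⟪r.adjoint ξ, (R - S) (r.adjoint ξ)⟫_ℂ).re ≤
      (⟪ξ, p ξ⟫_ℂ).re + 2 * (⟪ξ, r w⟫_ℂ).re + (⟪w, T w⟫_ℂ).re + ε * ‖w‖ ^ 2 := by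
  have h1 := schur_le hT h hη hR ξ
  have h2 := op_res_var hT (op_blockPos_nonneg h) (hη.le.trans hηε) hS (r.adjoint ξ) (-w)
  rw [map_neg, inner_neg_right, inner_neg_left, inner_neg_right, neg_neg, norm_neg,
    Complex.neg_re, op_adj_re] at h2
  rw [_root_.sub_apply, inner_sub_right, Complex.sub_re]
  linarith

/-- the difference of two resolvent forms -/
theorem op_diff_le (hT : IsSelfAdjoint T) (hT0 : ∀ w, 0 ≤ (⟪w, T w⟫_ℂ).re) (hη : 0 < η)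
    (hηε : η ≤ ε) (hR : IsRes T R η) (hS : IsRes T S ε) (s : K) :
    (⟪s, (R - S) s⟫_ℂ).re ≤ (ε - η) * ‖R s‖ ^ 2 := by
  have h1 := op_res_var hT hT0 (hη.le.trans hηε) hS s (R s)
  have h2 := op_res_form_eq hT hR s
  rw [_root_.sub_apply, inner_sub_right, Complex.sub_re]
  linarith

theorem form_le_of_lower (hT : IsSelfAdjoint T) (h : BlockPos p r T) {σ : ℝ} (hσ : 0 < σ)
    (hσT : ∀ w, σ * ‖w‖ ^ 2 ≤ (⟪w, T w⟫_ℂ).re) (hη : 0 < η) (hηε : η ≤ ε)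
    (hR : IsRes T R η) (hS : IsRes T S ε) (ξ : H) :
    (⟪r.adjoint ξ, (R - S) (r.adjoint ξ)⟫_ℂ).re ≤ ε / σ * (⟪ξ, p ξ⟫_ℂ).re := by
  set s := r.adjoint ξ with hs
  have h1 := op_diff_le hT (op_blockPos_nonneg h) hη hηε hR hS s
  have h2 := schur_le hT h hη hR ξ
  rw [← hs] at h2
  have h3 := op_res_form_eq hT hR s
  have h4 := hσT (R s)
  have h5 : 0 ≤ ‖R s‖ ^ 2 := sq_nonneg _
  have h6 : (ε - η) * ‖R s‖ ^ 2 ≤ ε * ‖R s‖ ^ 2 :=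
    mul_le_mul_of_nonneg_right (by linarith) h5
  have h7 : σ * ‖R s‖ ^ 2 ≤ (⟪ξ, p ξ⟫_ℂ).re := by
    have : 0 ≤ η * ‖R s‖ ^ 2 := mul_nonneg hη.le h5
    linarith
  have h8 : ε * ‖R s‖ ^ 2 = ε / σ * (σ * ‖R s‖ ^ 2) := by
    field_simp
  have h9 : ε / σ * (σ * ‖R s‖ ^ 2) ≤ ε / σ * (⟪ξ, p ξ⟫_ℂ).re :=
    mul_le_mul_of_nonneg_left h7 (div_nonneg (by linarith) hσ.le)
  linarith

theorem op_diff_selfAdjoint (hT : IsSelfAdjoint T) (hR : IsRes T R η) (hS : IsRes T S ε) :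
    IsSelfAdjoint (R - S) :=
  (isRes_selfAdjoint hT hR).sub (isRes_selfAdjoint hT hS)

theorem op_diff_nonneg (hT : IsSelfAdjoint T) (hT0 : ∀ w, 0 ≤ (⟪w, T w⟫_ℂ).re) (hη : 0 < η)
    (hηε : η ≤ ε) (hR : IsRes T R η) (hS : IsRes T S ε) : 0 ≤ R - S := by
  rw [ContinuousLinearMap.nonneg_iff_isPositive, ContinuousLinearMap.isPositive_def']
  refine ⟨op_diff_selfAdjoint hT hR hS, fun x => ?_⟩
  have h := res_form_anti hT hT0 hη hηε hR hS x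
  rw [ContinuousLinearMap.reApplyInnerSelf_apply]
  have h2 : RCLike.re ⟪(R - S) x, x⟫_ℂ = (⟪x, (R - S) x⟫_ℂ).re := op_re_comm _ _
  rw [h2, _root_.sub_apply, inner_sub_right, Complex.sub_re]
  linarith

theorem op_res_commute (hR : IsRes T R ε) : Commute T R := by
  have h := hR.1.trans hR.2.symm
  rw [add_mul, mul_add, smul_mul_assoc, mul_smul_comm, one_mul, mul_one] at h
  exact add_right_cancel h

/-- the square root of the difference of resolvents -/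
theorem op_exists_root (hT : IsSelfAdjoint T) (hT0 : ∀ w, 0 ≤ (⟪w, T w⟫_ℂ).re) (hη : 0 < η)
    (hηε : η ≤ ε) (hR : IsRes T R η) (hS : IsRes T S ε) :
    ∃ Q : K →L[ℂ] K, IsSelfAdjoint Q ∧ Q * Q = R - S ∧ Commute T Q := by
  have h0 := op_diff_nonneg hT hT0 hη hηε hR hS
  refine ⟨CFC.sqrt (R - S), (CFC.sqrt_nonneg _).isSelfAdjoint, CFC.sqrt_mul_sqrt_self _ h0, ?_⟩
  have h1 : Commute (R - S) T := ((op_res_commute hR).sub_right (op_res_commute hS)).symm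
  have h2 := h1.cfcₙ_nnreal NNReal.sqrt
  exact h2.symm

theorem form_le_of_norm (hT : IsSelfAdjoint T) (h : BlockPos p r T) (hη : 0 < η) (hηε : η ≤ ε)
    (hR : IsRes T R η) (hS : IsRes T S ε) (ξ : H) :
    (⟪r.adjoint ξ, (R - S) (r.adjoint ξ)⟫_ℂ).re ≤ ‖p‖ * ‖T * (R - S)‖ * ‖ξ‖ ^ 2 := by
  obtain ⟨Q, hQ, hQQ, hTQ⟩ := op_exists_root hT (op_blockPos_nonneg h) hη hηε hR hS
  set s := r.adjoint ξ with hs
  set X := R - S with hX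
  set q := (⟪s, X s⟫_ℂ).re with hq
  have hXs : X s = Q (Q s) := by rw [← hQQ]; rfl
  have hq1 : q = ‖Q s‖ ^ 2 := by
    rw [hq, hXs, ← op_sa_swap hQ, op_re_self]
  have hq0 : 0 ≤ q := by rw [hq1]; positivity
  have hw : (⟪X s, T (X s)⟫_ℂ).re ≤ ‖T * X‖ * q := by
    have e1 : T (Q (Q s)) = Q (T (Q s)) := by
      have := congrArg (fun L : K →L[ℂ] K => L (Q s)) hTQ.eq
      simpa using this
    have e2 : (⟪X s, T (X s)⟫_ℂ) = ⟪Q s, (T * X) (Q s)⟫_ℂ := by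
      rw [hXs, e1, op_sa_swap hQ]
      congr 1
      have e3 : (T * X) (Q s) = T (Q (Q (Q s))) := by rw [← hQQ]; rfl
      rw [e3]
      have e4 : ∀ y, T (Q y) = Q (T y) := fun y => by
        have := congrArg (fun L : K →L[ℂ] K => L y) hTQ.eq
        simpa using this
      simp only [e4]
    rw [e2, hq1]
    calc (⟪Q s, (T * X) (Q s)⟫_ℂ).re ≤ ‖⟪Q s, (T * X) (Q s)⟫_ℂ‖ := Complex.re_le_norm _
      _ ≤ ‖Q s‖ * ‖(T * X) (Q s)‖ := norm_inner_le_norm _ _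
      _ ≤ ‖Q s‖ * (‖T * X‖ * ‖Q s‖) := by
          gcongr
          exact (T * X).le_opNorm _
      _ = ‖T * X‖ * ‖Q s‖ ^ 2 := by ring
  have hp : (⟪ξ, p ξ⟫_ℂ).re ≤ ‖p‖ * ‖ξ‖ ^ 2 := by
    calc (⟪ξ, p ξ⟫_ℂ).re ≤ ‖⟪ξ, p ξ⟫_ℂ‖ := Complex.re_le_norm _
      _ ≤ ‖ξ‖ * ‖p ξ‖ := norm_inner_le_norm _ _
      _ ≤ ‖ξ‖ * (‖p‖ * ‖ξ‖) := by
          gcongr
          exact p.le_opNorm _
      _ = ‖p‖ * ‖ξ‖ ^ 2 := by ring
  -- the quadratic polynomial in `a`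
  have hpoly : ∀ a : ℝ, 0 ≤ ‖p‖ * ‖ξ‖ ^ 2 + 2 * (a * q) + a ^ 2 * (‖T * X‖ * q) := by
    intro a
    have h1 := h ξ ((a : ℂ) • X s)
    rw [map_smul, map_smul, inner_smul_right, inner_smul_left, inner_smul_right] at h1
    have h2 : (⟪ξ, r (X s)⟫_ℂ).re = q := by rw [hq, hs, op_adj_re]
    have h3 : ((a : ℂ) * ⟪ξ, r (X s)⟫_ℂ).re = a * q := by
      rw [Complex.re_ofReal_mul, h2]
    have h4 : ((starRingEnd ℂ) (a : ℂ) * ((a : ℂ) * ⟪X s, T (X s)⟫_ℂ)).re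
        = a ^ 2 * (⟪X s, T (X s)⟫_ℂ).re := by
      rw [Complex.conj_ofReal, Complex.re_ofReal_mul, Complex.re_ofReal_mul]; ring
    rw [h3, h4] at h1
    have h5 : a ^ 2 * (⟪X s, T (X s)⟫_ℂ).re ≤ a ^ 2 * (‖T * X‖ * q) :=
      mul_le_mul_of_nonneg_left hw (sq_nonneg _)
    linarith
  rcases eq_or_lt_of_le hq0 with h0 | hpos
  · rw [← h0]; positivity
  · have hm0 : 0 ≤ ‖T * X‖ := norm_nonneg _
    rcases eq_or_lt_of_le hm0 with hm | hm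
    · -- then the polynomial is linear in `a`
      have h1 := hpoly (-(‖p‖ * ‖ξ‖ ^ 2 + 1) / q)
      rw [← hm] at h1
      have h2 : -(‖p‖ * ‖ξ‖ ^ 2 + 1) / q * q = -(‖p‖ * ‖ξ‖ ^ 2 + 1) := by
        field_simp
      rw [h2] at h1
      have h3 : 0 ≤ ‖p‖ * ‖ξ‖ ^ 2 := by positivity
      linarith
    · have h1 := hpoly (-(1 / ‖T * X‖))
      have h2 : ‖p‖ * ‖ξ‖ ^ 2 + 2 * (-(1 / ‖T * X‖) * q) + (-(1 / ‖T * X‖)) ^ 2 * (‖T * X‖ * q)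
          = ‖p‖ * ‖ξ‖ ^ 2 - q / ‖T * X‖ := by
        field_simp
        ring
      rw [h2] at h1
      have h3 : q / ‖T * X‖ ≤ ‖p‖ * ‖ξ‖ ^ 2 := by linarith
      rw [div_le_iff₀ hm] at h3
      linarith

theorem cross_le (hT : IsSelfAdjoint T) (hc : BlockPos p' c.adjoint T) {β : ℝ} (hβ : 0 ≤ β)
    (hη : 0 < η) (hηε : η ≤ ε) (hR : IsRes T R η) (hS : IsRes T S ε)
    (hβ' : ∀ ξ, (⟪r.adjoint ξ, (R - S) (r.adjoint ξ)⟫_ℂ).re ≤ β * ‖ξ‖ ^ 2) :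
    ‖r ∘L (R - S) ∘L c‖ ^ 2 ≤ β * ‖p'‖ := by
  obtain ⟨Q, hQ, hQQ, -⟩ := op_exists_root hT (op_blockPos_nonneg hc) hη hηε hR hS
  set X := R - S with hX
  have hXs : ∀ s, X s = Q (Q s) := fun s => by rw [← hQQ]; rfl
  have hq1 : ∀ s, (⟪s, X s⟫_ℂ).re = ‖Q s‖ ^ 2 := fun s => by
    rw [hXs, ← op_sa_swap hQ, op_re_self]
  have hp : ∀ ζ, (⟪ζ, p' ζ⟫_ℂ).re ≤ ‖p'‖ * ‖ζ‖ ^ 2 := by
    intro ζ
    calc (⟪ζ, p' ζ⟫_ℂ).re ≤ ‖⟪ζ, p' ζ⟫_ℂ‖ := Complex.re_le_norm _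
      _ ≤ ‖ζ‖ * ‖p' ζ‖ := norm_inner_le_norm _ _
      _ ≤ ‖ζ‖ * (‖p'‖ * ‖ζ‖) := by
          gcongr
          exact p'.le_opNorm _
      _ = ‖p'‖ * ‖ζ‖ ^ 2 := by ring
  have hQc : ∀ ζ, ‖Q (c ζ)‖ ^ 2 ≤ ‖p'‖ * ‖ζ‖ ^ 2 := by
    intro ζ
    rw [← hq1]
    have h1 := schur_le hT hc hη hR ζ
    rw [ContinuousLinearMap.adjoint_adjoint] at h1
    have h2 := res_form_nonneg hT (op_blockPos_nonneg hc) (lt_of_lt_of_le hη hηε) hS (c ζ)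
    have h3 := hp ζ
    rw [hX, _root_.sub_apply, inner_sub_right, Complex.sub_re]
    linarith
  have hQr : ∀ ξ, ‖Q (r.adjoint ξ)‖ ^ 2 ≤ β * ‖ξ‖ ^ 2 := by
    intro ξ
    rw [← hq1]
    exact hβ' ξ
  have key : ∀ ζ, ‖(r ∘L X ∘L c) ζ‖ ^ 2 ≤ β * ‖p'‖ * ‖ζ‖ ^ 2 := by
    intro ζ
    set ξ := (r ∘L X ∘L c) ζ with hξ
    have h1 : ‖ξ‖ ^ 2 = (⟪Q (r.adjoint ξ), Q (c ζ)⟫_ℂ).re := by
      rw [← op_re_self (K := H), op_sa_swap hQ, ← hXs, op_adj_re]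
      rfl
    have h2 : ‖ξ‖ ^ 2 ≤ ‖Q (r.adjoint ξ)‖ * ‖Q (c ζ)‖ := by
      rw [h1]
      exact (Complex.re_le_norm _).trans (norm_inner_le_norm _ _)
    have h3 : (‖ξ‖ ^ 2) ^ 2 ≤ (β * ‖ξ‖ ^ 2) * (‖p'‖ * ‖ζ‖ ^ 2) := by
      calc (‖ξ‖ ^ 2) ^ 2 ≤ (‖Q (r.adjoint ξ)‖ * ‖Q (c ζ)‖) ^ 2 := by gcongr
        _ = ‖Q (r.adjoint ξ)‖ ^ 2 * ‖Q (c ζ)‖ ^ 2 := by ring
        _ ≤ (β * ‖ξ‖ ^ 2) * (‖p'‖ * ‖ζ‖ ^ 2) := by
          gcongr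
          · exact hQr ξ
          · exact hQc ζ
    rcases eq_or_lt_of_le (sq_nonneg ‖ξ‖) with h0 | hpos
    · rw [← h0]; positivity
    · have h4 : ‖ξ‖ ^ 2 * ‖ξ‖ ^ 2 ≤ ‖ξ‖ ^ 2 * (β * ‖p'‖ * ‖ζ‖ ^ 2) := by
        calc ‖ξ‖ ^ 2 * ‖ξ‖ ^ 2 = (‖ξ‖ ^ 2) ^ 2 := by ring
          _ ≤ _ := h3
          _ = _ := by ring
      exact le_of_mul_le_mul_left h4 hpos
  have h5 : ‖r ∘L X ∘L c‖ ≤ Real.sqrt (β * ‖p'‖) := by
    refine ContinuousLinearMap.opNorm_le_bound _ (Real.sqrt_nonneg _) fun ζ => ?_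
    have h6 := key ζ
    have h7 : ‖(r ∘L X ∘L c) ζ‖ ≤ Real.sqrt (β * ‖p'‖ * ‖ζ‖ ^ 2) :=
      Real.le_sqrt_of_sq_le h6
    rwa [Real.sqrt_mul (by positivity), Real.sqrt_sq (norm_nonneg _)] at h7
  calc ‖r ∘L X ∘L c‖ ^ 2 ≤ (Real.sqrt (β * ‖p'‖)) ^ 2 := by gcongr
    _ = β * ‖p'‖ := Real.sq_sqrt (by positivity)

theorem central_completion (hT : IsSelfAdjoint T) (h : BlockPos p r T)
    (hc : BlockPos p' c.adjoint T) (hε : 0 < ε) (hR : IsRes T R ε) (ξ ζ : H) (w : K) :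
    0 ≤ (⟪ξ, p ξ⟫_ℂ).re + (⟪ζ, p' ζ⟫_ℂ).re + (⟪w, T w⟫_ℂ).re + ε * ‖w‖ ^ 2
      + 2 * (⟪ξ, r w⟫_ℂ).re + 2 * (⟪w, c ζ⟫_ℂ).re + 2 * (⟪ξ, r (R (c ζ))⟫_ℂ).re := by
  set s := r.adjoint ξ with hs
  set t := c ζ with ht
  have h1 := op_res_var hT (op_blockPos_nonneg h) hε.le hR (s + t) (-w)
  rw [map_neg, inner_neg_right, inner_neg_left, inner_neg_right, neg_neg, norm_neg,
    Complex.neg_re] at h1
  have h2 := schur_le hT h hε hR ξ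
  rw [← hs] at h2
  have h3 := schur_le hT hc hε hR ζ
  rw [ContinuousLinearMap.adjoint_adjoint, ← ht] at h3
  have h4 : (⟪s + t, R (s + t)⟫_ℂ).re = (⟪s, R s⟫_ℂ).re + (⟪t, R t⟫_ℂ).re
      + 2 * (⟪s, R t⟫_ℂ).re := by
    rw [map_add, inner_add_left, inner_add_right, inner_add_right]
    simp only [Complex.add_re]
    have : (⟪t, R s⟫_ℂ).re = (⟪s, R t⟫_ℂ).re := by
      rw [op_re_comm, op_sa_swap (isRes_selfAdjoint hT hR)]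
    rw [this]; ring
  have h5 : (⟪s + t, w⟫_ℂ).re = (⟪ξ, r w⟫_ℂ).re + (⟪w, t⟫_ℂ).re := by
    rw [inner_add_left, Complex.add_re, hs, op_adj_re, op_re_comm t w]
  have h6 : (⟪s, R t⟫_ℂ).re = (⟪ξ, r (R t)⟫_ℂ).re := by
    rw [hs, op_adj_re]
  rw [h4, h5, h6] at h1
  linarith

end

end Pool.Agent.Work.MP_3f690c_an
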