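import Pool.Agent.Work.MP_3f690c_an.Defs2

set_option autoImplicit false

/-! Jointly faithful representations of C*-algebras: norm, matrix positivity, resolvents. -/

open scoped ComplexOrder InnerProductSpace CStarAlgebra

namespace Pool.Agent.Work.MP_3f690c_an

universe u v

/-! ### norm -/

theorem norm_le_of_forall_rep {A : Type u} [NonUnitalCStarAlgebra A] {ι : Type v} {H : ι → Type v}
    [∀ i, NormedAddCommGroup (H i)] [∀ i, InnerProductSpace ℂ (H i)] [∀ i, CompleteSpace (H i)]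
    (π : ∀ i, A →⋆ₙₐ[ℂ] (H i →L[ℂ] H i)) (hf : ∀ a, (∀ i, π i a = 0) → a = 0)
    {a : A} {c : ℝ} (hc : 0 ≤ c) (h : ∀ i, ‖π i a‖ ≤ c) : ‖a‖ ≤ c := by
  have hx : IsSelfAdjoint (star a * a) := IsSelfAdjoint.star_mul_self a
  set f : ℝ → ℝ := fun t => max (t - c ^ 2) 0 with hfdef
  have hfc : Continuous f := by rw [hfdef]; fun_prop
  have hf0 : f 0 = 0 := by
    rw [hfdef]
    simp only [zero_sub]
    exact max_eq_right (by nlinarith [sq_nonneg c])
  have hy : cfcₙ f (star a * a) = 0 := by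
    apply hf
    intro i
    have hcont : Continuous (π i) := map_continuous (π i)
    rw [NonUnitalStarAlgHom.map_cfcₙ (π i) f (star a * a) hfc.continuousOn hf0 hcont hx
      (hx.map (π i))]
    have hnorm : ‖π i (star a * a)‖ ≤ c ^ 2 := by
      rw [map_mul, map_star, CStarRing.norm_star_mul_self, sq]
      exact mul_le_mul (h i) (h i) (norm_nonneg _) hc
    have hz : (quasispectrum ℝ (π i (star a * a))).EqOn f (fun _ => 0) := by
      intro t ht
      have h1 : ‖t‖ ≤ ‖π i (star a * a)‖ := by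
        have h2 := norm_apply_le_norm_cfcₙ (id : ℝ → ℝ) (π i (star a * a)) ht
          continuousOn_id rfl (hx.map (π i))
        rwa [cfcₙ_id ℝ _ (hx.map (π i))] at h2
      rw [Real.norm_eq_abs] at h1
      have h3 := (abs_le.mp (h1.trans hnorm)).2
      show max (t - c ^ 2) 0 = 0
      exact max_eq_right (by linarith)
    rw [cfcₙ_congr hz, cfcₙ_const_zero]
  have hσ : ∀ t ∈ quasispectrum ℝ (star a * a), t ≤ c ^ 2 := by
    intro t ht
    have h1 : cfcₙ f (star a * a) = cfcₙ (fun _ : ℝ => (0 : ℝ)) (star a * a) := by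
      rw [hy, cfcₙ_const_zero]
    have h2 := eqOn_of_cfcₙ_eq_cfcₙ h1 hx hfc.continuousOn hf0 continuousOn_const rfl ht
    have h3 : max (t - c ^ 2) 0 = 0 := h2
    have h4 := le_max_left (t - c ^ 2) 0
    linarith
  let _ : PartialOrder A := CStarAlgebra.spectralOrder A
  let _ : StarOrderedRing A := CStarAlgebra.spectralOrderedRing A
  have hnn : ∀ t ∈ quasispectrum ℝ (star a * a), 0 ≤ t := by
    have h1 : 0 ≤ star a * a := star_mul_self_nonneg a
    exact (StarOrderedRing.nonneg_iff_quasispectrum_nonneg (R := ℝ) (star a * a) hx).mp h1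
  have hn : ‖star a * a‖ ≤ c ^ 2 := by
    have h1 : ‖cfcₙ (id : ℝ → ℝ) (star a * a)‖ ≤ c ^ 2 := by
      apply norm_cfcₙ_le
      intro t ht
      rw [id, Real.norm_eq_abs, abs_of_nonneg (hnn t ht)]
      exact hσ t ht
    rwa [cfcₙ_id ℝ _ hx] at h1
  rw [CStarRing.norm_star_mul_self] at hn
  nlinarith [norm_nonneg a]

/-! ### matrix positivity -/

section

variable {A : Type u} [NonUnitalCStarAlgebra A] {H : Type v} [NormedAddCommGroup H]
  [InnerProductSpace ℂ H] [CompleteSpace H] {n : ℕ}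

/-- The action of a matrix on columns of vectors. -/
noncomputable def matAct (π : A →⋆ₙₐ[ℂ] (H →L[ℂ] H)) (M : CStarMatrix (Fin n) (Fin n) A)
    (ξ : Fin n → H) (a : Fin n) : H := ∑ b, π (M a b) (ξ b)

theorem matAct_mul (π : A →⋆ₙₐ[ℂ] (H →L[ℂ] H)) (M N : CStarMatrix (Fin n) (Fin n) A)
    (ξ : Fin n → H) : matAct π (M * N) ξ = matAct π M (matAct π N ξ) := by
  funext a
  unfold matAct
  simp only [CStarMatrix.mul_apply, map_sum, map_mul, mul_apply_eq_comp,
    sum_apply]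
  rw [Finset.sum_comm]

theorem sum_inner_matAct (π : A →⋆ₙₐ[ℂ] (H →L[ℂ] H)) (M : CStarMatrix (Fin n) (Fin n) A)
    (ξ η : Fin n → H) :
    ∑ a, ⟪ξ a, matAct π M η a⟫_ℂ = ∑ a, ⟪matAct π (star M) ξ a, η a⟫_ℂ := by
  unfold matAct
  simp only [inner_sum, sum_inner]
  rw [Finset.sum_comm]
  refine Finset.sum_congr rfl fun b _ => Finset.sum_congr rfl fun a _ => ?_
  have h1 : star M b a = star (M a b) := rfl
  rw [h1, map_star, ContinuousLinearMap.star_eq_adjoint, ContinuousLinearMap.adjoint_inner_left]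

theorem form_eq (π : A →⋆ₙₐ[ℂ] (H →L[ℂ] H)) (M : CStarMatrix (Fin n) (Fin n) A)
    (ξ : Fin n → H) :
    ∑ a, ∑ b, ⟪ξ a, π (M a b) (ξ b)⟫_ℂ = ∑ a, ⟪ξ a, matAct π M ξ a⟫_ℂ := by
  unfold matAct
  simp only [inner_sum]

/-- polarisation -/
theorem rep_eq_zero_of_form (π : A →⋆ₙₐ[ℂ] (H →L[ℂ] H)) (D : CStarMatrix (Fin n) (Fin n) A)
    (h : ∀ ξ : Fin n → H, ∑ a, ∑ b, ⟪ξ a, π (D a b) (ξ b)⟫_ℂ = 0) (a b : Fin n) :
    π (D a b) = 0 := by
  set s : (Fin n → H) → (Fin n → H) → ℂ := fun ξ η => ∑ a, ∑ b, ⟪ξ a, π (D a b) (η b)⟫_ℂ with hs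
  have h0 : ∀ ξ, s ξ ξ = 0 := h
  have hadd : ∀ ξ η, s (ξ + η) (ξ + η) = s ξ ξ + s ξ η + s η ξ + s η η := by
    intro ξ η
    simp only [hs, Pi.add_apply, map_add, inner_add_left, inner_add_right,
      Finset.sum_add_distrib]
    ring
  have hsm : ∀ ξ η, s ξ (Complex.I • η) = Complex.I * s ξ η := by
    intro ξ η
    simp only [hs, Pi.smul_apply, map_smul, inner_smul_right, Finset.mul_sum]
  have hsm' : ∀ ξ η, s (Complex.I • ξ) η = -Complex.I * s ξ η := by
    intro ξ η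
    simp only [hs, Pi.smul_apply, inner_smul_left, Finset.mul_sum, Complex.conj_I]
  have h1 : ∀ ξ η, s ξ η + s η ξ = 0 := by
    intro ξ η
    have := hadd ξ η
    rw [h0, h0, h0] at this
    linear_combination -this
  have h2 : ∀ ξ η, s ξ η = 0 := by
    intro ξ η
    have e1 := h1 ξ η
    have e2 := h1 ξ (Complex.I • η)
    rw [hsm, hsm'] at e2
    have e3 : Complex.I * (s ξ η - s η ξ) = 0 := by linear_combination e2
    have e4 : s ξ η - s η ξ = 0 := by
      rcases mul_eq_zero.mp e3 with h | h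
      · exact absurd h Complex.I_ne_zero
      · exact h
    linear_combination (1 / 2 : ℂ) * e1 + (1 / 2 : ℂ) * e4
  ext y
  rw [zero_apply]
  apply ext_inner_left ℂ
  intro x
  rw [inner_zero_right]
  have h3 := h2 (Pi.single a x) (Pi.single b y)
  simp only [hs] at h3
  rw [Finset.sum_eq_single a, Finset.sum_eq_single b] at h3
  · simpa using h3
  · intro c _ hc
    rw [Pi.single_eq_of_ne hc, map_zero, inner_zero_right]
  · intro hc; exact absurd (Finset.mem_univ _) hc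
  · intro c _ hc
    apply Finset.sum_eq_zero
    intro d _
    rw [Pi.single_eq_of_ne hc, inner_zero_left]
  · intro hc; exact absurd (Finset.mem_univ _) hc

theorem exists_star_mul {B : Type u} [NonUnitalCStarAlgebra B] [PartialOrder B]
    [StarOrderedRing B] {M : B} (hM : 0 ≤ M) : ∃ C : B, M = star C * C :=
  CStarAlgebra.nonneg_iff_eq_star_mul_self.mp hM

theorem exists_neg_part {B : Type u} [NonUnitalCStarAlgebra B] [PartialOrder B]
    [StarOrderedRing B] {M : B} (hsa : IsSelfAdjoint M) :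
    ∃ N : B, 0 ≤ N ∧ star N = N ∧ M * N = -(N * N) ∧ (N * N * N = 0 → 0 ≤ M) := by
  set g : ℝ → ℝ := fun t => max (-t) 0 with hg
  have hgc : Continuous g := by rw [hg]; fun_prop
  have hg0 : g 0 = 0 := by rw [hg]; simp
  set N := cfcₙ g M with hN
  have hN0 : 0 ≤ N := cfcₙ_nonneg fun t _ => le_max_right _ _
  have hNsa : star N = N := (IsSelfAdjoint.of_nonneg hN0).star_eq
  have hMN : M * N = -(N * N) := by
    have h1 : M * N = cfcₙ (fun t : ℝ => t * g t) M := by
      rw [cfcₙ_mul (fun t : ℝ => t) g M continuousOn_id rfl hgc.continuousOn hg0,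
        cfcₙ_id' ℝ M hsa]
    have h2 : N * N = cfcₙ (fun t : ℝ => g t * g t) M := by
      rw [cfcₙ_mul g g M hgc.continuousOn hg0 hgc.continuousOn hg0]
    rw [h1, h2, ← cfcₙ_neg]
    apply cfcₙ_congr
    intro t _
    show t * g t = -(g t * g t)
    rw [hg]
    simp only
    rcases le_total 0 t with ht | ht
    · rw [max_eq_right (by linarith)]; ring
    · rw [max_eq_left (by linarith)]; ring
  refine ⟨N, hN0, hNsa, hMN, fun hNNN => ?_⟩
  have hNN : N * N = 0 := by
    have h1 : star (N * N) * (N * N) = 0 := by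
      rw [star_mul, hNsa, ← mul_assoc, hNNN, zero_mul]
    exact CStarRing.star_mul_self_eq_zero_iff _ |>.mp h1
  have hNz : N = 0 := by
    have h1 : star N * N = 0 := by rw [hNsa, hNN]
    exact CStarRing.star_mul_self_eq_zero_iff _ |>.mp h1
  rw [StarOrderedRing.nonneg_iff_quasispectrum_nonneg (R := ℝ) M hsa]
  intro t ht
  have h1 : cfcₙ g M = cfcₙ (fun _ : ℝ => (0 : ℝ)) M := by
    rw [← hN, hNz, cfcₙ_const_zero]
  have h2 := eqOn_of_cfcₙ_eq_cfcₙ h1 hsa hgc.continuousOn hg0 continuousOn_const rfl ht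
  have h3 : max (-t) 0 = 0 := h2
  have h4 := le_max_left (-t) 0
  linarith

theorem form_nonneg [PartialOrder A] [StarOrderedRing A] (π : A →⋆ₙₐ[ℂ] (H →L[ℂ] H))
    {M : CStarMatrix (Fin n) (Fin n) A} (hM : 0 ≤ M) (ξ : Fin n → H) :
    0 ≤ ∑ a, ∑ b, ⟪ξ a, π (M a b) (ξ b)⟫_ℂ := by
  obtain ⟨B, hB⟩ := exists_star_mul hM
  rw [form_eq, hB, matAct_mul, sum_inner_matAct, star_star]
  apply Finset.sum_nonneg
  intro a _
  rw [inner_self_eq_norm_sq_to_K]
  positivity

end

theorem nonneg_iff_forall_rep {A : Type u} [NonUnitalCStarAlgebra A] [PartialOrder A]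
    [StarOrderedRing A] {ι : Type v} {H : ι → Type v}
    [∀ i, NormedAddCommGroup (H i)] [∀ i, InnerProductSpace ℂ (H i)] [∀ i, CompleteSpace (H i)]
    (π : ∀ i, A →⋆ₙₐ[ℂ] (H i →L[ℂ] H i)) (hf : ∀ a, (∀ i, π i a = 0) → a = 0)
    {n : ℕ} (M : CStarMatrix (Fin n) (Fin n) A) :
    0 ≤ M ↔ ∀ i, ∀ ξ : Fin n → H i, 0 ≤ ∑ a, ∑ b, ⟪ξ a, π i (M a b) (ξ b)⟫_ℂ := by
  constructor
  · intro hM i ξ
    exact form_nonneg (π i) hM ξ
  · intro hpos
    have hzero : ∀ D : CStarMatrix (Fin n) (Fin n) A,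
        (∀ i, ∀ ξ : Fin n → H i, ∑ a, ∑ b, ⟪ξ a, π i (D a b) (ξ b)⟫_ℂ = 0) → D = 0 := by
      intro D hD
      apply CStarMatrix.ext
      intro a b
      rw [CStarMatrix.zero_apply]
      exact hf _ fun i => rep_eq_zero_of_form (π i) D (hD i) a b
    -- self-adjointness
    have hsa : IsSelfAdjoint M := by
      have h1 : M - star M = 0 := by
        apply hzero
        intro i ξ
        have e1 : ∑ a, ∑ b, ⟪ξ a, π i ((M - star M) a b) (ξ b)⟫_ℂ =
            ∑ a, ∑ b, ⟪ξ a, π i (M a b) (ξ b)⟫_ℂ - ∑ a, ∑ b, ⟪ξ a, π i (star M a b) (ξ b)⟫_ℂ := by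
          simp only [CStarMatrix.sub_apply, map_sub, sub_apply,
            inner_sub_right, Finset.sum_sub_distrib]
        have e2 : ∑ a, ∑ b, ⟪ξ a, π i (star M a b) (ξ b)⟫_ℂ =
            (starRingEnd ℂ) (∑ a, ∑ b, ⟪ξ a, π i (M a b) (ξ b)⟫_ℂ) := by
          rw [form_eq, form_eq, sum_inner_matAct, star_star, map_sum]
          refine Finset.sum_congr rfl fun a _ => ?_
          rw [inner_conj_symm]
        have e3 := hpos i ξ
        have e4 : (starRingEnd ℂ) (∑ a, ∑ b, ⟪ξ a, π i (M a b) (ξ b)⟫_ℂ) =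
            ∑ a, ∑ b, ⟪ξ a, π i (M a b) (ξ b)⟫_ℂ := by
          rw [Complex.conj_eq_iff_im]
          exact (Complex.nonneg_iff.mp e3).2.symm
        rw [e1, e2, e4, sub_self]
      exact (sub_eq_zero.mp h1).symm
    obtain ⟨N, hN0, hNsa, hMN, hfin⟩ := exists_neg_part hsa
    have hNNN : N * N * N = 0 := by
      apply hzero
      intro i ξ
      have h1 : 0 ≤ N * N * N := by
        have := star_left_conjugate_nonneg hN0 N
        rwa [hNsa] at this
      have h2 := form_nonneg (π i) h1 ξ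
      have h3 : ∑ a, ∑ b, ⟪ξ a, π i ((N * (M * N)) a b) (ξ b)⟫_ℂ =
          ∑ a, ∑ b, ⟪matAct (π i) N ξ a, π i (M a b) (matAct (π i) N ξ b)⟫_ℂ := by
        rw [form_eq, form_eq, matAct_mul, sum_inner_matAct, hNsa, matAct_mul]
      have h4 : N * (M * N) = -(N * N * N) := by rw [hMN, mul_neg, mul_assoc]
      have h5 : ∑ a, ∑ b, ⟪ξ a, π i ((-(N * N * N)) a b) (ξ b)⟫_ℂ =
          -∑ a, ∑ b, ⟪ξ a, π i ((N * N * N) a b) (ξ b)⟫_ℂ := by
        simp only [CStarMatrix.neg_apply, map_neg, neg_apply,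
          inner_neg_right, Finset.sum_neg_distrib]
      have h6 := hpos i (matAct (π i) N ξ)
      rw [← h3, h4, h5] at h6
      have h7 := neg_nonneg.mp h6
      exact le_antisymm h7 h2
    exact hfin hNNN

/-! ### resolvents -/

theorem exists_resolvent {B : Type u} [NonUnitalCStarAlgebra B] [PartialOrder B]
    [StarOrderedRing B] {T : B} (hT : 0 ≤ T) {ε : ℝ} (hε : 0 < ε) :
    ∃ R : B, R * T + (ε : ℂ) • R = T ∧ T * R + (ε : ℂ) • R = T := by
  have hsa : IsSelfAdjoint T := IsSelfAdjoint.of_nonneg hT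
  have hnn : ∀ t ∈ quasispectrum ℝ T, 0 ≤ t :=
    (StarOrderedRing.nonneg_iff_quasispectrum_nonneg (R := ℝ) T hsa).mp hT
  set f : ℝ → ℝ := fun t => t / (t + ε) with hf
  have hfc : ContinuousOn f (quasispectrum ℝ T) := by
    apply ContinuousOn.div continuousOn_id (by fun_prop)
    intro t ht
    have := hnn t ht
    positivity
  have hf0 : f 0 = 0 := by rw [hf]; simp
  have hsum : ∀ t ∈ quasispectrum ℝ T, f t * t + ε * f t = t := by
    intro t ht
    have := hnn t ht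
    have h1 : t + ε ≠ 0 := by positivity
    rw [hf]
    simp only
    field_simp
  have hid : ContinuousOn (fun t : ℝ => t) (quasispectrum ℝ T) := continuousOn_id
  have hsm : (ε : ℂ) • cfcₙ f T = cfcₙ (fun t => ε * f t) T := by
    rw [cfcₙ_const_mul ε f T hfc hf0]
    exact Complex.coe_smul ε _
  have h1 : cfcₙ f T * T = cfcₙ (fun t => f t * t) T := by
    rw [cfcₙ_mul f (fun t : ℝ => t) T hfc hf0 hid rfl, cfcₙ_id' ℝ T hsa]
  have h2 : T * cfcₙ f T = cfcₙ f T * T := by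
    have := cfcₙ_commute_cfcₙ (fun t : ℝ => t) f T
    rw [cfcₙ_id' ℝ T hsa] at this
    exact this
  have h3 : cfcₙ f T * T + (ε : ℂ) • cfcₙ f T = T := by
    rw [h1, hsm, ← cfcₙ_add (fun t => f t * t) (fun t => ε * f t) T (hfc.mul hid)
      (by simp [hf0]) (continuousOn_const.mul hfc) (by simp [hf0])]
    rw [cfcₙ_congr (g := fun t => t) (fun t ht => hsum t ht), cfcₙ_id' ℝ T hsa]
  exact ⟨cfcₙ f T, h3, by rw [h2]; exact h3⟩

end Pool.Agent.Work.MP_3f690c_an
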