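import Pool.Agent.Work.MP_3f690c_an.Near

/-!
# The Cauchy property in one representation with values in scalars plus compacts
-/

open scoped ComplexOrder InnerProductSpace
open Filter Topology

namespace Pool.Agent.Work.MP_3f690c_an

universe u v

section
variable {K : Type u} [NormedAddCommGroup K] [InnerProductSpace ℂ K] [CompleteSpace K]
  {T R S : K →L[ℂ] K} {η ε : ℝ}

omit [CompleteSpace K] in
theorem re_add_smul_one (T : K →L[ℂ] K) (ε : ℝ) (x : K) :
    (⟪x, (T + (ε : ℂ) • (1 : K →L[ℂ] K)) x⟫_ℂ).re = (⟪x, T x⟫_ℂ).re + ε * ‖x‖ ^ 2 := by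
  have h1 : ⟪x, (T + (ε : ℂ) • (1 : K →L[ℂ] K)) x⟫_ℂ = ⟪x, T x⟫_ℂ + (ε : ℂ) * ⟪x, x⟫_ℂ := by
    simp [inner_add_right, inner_smul_right]
  rw [h1, inner_self_eq_norm_sq_to_K, Complex.add_re]
  congr 1
  have h2 : (ε : ℂ) * ((‖x‖ : ℝ) : ℂ) ^ 2 = ((ε * ‖x‖ ^ 2 : ℝ) : ℂ) := by push_cast; ring
  simp only [Complex.coe_algebraMap]
  rw [h2, Complex.ofReal_re]

theorem sa_add_smul_one (hT : IsSelfAdjoint T) (ε : ℝ) :
    IsSelfAdjoint (T + (ε : ℂ) • (1 : K →L[ℂ] K)) := by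
  refine hT.add ?_
  rw [IsSelfAdjoint, star_smul, star_one]
  simp

theorem isRes_apply (hR : IsRes T R ε) (s : K) : (T + (ε : ℂ) • (1 : K →L[ℂ] K)) (R s) = s := by
  have := congrArg (fun f : K →L[ℂ] K => f s) hR.1
  simpa using this

theorem isRes_apply' (hR : IsRes T R ε) (s : K) : R ((T + (ε : ℂ) • (1 : K →L[ℂ] K)) s) = s := by
  have := congrArg (fun f : K →L[ℂ] K => f s) hR.2
  simpa using this

theorem neg_res_form_le (hT : IsSelfAdjoint T) (hT0 : ∀ w, 0 ≤ (⟪w, T w⟫_ℂ).re) (hε : 0 < ε)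
    (hS : IsRes T S ε) (s w : K) :
    -(⟪s, S s⟫_ℂ).re ≤ 2 * (⟪s, w⟫_ℂ).re + (⟪w, T w⟫_ℂ).re + ε * ‖w‖ ^ 2 := by
  set P := T + (ε : ℂ) • (1 : K →L[ℂ] K) with hP
  have hPsa : IsSelfAdjoint P := sa_add_smul_one hT ε
  have h1 : 0 ≤ (⟪w + S s, P (w + S s)⟫_ℂ).re := by
    rw [hP, re_add_smul_one]
    have := hT0 (w + S s)
    positivity
  have h2 : ⟪w + S s, P (w + S s)⟫_ℂ = ⟪w, P w⟫_ℂ + ⟪w, s⟫_ℂ + ⟪s, w⟫_ℂ + ⟪S s, s⟫_ℂ := by
    have h3 : P (S s) = s := isRes_apply hS s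
    have h4 : ⟪S s, P w⟫_ℂ = ⟪s, w⟫_ℂ := by
      have h5 := (ContinuousLinearMap.isSelfAdjoint_iff'.1 hPsa)
      calc ⟪S s, P w⟫_ℂ = ⟪S s, P.adjoint w⟫_ℂ := by rw [h5]
        _ = ⟪P (S s), w⟫_ℂ := by rw [ContinuousLinearMap.adjoint_inner_right]
        _ = ⟪s, w⟫_ℂ := by rw [h3]
    rw [map_add, h3, inner_add_left, inner_add_right, inner_add_right, h4]
    ring
  have h6 : (⟪w, s⟫_ℂ).re = (⟪s, w⟫_ℂ).re := by
    rw [← inner_conj_symm, Complex.conj_re]
  have h7 : (⟪S s, s⟫_ℂ).re = (⟪s, S s⟫_ℂ).re := by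
    rw [← inner_conj_symm, Complex.conj_re]
  rw [h2, Complex.add_re, Complex.add_re, Complex.add_re, h6, h7, hP, re_add_smul_one] at h1
  linarith

/-- Monotonicity of `ε (T + ε)⁻¹`. -/
theorem res_mul_mono (hT : IsSelfAdjoint T) (hT0 : ∀ w, 0 ≤ (⟪w, T w⟫_ℂ).re) (hη : 0 < η)
    (hηε : η ≤ ε) (hR : IsRes T R η) (hS : IsRes T S ε) (s : K) :
    η * (⟪s, R s⟫_ℂ).re ≤ ε * (⟪s, S s⟫_ℂ).re := by
  have hε : 0 < ε := hη.trans_le hηε
  set y := S (R s) with hy
  have hRs : T (R s) + (η : ℂ) • R s = s := by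
    have := isRes_apply hR s
    simpa using this
  have hTy : T y + (ε : ℂ) • y = R s := by
    have := isRes_apply hS (R s)
    simpa using this
  -- `S s = R s - (ε - η) y`
  have hSs : S s = R s - ((ε - η : ℝ) : ℂ) • y := by
    have h1 : S (T (R s) + (ε : ℂ) • R s) = R s := by
      have := isRes_apply' hS (R s)
      simpa using this
    have h2 : T (R s) + (ε : ℂ) • R s = s + ((ε - η : ℝ) : ℂ) • R s := by
      nth_rewrite 3 [← hRs]
      push_cast
      module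
    rw [h2, map_add, map_smul] at h1
    rw [hy]
    exact eq_sub_of_add_eq h1
  have h3 : (ε : ℂ) • S s - (η : ℂ) • R s = ((ε - η : ℝ) : ℂ) • T y := by
    rw [hSs]
    have h4 : T y = R s - (ε : ℂ) • y := eq_sub_of_add_eq hTy
    rw [h4]
    push_cast
    module
  have h5 : s = T (T y) + ((ε + η : ℝ) : ℂ) • T y + ((ε * η : ℝ) : ℂ) • y := by
    rw [← hRs, ← hTy, map_add, map_smul]
    push_cast
    module
  have h6 : 0 ≤ (⟪s, T y⟫_ℂ).re := by
    have hTsym : ∀ a b : K, ⟪T a, b⟫_ℂ = ⟪a, T b⟫_ℂ := by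
      intro a b
      have h5 := (ContinuousLinearMap.isSelfAdjoint_iff'.1 hT)
      rw [← ContinuousLinearMap.adjoint_inner_left, h5]
    rw [h5, inner_add_left, inner_add_left, inner_smul_left, inner_smul_left, Complex.add_re,
      Complex.add_re, Complex.conj_ofReal, Complex.conj_ofReal, Complex.re_ofReal_mul,
      Complex.re_ofReal_mul, hTsym (T y) (T y)]
    have h7 := hT0 (T y)
    have h8 := hT0 y
    have h9 : (⟪T y, T y⟫_ℂ).re = ‖T y‖ ^ 2 := by
      rw [inner_self_eq_norm_sq_to_K]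
      simp only [Complex.coe_algebraMap]
      rw [← Complex.ofReal_pow, Complex.ofReal_re]
    rw [h9]
    positivity
  have h10 : (⟪s, (ε : ℂ) • S s - (η : ℂ) • R s⟫_ℂ).re =
      ε * (⟪s, S s⟫_ℂ).re - η * (⟪s, R s⟫_ℂ).re := by
    rw [inner_sub_right, inner_smul_right, inner_smul_right, Complex.sub_re,
      Complex.re_ofReal_mul, Complex.re_ofReal_mul]
  rw [h3, inner_smul_right, Complex.re_ofReal_mul] at h10
  have h11 : 0 ≤ (ε - η) * (⟪s, T y⟫_ℂ).re := mul_nonneg (by linarith) h6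
  linarith

end

section
variable {H : Type u} [NormedAddCommGroup H] [InnerProductSpace ℂ H] [CompleteSpace H]
  {a : ℤ → H →L[ℂ] H} {k : ℕ}

theorem abs_sub_le_of_fin {n : ℕ} (i j : Fin (n + 1)) : |((i : ℕ) : ℤ) - ((j : ℕ) : ℤ)| ≤ n := by
  have := i.2
  have := j.2
  rw [abs_le]
  constructor <;> omega

theorem exists_limit_symbol (hp : PosT a (k + 1))
    (hc : ∀ l : ℤ, |l| ≤ k → ∃ z : ℂ, IsCompactOperator (a l - z • (1 : H →L[ℂ] H))) :
    ∃ t : ℤ → ℂ, (∀ v : Fin (k + 1) → ℂ, 0 ≤ qf t (k + 1) v) ∧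
      ∀ l : ℤ, |l| ≤ k → IsCompactOperator (a l - t l • (1 : H →L[ℂ] H)) := by
  by_cases hfin : FiniteDimensional ℂ H
  · refine ⟨0, fun v => by simp [qf], fun l _ => ?_⟩
    haveI : ProperSpace H := FiniteDimensional.proper ℂ H
    exact isCompactOperator_of_locallyCompactSpace_dom _
  · choose! z hz using hc
    refine ⟨z, fun v => ?_, hz⟩
    have h1 : ∀ n : ℕ, ∃ ξ : H, ‖ξ‖ = 1 ∧ ∀ l : Fin (k + 1) × Fin (k + 1),
        ‖⟪ξ, (a ((l.1 : ℤ) - (l.2 : ℤ)) - z ((l.1 : ℤ) - (l.2 : ℤ)) • (1 : H →L[ℂ] H)) ξ⟫_ℂ‖ ≤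
          1 / ((n : ℝ) + 1) := by
      intro n
      exact exists_unit_small hfin (fun l : Fin (k + 1) × Fin (k + 1) =>
        a ((l.1 : ℤ) - (l.2 : ℤ)) - z ((l.1 : ℤ) - (l.2 : ℤ)) • (1 : H →L[ℂ] H))
        (fun l => hz _ (abs_sub_le_of_fin _ _)) (by positivity)
    choose ξ hξ1 hξ using h1
    have h2 : ∀ i j : Fin (k + 1), Tendsto (fun n => ⟪ξ n, a ((i : ℤ) - (j : ℤ)) (ξ n)⟫_ℂ) atTop
        (𝓝 (z ((i : ℤ) - (j : ℤ)))) := by
      intro i j
      rw [tendsto_iff_norm_sub_tendsto_zero]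
      refine squeeze_zero (fun n => norm_nonneg _) (fun n => ?_) tendsto_one_div_add_atTop_nhds_zero_nat
      refine le_trans (le_of_eq ?_) (hξ n (i, j))
      congr 1
      simp [inner_sub_right, inner_smul_right, inner_self_eq_norm_sq_to_K, hξ1 n]
    have h3 : Tendsto (fun n => qf (fun l => ⟪ξ n, a l (ξ n)⟫_ℂ) (k + 1) v) atTop
        (𝓝 (qf z (k + 1) v)) := by
      unfold qf
      refine tendsto_finsetSum _ fun i _ => tendsto_finsetSum _ fun j _ => ?_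
      exact ((h2 i j).const_mul _).mul_const _
    refine ge_of_tendsto' h3 fun n => ?_
    rw [← form_smul_vec]
    exact hp _

theorem isRes_row_pos (hsa : Herm a k) (hp : PosT a (k + 1)) (w : HK H k) :
    0 ≤ (⟪w, tm a k w⟫_ℂ).re := by
  have := blockPos_row hsa hp 0 w
  simpa using this

theorem single_form (hsa : Herm a k) (hp : PosT a (k + 1))
    (hc : ∀ l : ℤ, |l| ≤ k → ∃ z : ℂ, IsCompactOperator (a l - z • (1 : H →L[ℂ] H)))
    (R : ℝ → HK H k →L[ℂ] HK H k) (hR : ∀ ε, 0 < ε → IsRes (tm a k) (R ε) ε)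
    {β : ℝ} (hβ : 0 < β) :
    ∃ ε₀ : ℝ, 0 < ε₀ ∧ ∀ η ε, 0 < η → η ≤ ε → ε ≤ ε₀ → ∀ ξ,
      (⟪(row a k).adjoint ξ, (R η - R ε) ((row a k).adjoint ξ)⟫_ℂ).re ≤ β * ‖ξ‖ ^ 2 := by
  obtain ⟨t, htpos, htc⟩ := exists_limit_symbol hp hc
  have hTsa := selfAdjoint_tm hsa
  have hT0 := isRes_row_pos hsa hp
  have hrow := blockPos_row hsa hp
  have hp0 : (a 0).adjoint = a 0 := by
    have := hsa 0 (by simp)
    simpa using this.symm
  by_cases hsing : ∃ u : Fin k → ℂ, u ≠ 0 ∧ qf t k u = 0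
  · -- singular case
    obtain ⟨u, hu, hu0⟩ := hsing
    obtain ⟨v, hv0, hv⟩ := scalar_singular t k u hu hu0
    set D : ℝ → H →L[ℂ] H := fun ε => a 0 - row a k ∘L R ε ∘L (row a k).adjoint with hD
    have hDform : ∀ ε ξ, (⟪ξ, D ε ξ⟫_ℂ).re = (⟪ξ, a 0 ξ⟫_ℂ).re -
        (⟪(row a k).adjoint ξ, R ε ((row a k).adjoint ξ)⟫_ℂ).re := by
      intro ε ξ
      simp only [hD, sub_apply, ContinuousLinearMap.comp_apply,
        inner_sub_right, Complex.sub_re]
      rw [ContinuousLinearMap.adjoint_inner_left]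
    set V : ℝ := ∑ i, ‖v i‖ ^ 2 with hV
    have hV0 : 0 ≤ V := Finset.sum_nonneg fun i _ => sq_nonneg _
    set C : H →L[ℂ] H := ∑ i : Fin (k + 1), ∑ j : Fin (k + 1), (star (v i) * v j) •
      (a ((i : ℤ) - (j : ℤ)) - t ((i : ℤ) - (j : ℤ)) • (1 : H →L[ℂ] H)) with hC
    have hCc : IsCompactOperator C := by
      rw [hC]
      refine isCompact_sum _ _ fun i _ => isCompact_sum _ _ fun j _ => ?_
      exact (htc _ (abs_sub_le_of_fin i j)).smul (star (v i) * v j)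
    have hCform : ∀ ξ, (∑ i : Fin (k + 1), ∑ j : Fin (k + 1), ⟪v i • ξ, a ((i : ℤ) - (j : ℤ))
        (v j • ξ)⟫_ℂ) = ⟪ξ, C ξ⟫_ℂ := by
      intro ξ
      have h1 : ⟪ξ, C ξ⟫_ℂ = ∑ i : Fin (k + 1), ∑ j : Fin (k + 1), (star (v i) * v j) *
          (⟪ξ, a ((i : ℤ) - (j : ℤ)) ξ⟫_ℂ - t ((i : ℤ) - (j : ℤ)) * (‖ξ‖ : ℂ) ^ 2) := by
        simp [hC, inner_sum, inner_smul_right, inner_sub_right, inner_self_eq_norm_sq_to_K]
      have h2 : qf t (k + 1) v * (‖ξ‖ : ℂ) ^ 2 = 0 := by rw [hv, zero_mul]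
      rw [h1, form_smul_vec, ← sub_zero (qf _ _ _), ← h2]
      unfold qf
      rw [Finset.sum_mul, ← Finset.sum_sub_distrib]
      refine Finset.sum_congr rfl fun i _ => ?_
      rw [Finset.sum_mul, ← Finset.sum_sub_distrib]
      refine Finset.sum_congr rfl fun j _ => ?_
      ring
    obtain ⟨ε₀, hε₀, hdini⟩ := dini D
      (fun ε hε => by
        rw [ContinuousLinearMap.isSelfAdjoint_iff']
        have h1 := ContinuousLinearMap.isSelfAdjoint_iff'.1 (isRes_selfAdjoint hTsa (hR ε hε))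
        simp only [hD]
        rw [map_sub, hp0, ContinuousLinearMap.adjoint_comp, ContinuousLinearMap.adjoint_comp, h1,
          ContinuousLinearMap.adjoint_adjoint]
        rfl)
      (fun ε hε ξ => by
        rw [hDform]
        have := schur_le hTsa hrow hε (hR ε hε) ξ
        linarith)
      (fun η ε hη hηε ξ => by
        rw [hDform, hDform]
        have := res_form_anti hTsa hT0 hη hηε (hR η hη) (hR ε (hη.trans_le hηε))
          ((row a k).adjoint ξ)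
        linarith)
      (fun γ hγ => by
        refine ⟨γ / (V + 1), by positivity, C, hCc, fun ξ => ?_⟩
        set ε := γ / (V + 1) with hε
        have hε0 : 0 < ε := by positivity
        rw [hDform]
        obtain ⟨w, hw, hform⟩ := exists_vec hsa v hv0 ξ
        have h1 := neg_res_form_le hTsa hT0 hε0 (hR ε hε0) ((row a k).adjoint ξ) w
        have h2 : (⟪(row a k).adjoint ξ, w⟫_ℂ).re = (⟪ξ, row a k w⟫_ℂ).re := by
          rw [ContinuousLinearMap.adjoint_inner_left]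
        rw [h2] at h1
        rw [hCform] at hform
        have h3 : (⟪ξ, C ξ⟫_ℂ).re ≤ ‖C ξ‖ * ‖ξ‖ := by
          refine (Complex.re_le_norm _).trans ((norm_inner_le_norm _ _).trans (le_of_eq (mul_comm _ _)))
        have h4 : ε * ‖w‖ ^ 2 ≤ γ * ‖ξ‖ ^ 2 := by
          calc ε * ‖w‖ ^ 2 ≤ ε * (V * ‖ξ‖ ^ 2) := by gcongr
            _ ≤ ε * ((V + 1) * ‖ξ‖ ^ 2) := by gcongr; linarith
            _ = γ * ‖ξ‖ ^ 2 := by rw [hε]; field_simp
        linarith) β hβ
    refine ⟨ε₀, hε₀, fun η ε hη hηε hε ξ => ?_⟩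
    have h1 := (hdini η ε hη hηε hε).2 ξ
    have h2 : (⟪ξ, (D ε - D η) ξ⟫_ℂ).re =
        (⟪(row a k).adjoint ξ, (R η - R ε) ((row a k).adjoint ξ)⟫_ℂ).re := by
      rw [sub_apply, inner_sub_right, Complex.sub_re, hDform, hDform,
        sub_apply, inner_sub_right, Complex.sub_re]
      ring
    rw [← h2]
    exact h1
  · -- regular case
    push Not at hsing
    have htpos' : ∀ u : Fin k → ℂ, 0 ≤ qf t k u := by
      intro u
      have h1 := htpos (Fin.snoc u 0)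
      have h2 : qf t (k + 1) (Fin.snoc u 0) = qf t k u := by
        unfold qf
        rw [Fin.sum_univ_castSucc]
        simp [Fin.sum_univ_castSucc (n := k)]
      rwa [h2] at h1
    obtain ⟨σ, hσ, hσt⟩ := scalar_posdef t k htpos' hsing
    set C : HK H k →L[ℂ] HK H k := mat (fun i j : Fin k => a ((i : ℤ) - (j : ℤ)) -
      t ((i : ℤ) - (j : ℤ)) • (1 : H →L[ℂ] H)) with hC
    have hCc : IsCompactOperator C := by
      refine isCompact_mat fun i j => htc _ ?_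
      have := i.2
      have := j.2
      rw [abs_le]
      constructor <;> omega
    have hlow : ∀ w : HK H k, σ * ‖w‖ ^ 2 ≤ (⟪w, tm a k w⟫_ℂ).re - (⟪w, C w⟫_ℂ).re := by
      intro w
      have h2 := qf_tensor t k hσt w.ofLp
      rw [norm_sq_HK]
      refine h2.trans (le_of_eq ?_)
      rw [← Complex.sub_re, tm, inner_mat, hC, inner_mat, ← Finset.sum_sub_distrib]
      congr 1
      refine Finset.sum_congr rfl fun i _ => ?_
      rw [← Finset.sum_sub_distrib]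
      refine Finset.sum_congr rfl fun j _ => ?_
      simp [inner_sub_right, inner_smul_right]
    set Z : ℝ → HK H k →L[ℂ] HK H k := fun ε => (ε : ℂ) • R ε with hZ
    have hZform : ∀ ε s, (⟪s, Z ε s⟫_ℂ).re = ε * (⟪s, R ε s⟫_ℂ).re := by
      intro ε s
      simp only [hZ, smul_apply, inner_smul_right, Complex.re_ofReal_mul]
    have hp0' : 0 ≤ ‖a 0‖ := norm_nonneg _
    obtain ⟨ε₀, hε₀, hdini⟩ := dini Z
      (fun ε hε => by
        have h1 := isRes_selfAdjoint hTsa (hR ε hε)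
        have h2 : IsSelfAdjoint (ε : ℂ) := Complex.conj_ofReal ε
        exact h2.smul h1)
      (fun ε hε ξ => by
        rw [hZform]
        exact mul_nonneg hε.le (res_form_nonneg hTsa hT0 hε (hR ε hε) ξ))
      (fun η ε hη hηε ξ => by
        rw [hZform, hZform]
        exact res_mul_mono hTsa hT0 hη hηε (hR η hη) (hR ε (hη.trans_le hηε)) ξ)
      (fun γ hγ => by
        refine ⟨γ * σ, by positivity, ((σ⁻¹ : ℝ) : ℂ) • (C ∘L Z (γ * σ)), ?_, fun s => ?_⟩
        · have h1 : IsCompactOperator (C ∘L Z (γ * σ)) := hCc.comp_clm _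
          exact h1.smul ((σ⁻¹ : ℝ) : ℂ)
        set ε := γ * σ with hε
        have hε0 : 0 < ε := by positivity
        set y := Z ε s with hy
        have h1 : tm a k y + (ε : ℂ) • y = (ε : ℂ) • s := by
          have h2 := isRes_apply (hR ε hε0) s
          have h3 : tm a k (R ε s) + (ε : ℂ) • R ε s = s := by simpa using h2
          simp only [hy, hZ, smul_apply, map_smul]
          rw [← smul_add, h3]
        have h2 : σ * ‖y‖ ^ 2 ≤ ‖y‖ * (ε * ‖s‖ + ‖C y‖) := by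
          have h3 := hlow y
          have h4 : tm a k y = (ε : ℂ) • s - (ε : ℂ) • y := eq_sub_of_add_eq h1
          have h5 : (⟪y, tm a k y⟫_ℂ).re ≤ ε * (‖y‖ * ‖s‖) := by
            rw [h4, inner_sub_right, inner_smul_right, inner_smul_right, Complex.sub_re,
              Complex.re_ofReal_mul, Complex.re_ofReal_mul, inner_self_eq_norm_sq_to_K]
            have h6 : (⟪y, s⟫_ℂ).re ≤ ‖y‖ * ‖s‖ :=
              (Complex.re_le_norm _).trans (norm_inner_le_norm _ _)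
            have h7 : 0 ≤ ((RCLike.ofReal ‖y‖ : ℂ) ^ 2).re := by
              simp only [Complex.coe_algebraMap]
              rw [← Complex.ofReal_pow, Complex.ofReal_re]
              positivity
            have h8 := mul_le_mul_of_nonneg_left h6 hε0.le
            have h9 := mul_nonneg hε0.le h7
            linarith
          have h10 : -(⟪y, C y⟫_ℂ).re ≤ ‖y‖ * ‖C y‖ := by
            have := (abs_le.1 ((Complex.abs_re_le_norm ⟪y, C y⟫_ℂ).trans
              (norm_inner_le_norm y (C y)))).1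
            linarith
          nlinarith
        have h11 : ‖y‖ ≤ γ * ‖s‖ + ‖(((σ⁻¹ : ℝ) : ℂ) • (C ∘L Z ε)) s‖ := by
          have h12 : ‖(((σ⁻¹ : ℝ) : ℂ) • (C ∘L Z ε)) s‖ = σ⁻¹ * ‖C y‖ := by
            rw [smul_apply, norm_smul, Complex.norm_real, Real.norm_of_nonneg (by positivity)]
            rfl
          rw [h12]
          by_cases hy0 : ‖y‖ = 0
          · rw [hy0]
            positivity
          have hy1 : 0 < ‖y‖ := lt_of_le_of_ne (norm_nonneg _) (Ne.symm hy0)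
          have h13 : σ * ‖y‖ ≤ ε * ‖s‖ + ‖C y‖ := by
            refine le_of_mul_le_mul_left ?_ hy1
            calc ‖y‖ * (σ * ‖y‖) = σ * ‖y‖ ^ 2 := by ring
              _ ≤ _ := h2
          calc ‖y‖ = σ⁻¹ * (σ * ‖y‖) := by field_simp
            _ ≤ σ⁻¹ * (ε * ‖s‖ + ‖C y‖) := by gcongr
            _ = γ * ‖s‖ + σ⁻¹ * ‖C y‖ := by rw [hε]; field_simp
        calc (⟪s, Z ε s⟫_ℂ).re ≤ ‖s‖ * ‖y‖ := (Complex.re_le_norm _).trans (norm_inner_le_norm _ _)
          _ ≤ ‖s‖ * (γ * ‖s‖ + ‖(((σ⁻¹ : ℝ) : ℂ) • (C ∘L Z ε)) s‖) := by gcongr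
          _ = _ := by ring) (β / (‖a 0‖ + 1)) (by positivity)
    refine ⟨ε₀, hε₀, fun η ε hη hηε hε ξ => ?_⟩
    have hε0 := hη.trans_le hηε
    refine (form_le_of_norm hTsa hrow hη hηε (hR η hη) (hR ε hε0) ξ).trans ?_
    have h1 := (hdini η ε hη hηε hε).1
    have h2 : tm a k * (R η - R ε) = Z ε - Z η := by
      have h3 : tm a k * R η = 1 - Z η := by
        have := (hR η hη).1
        rw [add_mul, smul_mul_assoc, one_mul] at this
        rw [hZ]
        exact eq_sub_of_add_eq this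
      have h4 : tm a k * R ε = 1 - Z ε := by
        have := (hR ε hε0).1
        rw [add_mul, smul_mul_assoc, one_mul] at this
        rw [hZ]
        exact eq_sub_of_add_eq this
      rw [mul_sub, h3, h4]
      abel
    rw [h2]
    have h5 : ‖a 0‖ * ‖Z ε - Z η‖ ≤ β := by
      calc ‖a 0‖ * ‖Z ε - Z η‖ ≤ (‖a 0‖ + 1) * (β / (‖a 0‖ + 1)) := by gcongr; linarith
        _ = β := by field_simp
    exact mul_le_mul_of_nonneg_right h5 (sq_nonneg _)

/-- The Cauchy property in one representation. -/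
theorem single_cauchy (hsa : Herm a k) (hp : PosT a (k + 1))
    (hc : ∀ l : ℤ, |l| ≤ k → ∃ z : ℂ, IsCompactOperator (a l - z • (1 : H →L[ℂ] H)))
    (R : ℝ → HK H k →L[ℂ] HK H k) (hR : ∀ ε, 0 < ε → IsRes (tm a k) (R ε) ε)
    {γ : ℝ} (hγ : 0 < γ) :
    ∃ ε₀ : ℝ, 0 < ε₀ ∧ ∀ η ε, 0 < η → η ≤ ε → ε ≤ ε₀ →
      ‖row a k ∘L (R η - R ε) ∘L col a k‖ ≤ γ := by
  set β : ℝ := γ ^ 2 / (‖a 0‖ + 1) with hβ
  have hp0' : 0 ≤ ‖a 0‖ := norm_nonneg _
  have hβ0 : 0 < β := by positivity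
  obtain ⟨ε₀, hε₀, h⟩ := single_form hsa hp hc R hR hβ0
  refine ⟨ε₀, hε₀, fun η ε hη hηε hε => ?_⟩
  have hε0 := hη.trans_le hηε
  have h1 := cross_le (selfAdjoint_tm hsa) (blockPos_col hsa hp) hβ0.le hη hηε (hR η hη)
    (hR ε hε0) (h η ε hη hηε hε)
  have h2 : β * ‖a 0‖ ≤ γ ^ 2 := by
    calc β * ‖a 0‖ ≤ β * (‖a 0‖ + 1) := by gcongr; linarith
      _ = γ ^ 2 := by rw [hβ]; field_simp
  exact (pow_le_pow_iff_left₀ (norm_nonneg _) hγ.le two_ne_zero).1 (h1.trans h2)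

end

end Pool.Agent.Work.MP_3f690c_an
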