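import Pool.Agent.Work.MP_3f690c_an.Single
import Pool.Agent.Work.MP_3f690c_an.Reps

/-!
# Near scalar C*-algebras have the positive Toeplitz completion property
-/

open scoped ComplexOrder InnerProductSpace
open Filter Topology

namespace Pool.Agent.Work.MP_3f690c_an

universe u v

theorem toep_apply {A : Type u} (a : ℤ → A) (m : ℕ) (i j : Fin m) :
    toep a m i j = a ((i : ℤ) - (j : ℤ)) := rfl

section
variable {H : Type u} [NormedAddCommGroup H] [InnerProductSpace ℂ H] {a b : ℤ → H →L[ℂ] H} {k : ℕ}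

theorem tm_congr (h : ∀ l : ℤ, |l| ≤ k → a l = b l) : tm a k = tm b k := by
  unfold tm
  congr 1
  funext i j
  refine h _ ?_
  have := i.2
  have := j.2
  rw [abs_le]
  constructor <;> omega

theorem row_congr (h : ∀ l : ℤ, |l| ≤ k → a l = b l) : row a k = row b k := by
  unfold row
  congr 1
  funext j
  refine h _ ?_
  have := j.2
  rw [abs_le]
  constructor <;> omega

theorem col_congr (h : ∀ l : ℤ, |l| ≤ k → a l = b l) : col a k = col b k := by
  unfold col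
  congr 1
  funext j
  refine h _ ?_
  have := j.2
  rw [abs_le]
  constructor <;> omega

variable [CompleteSpace H]

theorem form_im (hb : Herm b k) (ξ : Fin (k + 1) → H) :
    (∑ i : Fin (k + 1), ∑ j : Fin (k + 1), ⟪ξ i, b ((i : ℤ) - (j : ℤ)) (ξ j)⟫_ℂ).im = 0 := by
  rw [← Complex.conj_eq_iff_im, map_sum, Finset.sum_congr rfl fun i _ => map_sum _ _ _,
    Finset.sum_comm]
  refine Finset.sum_congr rfl fun i _ => Finset.sum_congr rfl fun j _ => ?_
  have h1 : b ((i : ℤ) - (j : ℤ)) = (b ((j : ℤ) - (i : ℤ))).adjoint := by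
    rw [← hb _ (abs_sub_le_of_fin j i)]
    congr 1
    ring
  rw [inner_conj_symm, h1, ContinuousLinearMap.adjoint_inner_right]

theorem form_split (hb : Herm b (k + 1)) (ξ : Fin (k + 2) → H) :
    (∑ i : Fin (k + 2), ∑ j : Fin (k + 2), ⟪ξ i, b ((i : ℤ) - (j : ℤ)) (ξ j)⟫_ℂ).re =
      (⟪ξ 0, b 0 (ξ 0)⟫_ℂ).re + (⟪ξ (Fin.last (k + 1)), b 0 (ξ (Fin.last (k + 1)))⟫_ℂ).re
      + (⟪(WithLp.toLp 2 fun i : Fin k => ξ i.castSucc.succ : HK H k),
          tm b k (WithLp.toLp 2 fun i : Fin k => ξ i.castSucc.succ : HK H k)⟫_ℂ).re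
      + 2 * (⟪ξ 0, row b k (WithLp.toLp 2 fun i : Fin k => ξ i.castSucc.succ : HK H k)⟫_ℂ).re
      + 2 * (⟪(WithLp.toLp 2 fun i : Fin k => ξ i.castSucc.succ : HK H k),
          col b k (ξ (Fin.last (k + 1)))⟫_ℂ).re
      + 2 * (⟪ξ 0, b (-((k : ℤ) + 1)) (ξ (Fin.last (k + 1)))⟫_ℂ).re := by
  set w : HK H k := WithLp.toLp 2 fun i : Fin k => ξ i.castSucc.succ with hw
  set ζ := ξ (Fin.last (k + 1)) with hζ
  have hbk : Herm b k := fun l hl => hb l (by push_cast; omega)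
  set w' : HK H (k + 1) := WithLp.toLp 2 fun i : Fin (k + 1) => ξ i.succ with hw'
  have h1 := form_cons (a := b) (k := k + 1) (by exact_mod_cast hb) (ξ 0) w'
  have h2 : (Fin.cons (ξ 0) w'.ofLp : Fin (k + 1 + 1) → H) = ξ := by
    funext i
    refine Fin.cases ?_ (fun i => ?_) i
    · simp
    · simp [hw']
  rw [h2] at h1
  have h3 : (⟪w', tm b (k + 1) w'⟫_ℂ).re = (⟪ζ, b 0 ζ⟫_ℂ).re +
      2 * (⟪w, col b k ζ⟫_ℂ).re + (⟪w, tm b k w⟫_ℂ).re := by
    have h4 := form_snoc hbk ζ w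
    have h5 : (Fin.snoc w.ofLp ζ : Fin (k + 1) → H) = w'.ofLp := by
      funext i
      refine Fin.lastCases ?_ (fun i => ?_) i
      · simp [hw', hζ]
      · simp [hw', hw]
    rw [h5] at h4
    have h6 : (⟪ζ, (col b k).adjoint w⟫_ℂ).re = (⟪w, col b k ζ⟫_ℂ).re := by
      rw [ContinuousLinearMap.adjoint_inner_right, ← inner_conj_symm, Complex.conj_re]
    rw [h6] at h4
    rw [h4, tm, inner_mat]
  have h7 : (⟪ξ 0, row b (k + 1) w'⟫_ℂ).re = (⟪ξ 0, row b k w⟫_ℂ).re +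
      (⟪ξ 0, b (-((k : ℤ) + 1)) ζ⟫_ℂ).re := by
    rw [row, row, inner_rowOp, inner_rowOp, Fin.sum_univ_castSucc, Complex.add_re]
    congr 2
  rw [h3, h7] at h1
  rw [← h1]
  ring

end

section
variable {A : Type u} [NonUnitalCStarAlgebra A] [PartialOrder A] [StarOrderedRing A]

theorem star_toep {a : ℤ → A} {k : ℕ} (h : 0 ≤ toep a (k + 1)) (l : ℤ) (hl : |l| ≤ k) :
    a (-l) = star (a l) := by
  have h1 : star (toep a (k + 1)) = toep a (k + 1) := (IsSelfAdjoint.of_nonneg h)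
  rw [abs_le] at hl
  rcases le_total 0 l with h0 | h0
  · have h2 : l.toNat < k + 1 := by omega
    have h3 := congrFun (congrFun h1 (0 : Fin (k + 1))) (⟨l.toNat, h2⟩ : Fin (k + 1))
    rw [CStarMatrix.star_apply, toep_apply, toep_apply] at h3
    have h4 : (((⟨l.toNat, h2⟩ : Fin (k + 1)) : ℕ) : ℤ) = l := by
      simp [Int.toNat_of_nonneg h0]
    rw [h4] at h3
    simpa using h3.symm
  · have h2 : (-l).toNat < k + 1 := by omega
    have h3 := congrFun (congrFun h1 (⟨(-l).toNat, h2⟩ : Fin (k + 1))) (0 : Fin (k + 1))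
    rw [CStarMatrix.star_apply, toep_apply, toep_apply] at h3
    have h4 : (((⟨(-l).toNat, h2⟩ : Fin (k + 1)) : ℕ) : ℤ) = -l := by
      simp [Int.toNat_of_nonneg (neg_nonneg.2 h0)]
    rw [h4] at h3
    simpa using h3.symm

omit [PartialOrder A] [StarOrderedRing A]

/-- The corner entry `r (T + ε)⁻¹ c`, written with `B = T (T + ε)⁻¹`. -/
noncomputable def yEps (a : ℤ → A) {k : ℕ} (B : CStarMatrix (Fin k) (Fin k) A) (ε : ℝ) : A :=
  ((ε⁻¹ : ℝ) : ℂ) • ((∑ i : Fin k, a (-((i : ℤ) + 1)) * a ((i : ℤ) - (k : ℤ))) -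
    ∑ i : Fin k, ∑ j : Fin k, a (-((i : ℤ) + 1)) * B i j * a ((j : ℤ) - (k : ℤ)))

section
variable {H : Type v} [NormedAddCommGroup H] [InnerProductSpace ℂ H] [CompleteSpace H] {k : ℕ}

/-- The resolvent `(T + ε)⁻¹` in a representation, written with `B = T (T + ε)⁻¹`. -/
noncomputable def Rop (π : A →⋆ₙₐ[ℂ] (H →L[ℂ] H)) (B : CStarMatrix (Fin k) (Fin k) A) (ε : ℝ) :
    HK H k →L[ℂ] HK H k :=
  ((ε⁻¹ : ℝ) : ℂ) • (1 - mat fun i j => π (B i j))

theorem pi_yEps (π : A →⋆ₙₐ[ℂ] (H →L[ℂ] H)) (a : ℤ → A) (B : CStarMatrix (Fin k) (Fin k) A)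
    (ε : ℝ) : π (yEps a B ε) =
      row (fun l => π (a l)) k ∘L Rop π B ε ∘L col (fun l => π (a l)) k := by
  have h1 : row (fun l => π (a l)) k ∘L Rop π B ε ∘L col (fun l => π (a l)) k =
      ((ε⁻¹ : ℝ) : ℂ) • (row (fun l => π (a l)) k ∘L col (fun l => π (a l)) k -
        row (fun l => π (a l)) k ∘L (mat fun i j => π (B i j)) ∘L col (fun l => π (a l)) k) := by
    ext ξ
    simp [Rop, map_sub, map_smul]
  rw [h1, row, col, rowOp_colOp, rowOp_mat_colOp, yEps, map_smul, map_sub, map_sum, map_sum]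
  simp only [map_sum, map_mul]

theorem mat_toep (π : A →⋆ₙₐ[ℂ] (H →L[ℂ] H)) (a : ℤ → A) :
    (mat fun i j => π (toep a k i j)) = tm (fun l => π (a l)) k := rfl

theorem mat_pi_mul (π : A →⋆ₙₐ[ℂ] (H →L[ℂ] H)) (M N : CStarMatrix (Fin k) (Fin k) A) :
    (mat fun i j => π ((M * N) i j)) = (mat fun i j => π (M i j)) * (mat fun i j => π (N i j)) := by
  rw [mat_mul]
  congr 1
  funext i j
  rw [CStarMatrix.mul_apply, map_sum]
  simp only [map_mul]

theorem isRes_Rop (π : A →⋆ₙₐ[ℂ] (H →L[ℂ] H)) (a : ℤ → A) {B : CStarMatrix (Fin k) (Fin k) A}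
    {ε : ℝ} (hε : 0 < ε) (h1 : B * toep a k + (ε : ℂ) • B = toep a k)
    (h2 : toep a k * B + (ε : ℂ) • B = toep a k) :
    IsRes (tm (fun l => π (a l)) k) (Rop π B ε) ε := by
  have hε' : (ε : ℂ) ≠ 0 := by exact_mod_cast hε.ne'
  set T := tm (fun l => π (a l)) k with hT
  set Q : HK H k →L[ℂ] HK H k := mat fun i j => π (B i j) with hQ
  have hadd : ∀ M N : CStarMatrix (Fin k) (Fin k) A, (mat fun i j => π ((M + N) i j)) =
      (mat fun i j => π (M i j)) + (mat fun i j => π (N i j)) := by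
    intro M N
    rw [mat_add]
    congr 1
    funext i j
    rw [CStarMatrix.add_apply, map_add]
  have hsm : ∀ M : CStarMatrix (Fin k) (Fin k) A, (mat fun i j => π (((ε : ℂ) • M) i j)) =
      (ε : ℂ) • (mat fun i j => π (M i j)) := by
    intro M
    rw [mat_smul]
    congr 1
    funext i j
    rw [CStarMatrix.smul_apply, map_smul]
  have h3 : Q * T + (ε : ℂ) • Q = T := by
    have h4 : (mat fun i j => π ((B * toep a k + (ε : ℂ) • B) i j)) = T := by
      rw [h1]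
      rfl
    rw [hadd, mat_pi_mul, hsm, mat_toep] at h4
    exact h4
  have h5 : T * Q + (ε : ℂ) • Q = T := by
    have h4 : (mat fun i j => π ((toep a k * B + (ε : ℂ) • B) i j)) = T := by
      rw [h2]
      rfl
    rw [hadd, mat_pi_mul, hsm, mat_toep] at h4
    exact h4
  have h6 : ((ε⁻¹ : ℝ) : ℂ) * (ε : ℂ) = 1 := by
    rw [Complex.ofReal_inv, inv_mul_cancel₀ hε']
  constructor
  · rw [Rop, mul_smul_comm, add_mul, mul_sub, mul_one, smul_mul_assoc, one_mul, smul_sub, ← hQ]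
    have h7 : T * Q = T - (ε : ℂ) • Q := eq_sub_of_add_eq h5
    have h8 : T - T * Q + ((ε : ℂ) • (1 : HK H k →L[ℂ] HK H k) - (ε : ℂ) • Q) = (ε : ℂ) • 1 := by
      rw [h7]
      abel
    rw [h8, smul_smul, h6, one_smul]
  · rw [Rop, smul_mul_assoc, mul_add, sub_mul, one_mul, mul_smul_comm, mul_one, smul_sub, ← hQ]
    have h7 : Q * T = T - (ε : ℂ) • Q := eq_sub_of_add_eq h3
    have h8 : T - Q * T + ((ε : ℂ) • (1 : HK H k →L[ℂ] HK H k) - (ε : ℂ) • Q) = (ε : ℂ) • 1 := by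
      rw [h7]
      abel
    rw [h8, smul_smul, h6, one_smul]

theorem herm_rep (π : A →⋆ₙₐ[ℂ] (H →L[ℂ] H)) {a : ℤ → A}
    (ha : ∀ l : ℤ, |l| ≤ k → a (-l) = star (a l)) : Herm (fun l => π (a l)) k := by
  intro l hl
  change π (a (-l)) = (π (a l)).adjoint
  rw [ha l hl, map_star]
  rfl

end

variable [PartialOrder A] [StarOrderedRing A]

theorem posT_rep {ι : Type v} {H : ι → Type v}
    [∀ i, NormedAddCommGroup (H i)] [∀ i, InnerProductSpace ℂ (H i)] [∀ i, CompleteSpace (H i)]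
    (π : ∀ i, A →⋆ₙₐ[ℂ] (H i →L[ℂ] H i)) (hf : ∀ a, (∀ i, π i a = 0) → a = 0)
    (a : ℤ → A) (n : ℕ) :
    0 ≤ toep a n ↔ ∀ i, PosT (fun l => π i (a l)) n :=
  nonneg_iff_forall_rep π hf (toep a n)

theorem posT_of_succ {H : Type u} [NormedAddCommGroup H] [InnerProductSpace ℂ H]
    {a : ℤ → H →L[ℂ] H} {k : ℕ} (h : PosT a (k + 1)) : PosT a k := by
  intro ξ
  have h1 := h (Fin.snoc ξ 0)
  have h2 : (∑ i : Fin (k + 1), ∑ j : Fin (k + 1), ⟪(Fin.snoc ξ 0 : Fin (k + 1) → H) i,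
      a ((i : ℤ) - (j : ℤ)) ((Fin.snoc ξ 0 : Fin (k + 1) → H) j)⟫_ℂ) =
      ∑ i : Fin k, ∑ j : Fin k, ⟪ξ i, a ((i : ℤ) - (j : ℤ)) (ξ j)⟫_ℂ := by
    rw [Fin.sum_univ_castSucc]
    simp [Fin.sum_univ_castSucc (n := k)]
  rwa [h2] at h1

/-- The uniform Cauchy estimate. -/
theorem exists_cauchy {ι : Type u} {H : ι → Type u}
    [∀ i, NormedAddCommGroup (H i)] [∀ i, InnerProductSpace ℂ (H i)] [∀ i, CompleteSpace (H i)]
    (π : ∀ i, A →⋆ₙₐ[ℂ] (H i →L[ℂ] H i)) (hf : ∀ a, (∀ i, π i a = 0) → a = 0)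
    (hcpt : ∀ a i, ∃ z : ℂ, IsCompactOperator (π i a - z • (1 : H i →L[ℂ] H i)))
    (hfin : ∀ a, ∀ ε > 0, {i | ∀ z : ℂ, ε ≤ ‖π i a - z • (1 : H i →L[ℂ] H i)‖}.Finite)
    {k : ℕ} {a : ℤ → A} (ha : 0 ≤ toep a (k + 1)) (B : ℝ → CStarMatrix (Fin k) (Fin k) A)
    (hB : ∀ ε, 0 < ε → B ε * toep a k + (ε : ℂ) • B ε = toep a k ∧
      toep a k * B ε + (ε : ℂ) • B ε = toep a k) {γ : ℝ} (hγ : 0 < γ) :
    ∃ ε₀ : ℝ, 0 < ε₀ ∧ ∀ η ε, 0 < η → η ≤ ε → ε ≤ ε₀ →
      ‖yEps a (B η) η - yEps a (B ε) ε‖ ≤ γ := by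
  have hstar := star_toep ha
  have hpos := (posT_rep π hf a (k + 1)).1 ha
  obtain ⟨δ, hδ, ε₁, hε₁, hnear⟩ := near_uniform.{u} k ‖a 0‖ γ hγ
  have hS : (⋃ l ∈ Finset.Icc (-(k : ℤ)) k,
      {i | ∀ z : ℂ, δ ≤ ‖π i (a l) - z • (1 : H i →L[ℂ] H i)‖}).Finite :=
    Set.Finite.biUnion (Finset.finite_toSet _) fun l _ => hfin (a l) δ hδ
  have hsingle : ∀ i, ∃ ε₀ : ℝ, 0 < ε₀ ∧ ∀ η ε, 0 < η → η ≤ ε → ε ≤ ε₀ →
      ‖row (fun l => π i (a l)) k ∘L (Rop (π i) (B η) η - Rop (π i) (B ε) ε) ∘L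
        col (fun l => π i (a l)) k‖ ≤ γ := by
    intro i
    exact single_cauchy (herm_rep (π i) hstar) (hpos i) (fun l _ => hcpt (a l) i)
      (fun ε => Rop (π i) (B ε) ε)
      (fun ε hε => isRes_Rop (π i) a hε (hB ε hε).1 (hB ε hε).2) hγ
  choose e he0 he using hsingle
  obtain ⟨ε₂, hε₂, hε₂'⟩ : ∃ ε₂ : ℝ, 0 < ε₂ ∧ ∀ i ∈ hS.toFinset, ε₂ ≤ e i := by
    classical
    generalize hS.toFinset = s
    induction s using Finset.induction_on with
    | empty => exact ⟨1, one_pos, by simp⟩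
    | insert i s hi ih =>
      obtain ⟨x, hx, hx'⟩ := ih
      refine ⟨min x (e i), lt_min hx (he0 i), fun j hj => ?_⟩
      rcases Finset.mem_insert.1 hj with rfl | hj
      · exact min_le_right _ _
      · exact (min_le_left _ _).trans (hx' j hj)
  refine ⟨min ε₁ ε₂, lt_min hε₁ hε₂, fun η ε hη hηε hε => ?_⟩
  have hε0 := hη.trans_le hηε
  refine norm_le_of_forall_rep π hf hγ.le fun i => ?_
  rw [map_sub, pi_yEps, pi_yEps]
  have h1 : row (fun l => π i (a l)) k ∘L Rop (π i) (B η) η ∘L col (fun l => π i (a l)) k -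
      row (fun l => π i (a l)) k ∘L Rop (π i) (B ε) ε ∘L col (fun l => π i (a l)) k =
      row (fun l => π i (a l)) k ∘L (Rop (π i) (B η) η - Rop (π i) (B ε) ε) ∘L
        col (fun l => π i (a l)) k := by
    ext ξ
    simp [map_sub]
  rw [h1]
  by_cases hi : i ∈ hS.toFinset
  · exact he i η ε hη hηε (hε.trans ((min_le_right _ _).trans (hε₂' i hi)))
  · refine hnear (H i) (fun l => π i (a l)) (herm_rep (π i) hstar) (hpos i) ?_ ?_ η ε _ _ hη hηε
      (hε.trans (min_le_left _ _)) (isRes_Rop (π i) a hη (hB η hη).1 (hB η hη).2)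
      (isRes_Rop (π i) a hε0 (hB ε hε0).1 (hB ε hε0).2)
    · exact NonUnitalStarAlgHom.norm_apply_le (π i) (a 0)
    · intro l hl
      by_contra hcon
      push Not at hcon
      apply hi
      rw [Set.Finite.mem_toFinset, Set.mem_iUnion₂]
      refine ⟨l, ?_, fun z => (hcon z).le⟩
      rw [Finset.mem_Icc]
      exact abs_le.1 hl

/-- One completion step in near scalar C*-algebras. -/
theorem step_of_nearScalar (hN : NearScalar A) (k : ℕ) : StepProp A (k + 1) := by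
  obtain ⟨ι, H, _, _, _, π, hf, hcpt, hfin⟩ := hN
  intro a ha
  have hstar := star_toep ha
  have hpos := (posT_rep π hf a (k + 1)).1 ha
  have hT : 0 ≤ toep a k := (posT_rep π hf a k).2 fun i => posT_of_succ (hpos i)
  have hB : ∀ ε : ℝ, ∃ R : CStarMatrix (Fin k) (Fin k) A, 0 < ε →
      R * toep a k + (ε : ℂ) • R = toep a k ∧ toep a k * R + (ε : ℂ) • R = toep a k := by
    intro ε
    by_cases hε : 0 < ε
    · obtain ⟨R, h⟩ := exists_resolvent hT hε
      exact ⟨R, fun _ => h⟩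
    · exact ⟨0, fun h => absurd h hε⟩
  choose B hB using hB
  set e : ℕ → ℝ := fun n => 1 / ((n : ℝ) + 1) with he_def
  have he : ∀ n, 0 < e n := fun n => by positivity
  have he0 : Tendsto e atTop (𝓝 0) := tendsto_one_div_add_atTop_nhds_zero_nat
  have hanti : Antitone e := by
    intro m n hmn
    have h1 : (m : ℝ) ≤ n := by exact_mod_cast hmn
    exact one_div_le_one_div_of_le (by positivity) (by linarith)
  have hcau : CauchySeq (fun n => yEps a (B (e n)) (e n)) := by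
    rw [Metric.cauchySeq_iff']
    intro γ hγ
    obtain ⟨ε₀, hε₀, h⟩ := exists_cauchy π hf hcpt hfin ha B hB (half_pos hγ)
    obtain ⟨N, hN⟩ := (he0.eventually (gt_mem_nhds hε₀)).exists
    refine ⟨N, fun n hn => ?_⟩
    rw [dist_eq_norm]
    exact (h (e n) (e N) (he n) (hanti hn) hN.le).trans_lt (half_lt_self hγ)
  obtain ⟨y, hy⟩ := cauchySeq_tendsto_of_complete hcau
  set z : ℤ → A := fun l => if l = -((k : ℤ) + 1) then y else
    if l = (k : ℤ) + 1 then star y else a l with hz_def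
  have hza : ∀ l : ℤ, |l| ≤ k → z l = a l := by
    intro l hl
    rw [abs_le] at hl
    have h1 : l ≠ -((k : ℤ) + 1) := by omega
    have h2 : l ≠ (k : ℤ) + 1 := by omega
    simp only [hz_def, if_neg h1, if_neg h2]
  have hzy : z (-((k : ℤ) + 1)) = y := if_pos rfl
  have hzy' : z ((k : ℤ) + 1) = star y := by
    have h1 : (k : ℤ) + 1 ≠ -((k : ℤ) + 1) := by omega
    simp only [hz_def, if_neg h1]
    exact if_pos trivial
  have hzstar : ∀ l : ℤ, |l| ≤ ((k + 1 : ℕ) : ℤ) → z (-l) = star (z l) := by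
    intro l hl
    by_cases hl1 : |l| ≤ (k : ℤ)
    · rw [hza l hl1, hza (-l) (by rwa [abs_neg]), hstar l hl1]
    · have hl2 : l = (k : ℤ) + 1 ∨ l = -((k : ℤ) + 1) := by
        push_cast at hl
        rcases le_total 0 l with h0 | h0
        · rw [abs_of_nonneg h0] at hl hl1
          left; omega
        · rw [abs_of_nonpos h0] at hl hl1
          right; omega
      rcases hl2 with rfl | rfl
      · rw [hzy, hzy', star_star]
      · rw [neg_neg, hzy, hzy']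
  refine ⟨z, fun l hl => hza l (by push_cast at hl; omega), ?_⟩
  change 0 ≤ toep z (k + 1 + 1)
  rw [posT_rep π hf]
  intro i ξ
  have hz : Herm (fun l => π i (z l)) (k + 1) := herm_rep (π i) hzstar
  have hza' : ∀ l : ℤ, |l| ≤ k → (fun l => π i (z l)) l = (fun l => π i (a l)) l := by
    intro l hl
    simp only [hza l hl]
  have hre := form_split hz ξ
  have him := form_im hz ξ
  rw [Complex.le_def]
  refine ⟨?_, him.symm⟩
  rw [hre, tm_congr hza', row_congr hza', col_congr hza']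
  set w : HK (H i) k := WithLp.toLp 2 fun j : Fin k => ξ j.castSucc.succ with hw
  set ζ := ξ (Fin.last (k + 1)) with hζ
  have hza0 : z 0 = a 0 := hza 0 (by simp)
  simp only [hzy, hza0]
  have hherm := herm_rep (π i) hstar
  have hlim : Tendsto (fun n => (⟪ξ 0, π i (a 0) (ξ 0)⟫_ℂ).re + (⟪ζ, π i (a 0) ζ⟫_ℂ).re +
      (⟪w, tm (fun l => π i (a l)) k w⟫_ℂ).re + e n * ‖w‖ ^ 2 +
      2 * (⟪ξ 0, row (fun l => π i (a l)) k w⟫_ℂ).re +
      2 * (⟪w, col (fun l => π i (a l)) k ζ⟫_ℂ).re +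
      2 * (⟪ξ 0, π i (yEps a (B (e n)) (e n)) ζ⟫_ℂ).re) atTop
      (𝓝 ((⟪ξ 0, π i (a 0) (ξ 0)⟫_ℂ).re + (⟪ζ, π i (a 0) ζ⟫_ℂ).re +
      (⟪w, tm (fun l => π i (a l)) k w⟫_ℂ).re + 0 * ‖w‖ ^ 2 +
      2 * (⟪ξ 0, row (fun l => π i (a l)) k w⟫_ℂ).re +
      2 * (⟪w, col (fun l => π i (a l)) k ζ⟫_ℂ).re +
      2 * (⟪ξ 0, π i y ζ⟫_ℂ).re)) := by
    have hπ : Continuous (π i) := map_continuous (π i)
    have h1 : Tendsto (fun n => π i (yEps a (B (e n)) (e n))) atTop (𝓝 (π i y)) :=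
      (hπ.tendsto y).comp hy
    have h2 : Tendsto (fun n => π i (yEps a (B (e n)) (e n)) ζ) atTop (𝓝 (π i y ζ)) :=
      ((ContinuousLinearMap.apply ℂ (H i) ζ).continuous.tendsto _).comp h1
    have h3 : Tendsto (fun n => (⟪ξ 0, π i (yEps a (B (e n)) (e n)) ζ⟫_ℂ).re) atTop
        (𝓝 ((⟪ξ 0, π i y ζ⟫_ℂ).re)) :=
      (Complex.continuous_re.tendsto _).comp ((tendsto_const_nhds).inner h2)
    exact ((((tendsto_const_nhds.add (he0.mul_const _)).add tendsto_const_nhds).add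
      tendsto_const_nhds).add (h3.const_mul 2))
  have hnn := ge_of_tendsto' hlim fun n => by
    have h1 := central_completion (selfAdjoint_tm hherm) (blockPos_row hherm (hpos i))
      (blockPos_col hherm (hpos i)) (he n)
      (isRes_Rop (π i) a (he n) (hB (e n) (he n)).1 (hB (e n) (he n)).2) (ξ 0) ζ w
    rw [pi_yEps]
    exact h1
  rw [zero_mul, add_zero] at hnn
  simp only [Complex.zero_re]
  linarith

theorem ptc_of_step (h : ∀ k : ℕ, StepProp A (k + 1)) : PTC A := by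
  intro k n hk hkn a ha
  obtain ⟨m, rfl⟩ : ∃ m, n = k + 1 + m := ⟨n - (k + 1), by omega⟩
  obtain ⟨k, rfl⟩ : ∃ k', k = k' + 1 := ⟨k - 1, by omega⟩
  clear hkn hk
  induction m with
  | zero => exact h k a ha
  | succ m ih =>
    obtain ⟨y, hy, hy'⟩ := ih
    obtain ⟨z, hz, hz'⟩ := h (k + 1 + m) y (by
      have : k + 1 + m + 1 = k + 1 + 1 + m := by ring
      rw [this]
      exact hy')
    refine ⟨z, fun l hl => ?_, ?_⟩
    · rw [hz l (by push_cast at hl ⊢; omega), hy l hl]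
    · have : k + 1 + m + 1 + 1 = k + 1 + 1 + (m + 1) := by ring
      rw [← this]
      exact hz'

theorem ptc_of_nearScalar (hN : NearScalar A) : PTC A :=
  ptc_of_step (step_of_nearScalar hN)

end

end Pool.Agent.Work.MP_3f690c_an
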